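import Pool.Agent.B595.Tow.KDefs

set_option autoImplicit false
namespace CP

/-- the two bottom levels: a point and a path -/
theorem base_levels : ∃ Y X : Lev, Inv 0 Y X ∧ Int0 0 Y X ∧ 1 ≤ X.L ∧ ∀ t k, k < X.L → X.ty t k = 0 := by
  let g : ℕ → Fin 3 := fun x => if x = 1 then 0 else if x = 2 then 1 else 2
  let Y : Lev := { L := 0, Lp := 0, p := fun _ => 0, h := fun _ _ => 0, ty := fun _ _ => 0,
                   lab := fun _ => true, lo := fun _ => 0, hi := fun _ => 0,
                   R := fun _ _ _ _ => 0, ER := fun _ _ _ => 0, S := fun _ _ => True,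
                   col := fun _ _ => 0, ga := fun _ _ => 0 }
  let X : Lev := { L := 4, Lp := 0, p := fun _ => 0, h := fun _ _ => 0, ty := fun _ _ => 0,
                   lab := fun _ => true, lo := fun _ => 0, hi := fun _ => 4,
                   R := fun _ i _ _ => i.val + 1, ER := fun _ _ _ => 0, S := fun _ _ => True,
                   col := fun _ x => g x, ga := fun _ x => g x }
  refine ⟨Y, X, ?_, ?_, ?_, ?_⟩
  · constructor
    case hLp => rfl
    case FY =>
      constructor
      · rfl
      · rfl
      · intro y hy; exact le_refl _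
      · intro y hy; exact absurd hy (Nat.not_lt_zero _)
      · intro x hx; exact ⟨le_refl _, ⟨Nat.zero_le _, hx⟩⟩
      · intro y hy x hx; exact ⟨hx.2, (Nat.le_zero.1 hy).symm⟩
    case FX =>
      constructor
      · rfl
      · rfl
      · intro y hy; exact Nat.zero_le _
      · intro y hy; exact absurd hy (Nat.not_lt_zero _)
      · intro x hx; exact ⟨le_refl _, ⟨Nat.zero_le _, hx⟩⟩
      · intro y hy x hx; exact ⟨hx.2, (Nat.le_zero.1 hy).symm⟩
    case thickX => intro y hy; show 0 + 2 ≤ 4; omega
    case thickY => intro h; omega
    case hmemX => intro t x hx; exact le_refl _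
    case hmemY => intro t x hx; exact le_refl _
    case com_p => intro t x hx; rfl
    case com_h => intro t x hx; rfl
    case mv0Y => intro t k hk; exact absurd hk (Nat.not_lt_zero _)
    case hlipY => intro t k hk; exact absurd hk (Nat.not_lt_zero _)
    case hlip => intro t k hk; exact Or.inl rfl
    case old => intro k hk h; exact absurd rfl h
    case new => intro k hk h; rfl
    case mv0 => intro t k hk h; rfl
    case mv1 => intro t k hk h; exact absurd rfl h
    case lab1 => intro k hk h; exact absurd h (by show ¬ (1 ≤ 0 + 0); omega)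
    case adjX => intro k hk h1 h2; constructor <;> exact Nat.zero_le _
    case adjY => intro k hk; exact absurd hk (Nat.not_lt_zero _)
    case turn => intro h; omega
    case oldnew => intro e u he hu ha h; exact absurd rfl h
    case runs =>
      intro t i y hy
      refine ⟨⟨?_, ?_⟩, ?_⟩
      · intro b hb
        have hb2 : b ≤ 0 := hb.2
        refine ⟨⟨Nat.zero_le _, ?_⟩, (Nat.le_zero.1 hb2).symm⟩
        show i.val + 1 ≤ 4
        have := i.isLt
        omega
      · intro b hb hb'
        have hb2 : b + 1 ≤ 0 := hb'.2
        omega
      · intro b hb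
        refine ⟨trivial, ?_⟩
        show g (i.val + 1) = i
        fin_cases i <;> rfl
    case ends =>
      intro y y' hy hy' h
      have h1 : y ≤ 0 := hy
      have h2 : y' ≤ 0 := hy'
      unfold Ad at h
      omega
  · intro _ t i y b hy hb
    show 0 < i.val + 1 ∧ i.val + 1 < 4
    have := i.isLt
    omega
  · show 1 ≤ 4
    omega
  · intro t k hk
    rfl

end CP
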