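import Pool.Agent.B595.Tow.KDefs

set_option autoImplicit false
namespace CP

theorem tysum (V : ℕ → Lev) (rs : ℕ → Bool) (hT : Tow V rs) (n k : ℕ) (hk : k < (V n).L) :
    (V n).ty true k + (V n).ty false k ≤ n := by
  induction n generalizing k with
  | zero =>
    rw [hT.base0 true k hk, hT.base0 false k hk]
  | succ n ih =>
    have I := hT.inv n
    by_cases hpk : (V (n+1)).p k = (V (n+1)).p (k+1)
    · rw [I.new k hk hpk]
    · have hpl : (V (n+1)).p k < (V n).L := by
        have h1 := I.FX.pfib k hk.le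
        rw [I.hLp] at h1
        rcases Nat.lt_or_ge ((V (n+1)).p k) (V n).L with h | h
        · exact h
        · exfalso
          have h2 : (V (n+1)).p k = (V (n+1)).Lp := by rw [I.hLp]; omega
          apply hpk
          have h3 : fib (V (n+1)) ((V (n+1)).p k) (k+1) := by
            refine ⟨by have := h1.2.1; omega, ?_⟩
            rw [h2, I.FX.hiL]
            exact hk
          exact ((I.FX.fibp _ h2.le (k+1) h3).2).symm
      have h4 := (I.old k hk hpk).1
      rw [h4 true, h4 false]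
      exact (ih _ hpl).trans (Nat.le_succ n)

theorem thr_sh (V : ℕ → Lev) (rs : ℕ → Bool) (hT : Tow V rs) (z : ℕ → ℕ) (hz : Thr V z) (t : Bool) :
    Thr V (sh (H V t) z) := by
  constructor
  · intro n
    exact (hT.inv n).hmemX t _ (hz.1 (n+1))
  · intro n
    have h := (hT.inv (n+1)).com_p t (z (n+2)) (hz.1 (n+2))
    show (V (n+1)).p ((V (n+2)).h t (z (n+2))) = (V (n+1)).h t (z (n+1))
    rw [← hz.2 (n+1)]
    exact h

theorem sh_comm (V : ℕ → Lev) (rs : ℕ → Bool) (hT : Tow V rs) (z : ℕ → ℕ) (hz : Thr V z) (t : Bool) :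
    sh (H V t) (sh (H V (!t)) z) = sh (H V (!t)) (sh (H V t) z) := by
  funext n
  exact (hT.inv (n+1)).com_h t (z (n+2)) (hz.1 (n+2))

theorem sh_comm_any (V : ℕ → Lev) (rs : ℕ → Bool) (hT : Tow V rs) (z : ℕ → ℕ) (hz : Thr V z)
    (t t' : Bool) : sh (H V t') (sh (H V t) z) = sh (H V t) (sh (H V t') z) := by
  by_cases h : t' = t
  · rw [h]
  · have h1 : t' = !t := by
      cases t <;> cases t' <;> simp_all
    rw [h1]
    exact (sh_comm V rs hT z hz t).symm

theorem sh_iter_comm (V : ℕ → Lev) (rs : ℕ → Bool) (hT : Tow V rs) (N : ℕ) (z : ℕ → ℕ)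
    (hz : Thr V z) (t t' : Bool) :
    (sh (H V t'))^[N] (sh (H V t) z) = sh (H V t) ((sh (H V t'))^[N] z) := by
  induction N generalizing z with
  | zero => rfl
  | succ N ih =>
    rw [Function.iterate_succ_apply, Function.iterate_succ_apply, sh_comm_any V rs hT z hz t t']
    exact ih _ (thr_sh V rs hT z hz t')

theorem per_sh (V : ℕ → Lev) (rs : ℕ → Bool) (hT : Tow V rs) (N : ℕ) (z : ℕ → ℕ) (hz : Per V N z) (t : Bool) :
    Per V N (sh (H V t) z) := by
  refine ⟨thr_sh V rs hT z hz.1 t, fun t' => ?_⟩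
  rw [sh_iter_comm V rs hT N z hz.1 t t', hz.2 t']






theorem safe (V : ℕ → Lev) (rs : ℕ → Bool) (hT : Tow V rs) (t : Bool) (N : ℕ) (hN : 1 ≤ N) :
    ∃ M, ∀ z, Thr V z → (sh (H V (!t)))^[N] z = z → ∀ n, M ≤ n → ¬ (V n).S t (z n) := by
  obtain ⟨m, hm1, hm2, hm3⟩ := hT.sched N hN
  have hthr : ∀ (j : ℕ) (z : ℕ → ℕ), Thr V z → Thr V ((sh (H V (!t)))^[j] z) := by
    intro j
    induction j with
    | zero => intro z hz; exact hz
    | succ j ih =>
      intro z hz
      rw [Function.iterate_succ_apply]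
      exact ih _ (thr_sh V rs hT z hz (!t))
  have hnores : ∀ j, j < N → ∀ w, Thr V w →
      (V (m+2+j)).col t (w (m+2+j)) = (V (m+2)).col t (w (m+2)) ∧
      (V (m+2+j)).ga t (w (m+2+j)) = (V (m+2)).ga t ((sh (H V (!t)))^[j] w (m+2)) := by
    intro j
    induction j with
    | zero => intro _ w hw; exact ⟨rfl, rfl⟩
    | succ j ih =>
      intro hj w hw
      obtain ⟨h1, h2⟩ := (hT.rel (m+(j+1))).nores (hm3 (j+1) (by omega) hj) t (w (m+(j+1)+2)) (hw.1 _)
      have hp : (V (m+(j+1)+2)).p (w (m+(j+1)+2)) = w (m+(j+1)+1) := hw.2 (m+(j+1)+1)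
      rw [hp] at h1
      have h2' : (V (m+(j+1)+2)).ga t (w (m+(j+1)+2)) =
        (V (m+(j+1)+1)).ga t ((sh (H V (!t)) w) (m+(j+1)+1)) := h2
      have e1 : m + 2 + (j+1) = m+(j+1)+2 := by omega
      have e2 : m+(j+1)+1 = m+2+j := by omega
      rw [e2] at h1 h2'
      have i1 := (ih (by omega) w hw).1
      have i2 := (ih (by omega) _ (thr_sh V rs hT w hw (!t))).2
      rw [e1, Function.iterate_succ_apply, h1, h2', i1, i2]
      exact ⟨rfl, rfl⟩
  have hdown : ∀ (d : ℕ) (z : ℕ → ℕ), Thr V z → (V (m+2+N+d)).S t (z (m+2+N+d)) →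
      (V (m+2+N)).S t ((sh (H V (!t)))^[d] z (m+2+N)) := by
    intro d
    induction d with
    | zero => intro z _ h; exact h
    | succ d ih =>
      intro z hz h
      rw [Function.iterate_succ_apply]
      apply ih _ (thr_sh V rs hT z hz (!t))
      have e1 : m+2+N+(d+1) = (m+N+d+1) + 2 := by omega
      have e2 : m+2+N+d = (m+N+d+1) + 1 := by omega
      rw [e1] at h
      rw [e2]
      exact (hT.rel (m+N+d+1)).sinh t (z (m+N+d+1+2)) (hz.1 _) h
  refine ⟨m+2+N, ?_⟩
  intro z hz hper n hn hS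
  obtain ⟨d, rfl⟩ := Nat.exists_eq_add_of_le hn
  obtain ⟨z1, hz1⟩ : ∃ z1, z1 = (sh (H V (!t)))^[d] z := ⟨_, rfl⟩
  have hS1 := hdown d z hz hS
  have hT1 := hthr d z hz
  have hper1 : (sh (H V (!t)))^[N] z1 = z1 := by
    rw [hz1, ← Function.iterate_add_apply, Nat.add_comm, Function.iterate_add_apply, hper]
  rw [← hz1] at hS1 hT1
  have e3 : m + 2 + N = (m + N) + 2 := by omega
  rw [e3] at hS1
  have hr := ((hT.rel (m+N)).res hm2 t (z1 (m+N+2)) (hT1.1 _)).2 hS1
  have hp : (V (m+N+2)).p (z1 (m+N+2)) = z1 (m+N+1) := hT1.2 (m+N+1)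
  rw [hp] at hr
  have hr' : (V (m+N+1)).ga t ((sh (H V (!t)) z1) (m+N+1)) ≠ (V (m+N+1)).col t (z1 (m+N+1)) := hr
  have e4 : m + N + 1 = m + 2 + (N - 1) := by omega
  rw [e4, (hnores (N-1) (by omega) z1 hT1).1,
    (hnores (N-1) (by omega) _ (thr_sh V rs hT z1 hT1 (!t))).2,
    ← Function.iterate_succ_apply, Nat.succ_eq_add_one, Nat.sub_add_cancel hN, hper1] at hr'
  exact hr' (((hT.rel m).res hm1 t (z1 (m+2)) (hT1.1 _)).1).symm








theorem one_step (V : ℕ → Lev) (rs : ℕ → Bool) (hT : Tow V rs) (t : Bool) (n k x : ℕ)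
    (hk : At V (n + 1) k x) (hnew : (V (n+1)).p k = (V (n+1)).p (k+1))
    (hj : 1 ≤ (V (n+1)).ty t k) :
    ∃ k', At V n k' ((V (n+1)).h t x) ∧ (V n).p k' = (V n).p (k'+1) ∧
      (V n).ty t k' + 1 = (V (n+1)).ty t k ∧ (V n).ty (!t) k' = (V (n+1)).ty (!t) k := by
  have hI := hT.inv n
  obtain ⟨hkL, hkx⟩ := hk
  have hne : (V (n+1)).h t k ≠ (V (n+1)).h t (k+1) := by
    intro h
    have := hI.mv0 t k hkL h
    omega
  have had : Ad ((V (n+1)).h t k) ((V (n+1)).h t (k+1)) := by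
    rcases hI.hlip t k hkL with h | h
    · exact absurd h hne
    · exact h
  obtain ⟨h1, h2, -⟩ := hI.mv1 t k hkL hne
  have hL1 := hI.hmemX t k hkL.le
  have hL2 := hI.hmemX t (k+1) hkL
  have hp1 := hI.com_p t k hkL.le
  have hp2 := hI.com_p t (k+1) hkL
  rw [hnew] at hp1
  have hp : (V n).p ((V (n+1)).h t k) = (V n).p ((V (n+1)).h t (k+1)) := by rw [hp1, hp2]
  rcases had with h | h
  · -- h t (k+1) = h t k + 1
    have hmin : min ((V (n+1)).h t k) ((V (n+1)).h t (k+1)) = (V (n+1)).h t k := by omega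
    rw [hmin] at h1 h2
    refine ⟨(V (n+1)).h t k, ⟨by omega, ?_⟩, ?_, h1.symm, h2.symm⟩
    · rcases hkx with rfl | rfl
      · exact Or.inl rfl
      · exact Or.inr h.symm
    · rw [← h]; exact hp
  · have hmin : min ((V (n+1)).h t k) ((V (n+1)).h t (k+1)) = (V (n+1)).h t (k+1) := by omega
    rw [hmin] at h1 h2
    refine ⟨(V (n+1)).h t (k+1), ⟨by omega, ?_⟩, ?_, h1.symm, h2.symm⟩
    · rcases hkx with rfl | rfl
      · exact Or.inr h.symm
      · exact Or.inl rfl
    · rw [← h]; exact hp.symm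

theorem descend (V : ℕ → Lev) (rs : ℕ → Bool) (hT : Tow V rs) (t : Bool) (j : ℕ) (z : ℕ → ℕ) (hz : Thr V z)
    (m k : ℕ) (hk : At V (m + j) k (z (m + j))) (hnew : 0 < m + j → (V (m+j)).p k = (V (m+j)).p (k+1))
    (hj : j ≤ (V (m+j)).ty t k) :
    ∃ k', At V m k' (((sh (H V t))^[j] z) m) ∧ (0 < m → (V m).p k' = (V m).p (k'+1)) ∧
      (V m).ty t k' + j = (V (m+j)).ty t k ∧ (V m).ty (!t) k' = (V (m+j)).ty (!t) k := by
  induction j generalizing z k with
  | zero =>
    refine ⟨k, ?_, ?_, ?_, ?_⟩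
    · simpa using hk
    · exact hnew
    · simp
    · rfl
  | succ j ih =>
    obtain ⟨k1, ha, hp, h1, h2⟩ := one_step V rs hT t (m + j) k (z (m + (j + 1))) hk
      (hnew (by omega)) (le_trans (by omega) hj)
    obtain ⟨k', b1, b2, b3, b4⟩ := ih (sh (H V t) z) (thr_sh V rs hT z hz t) k1 ha (fun _ => hp)
      (by
        have hj' : j + 1 ≤ (V (m + j + 1)).ty t k := hj
        omega)
    refine ⟨k', ?_, b2, ?_, ?_⟩
    · rw [Function.iterate_succ_apply]
      exact b1
    · show (V m).ty t k' + (j + 1) = (V (m + j + 1)).ty t k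
      omega
    · show (V m).ty (!t) k' = (V (m + j + 1)).ty (!t) k
      rw [b4, h2]










theorem smallside (V : ℕ → Lev) (rs : ℕ → Bool) (hT : Tow V rs) (N : ℕ) (hN : 2 ≤ N) (z : ℕ → ℕ)
    (hz : Per V N z) (n k : ℕ) (hn : 1 ≤ n) (hk : At V n k (z n)) (hnew : (V n).p k = (V n).p (k+1)) :
    ∃ t, (V n).ty t k < N := by
  by_contra hc
  push Not at hc
  have hct := hc true
  have hcf := hc false
  have hsum : (V n).ty true k + (V n).ty false k = n := by
    obtain ⟨n', rfl⟩ : ∃ n', n = n' + 1 := ⟨n - 1, by omega⟩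
    exact (hT.inv n').new k hk.1 hnew
  obtain ⟨m, rfl⟩ : ∃ m, n = m + N := ⟨n - N, by omega⟩
  have hm : 2 ≤ m := by omega
  obtain ⟨k1, h11, h12, h13, h14⟩ := descend V rs hT true N z hz.1 m k hk (fun _ => hnew) hct
  obtain ⟨k2, h21, h22, h23, h24⟩ := descend V rs hT false N z hz.1 m k hk (fun _ => hnew) hcf
  rw [hz.2 true] at h11
  rw [hz.2 false] at h21
  have h12' := h12 (by omega)
  have h22' := h22 (by omega)
  have h24' : (V m).ty true k2 = (V (m + N)).ty true k := h24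
  obtain ⟨m', rfl⟩ : ∃ m', m = m' + 1 := ⟨m - 1, by omega⟩
  have hadj := (hT.inv m').adjX
  obtain ⟨h1L, h1o⟩ := h11
  obtain ⟨h2L, h2o⟩ := h21
  by_cases he : k1 = k2
  · subst he
    omega
  · have hcase : k1 = k2 + 1 ∨ k2 = k1 + 1 := by omega
    rcases hcase with h | h
    · subst h
      have := hadj k2 h1L h22' h12'
      omega
    · subst h
      have := hadj k1 h2L h12' h22'
      omega












theorem oldcase_ladj {X : Lev} (F : Fibs X) (k : ℕ) (hk : k < X.L) (hne : X.p k ≠ X.p (k+1)) :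
    X.p (k+1) = X.p k + 1 ∧ X.hi (X.p k) = k ∧ X.lo (X.p k + 1) = k + 1 ∧ X.p k < X.Lp := by
  obtain ⟨a1, a2, a3⟩ := F.pfib k (by omega)
  have e1 : X.hi (X.p k) = k := by
    by_contra hc
    have : X.p (k+1) = X.p k := (F.fibp (X.p k) a1 (k+1) ⟨by omega, by omega⟩).2
    exact hne this.symm
  have e2 : X.p k < X.Lp := by
    by_contra hc
    have h1 : X.p k = X.Lp := by omega
    have h2 := F.hiL
    rw [← h1, e1] at h2
    omega
  have e3 := F.next (X.p k) e2
  have e4 := F.lohi (X.p k + 1) (by omega)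
  have e5 : X.p (k+1) = X.p k + 1 := (F.fibp (X.p k + 1) (by omega) (k+1) ⟨by omega, by omega⟩).2
  exact ⟨e5, e1, by omega, e2⟩

theorem oldcase_img {n : ℕ} {Y X : Lev} (I : Inv n Y X) (t : Bool) (k x : ℕ) (hk : k < X.L)
    (hx : k = x ∨ k + 1 = x) (hne : X.h t k ≠ X.h t (k+1)) :
    ∃ k1, k1 = min (X.h t k) (X.h t (k+1)) ∧ k1 < Y.L ∧ (k1 = X.h t x ∨ k1 + 1 = X.h t x) ∧
    ((X.h t k = k1 ∧ X.h t (k+1) = k1 + 1) ∨ (X.h t k = k1 + 1 ∧ X.h t (k+1) = k1)) := by
  have h1 := I.hmemX t k (by omega)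
  have h2 := I.hmemX t (k+1) (by omega)
  have h3 := I.hlip t k hk
  have h4 : X.h t (k+1) = X.h t k + 1 ∨ X.h t k = X.h t (k+1) + 1 := by
    rcases h3 with h3 | h3
    · exact absurd h3 hne
    · exact h3
  refine ⟨_, rfl, ?_, ?_, ?_⟩
  · rcases h4 with h4 | h4 <;> omega
  · rcases hx with rfl | rfl <;> rcases h4 with h4 | h4 <;> omega
  · rcases h4 with h4 | h4
    · left; omega
    · right; omega

theorem oldcase_lab {n : ℕ} {Y X : Lev} (I : Inv n Y X) (hn : 2 ≤ n) (t : Bool) (e u x : ℕ)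
    (he : e < X.L) (hu : u < X.L) (hex : e = x ∨ e + 1 = x) (hux : u = x ∨ u + 1 = x)
    (hold : X.p e ≠ X.p (e+1)) (hnew : X.p u = X.p (u+1)) (h0 : X.ty (!t) u = 0) :
    X.lab e = t ∧ 1 ≤ X.ty t e := by
  have hne : e ≠ u := by
    rintro rfl
    exact hold hnew
  have hAd : Ad e u := by
    unfold Ad
    omega
  obtain ⟨a1, a2⟩ := I.oldnew e u he hu hAd hold hnew
  by_cases hs : 1 ≤ X.ty true e + X.ty false e
  · have b := a1 hs
    have hl : X.lab e = t := by
      by_contra hc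
      have : X.lab e = !t := by
        cases t <;> cases h : X.lab e <;> simp_all
      rw [this] at b
      omega
    refine ⟨hl, ?_⟩
    have := I.lab1 e he hs
    rwa [hl] at this
  · have := a2 (by omega) hn (!t)
    omega

theorem oldcase_a (V : ℕ → Lev) (rs : ℕ → Bool) (hT : Tow V rs) (t : Bool) : ∀ r : ℕ,
    ∀ (z : ℕ → ℕ), Thr V z →
    ∀ n e u, r + 2 ≤ n → At V n e (z n) → At V n u (z n) → (V n).p e ≠ (V n).p (e+1) →
    (V n).p u = (V n).p (u+1) → (V n).ty (!t) u = 0 → (V n).ty t e = r → False := by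
  intro r
  induction r with
  | zero =>
    intro z hz n e u hn he hu hold hnew h0 hr
    obtain ⟨m, rfl⟩ : ∃ m, n = m + 1 := ⟨n-1, by omega⟩
    have := oldcase_lab (hT.inv m) (by omega) t e u (z (m+1)) he.1 hu.1 he.2 hu.2 hold hnew h0
    omega
  | succ r ih =>
    intro z hz n e u hn he hu hold hnew h0 hr
    obtain ⟨m, rfl⟩ : ∃ m, n = m + 2 := ⟨n-2, by omega⟩
    have I : Inv (m+2) (V (m+1)) (V (m+2)) := hT.inv (m+1)
    have J : Inv (m+1) (V m) (V (m+1)) := hT.inv m
    obtain ⟨o1, o2, o3, o4⟩ := oldcase_ladj I.FX e he.1 hold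
    rw [I.hLp] at o4
    have hold' := (I.old e he.1 hold).1 t
    -- e moves
    have hme : (V (m+2)).h t e ≠ (V (m+2)).h t (e+1) := by
      intro hc
      have := I.mv0 t e he.1 hc
      omega
    have hmu : (V (m+2)).h t u ≠ (V (m+2)).h t (u+1) := by
      intro hc
      have h1 := I.mv0 t u hu.1 hc
      have h2 := I.new u hu.1 hnew
      cases t
      · simp only [Bool.not_false] at h0
        omega
      · simp only [Bool.not_true] at h0
        omega
    obtain ⟨e1, he1, he2, he3, he4⟩ := oldcase_img I t e (z (m+2)) he.1 he.2 hme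
    obtain ⟨u1, hu1, hu2, hu3, hu4⟩ := oldcase_img I t u (z (m+2)) hu.1 hu.2 hmu
    obtain ⟨te1, te2, te3⟩ := I.mv1 t e he.1 hme
    obtain ⟨tu1, tu2, tu3⟩ := I.mv1 t u hu.1 hmu
    rw [← he1] at te1 te2 te3
    rw [← hu1] at tu1 tu2 tu3
    have cpe := I.com_p t e (by have := he.1; omega)
    have cpe' := I.com_p t (e+1) (by have := he.1; omega)
    have cpu := I.com_p t u (by have := hu.1; omega)
    have cpu' := I.com_p t (u+1) (by have := hu.1; omega)
    have hmp : (V (m+1)).h t ((V (m+2)).p e) ≠ (V (m+1)).h t ((V (m+2)).p (e+1)) := by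
      intro hc
      rw [o1] at hc
      have := J.mv0 t ((V (m+2)).p e) o4 hc
      omega
    have hz1 := thr_sh V rs hT z hz t
    have hzz : sh (H V t) z (m+1) = (V (m+2)).h t (z (m+2)) := rfl
    refine ih (sh (H V t) z) hz1 (m+1) e1 u1 (by omega) ?_ ?_ ?_ ?_ ?_ ?_
    · exact ⟨he2, by rw [hzz]; exact he3⟩
    · exact ⟨hu2, by rw [hzz]; exact hu3⟩
    · rcases he4 with ⟨q1, q2⟩ | ⟨q1, q2⟩
      · rw [← q2]
        nth_rewrite 1 [← q1]
        rw [cpe, cpe']
        exact hmp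
      · rw [← q1]
        nth_rewrite 1 [← q2]
        rw [cpe, cpe']
        exact hmp.symm
    · rcases hu4 with ⟨q1, q2⟩ | ⟨q1, q2⟩
      · rw [← q2]
        nth_rewrite 1 [← q1]
        rw [cpu, cpu', hnew]
      · rw [← q1]
        nth_rewrite 1 [← q2]
        rw [cpu, cpu', hnew]
    · omega
    · omega

theorem oldcase (V : ℕ → Lev) (rs : ℕ → Bool) (hT : Tow V rs) (N : ℕ) (M : ℕ)
    (hS : ∀ z, Per V N z → ∀ n, M ≤ n → ∀ t, ¬ (V n).S t (z n)) (t : Bool) (z : ℕ → ℕ)
    (hz : Per V N z) (n e u : ℕ) (hn : M + 3 ≤ n) (he : At V n e (z n)) (hu : At V n u (z n))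
    (hold : (V n).p e ≠ (V n).p (e+1)) (hnew : (V n).p u = (V n).p (u+1)) (h0 : (V n).ty (!t) u = 0) : False := by
  obtain ⟨m, rfl⟩ : ∃ m, n = m + 1 := ⟨n-1, by omega⟩
  have I : Inv (m+1) (V m) (V (m+1)) := hT.inv m
  obtain ⟨o1, o2, o3, o4⟩ := oldcase_ladj I.FX e he.1 hold
  rw [I.hLp] at o4
  obtain ⟨hl, hle⟩ := oldcase_lab I (by omega) t e u (z (m+1)) he.1 hu.1 he.2 hu.2 hold hnew h0
  have hsum := tysum V rs hT m ((V (m+1)).p e) o4
  obtain ⟨ot, ol⟩ := I.old e he.1 hold
  have ott := ot t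
  have hlef : (V m).ty t ((V (m+1)).p e) + (V m).ty (!t) ((V (m+1)).p e) ≤ m := by
    cases t
    · simp only [Bool.not_false]
      omega
    · simp only [Bool.not_true]
      omega
  by_cases hr : (V (m+1)).ty t e + 2 ≤ m + 1
  · exact oldcase_a V rs hT t _ z hz.1 (m+1) e u hr he hu hold hnew h0 rfl
  · have h1 : (V m).ty (!t) ((V (m+1)).p e) = 0 := by omega
    have hs1 : 1 ≤ (V m).ty true ((V (m+1)).p e) + (V m).ty false ((V (m+1)).p e) := by
      have : 1 ≤ (V m).ty t ((V (m+1)).p e) := by omega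
      cases t <;> omega
    rw [hl] at ol
    refine hS z hz (m+1) (by omega) t ?_
    rcases he.2 with hx | hx
    · -- x = e
      have hmin : min ((V (m+1)).p e) ((V (m+1)).p e + 1) = (V (m+1)).p e := by omega
      obtain ⟨q1, q2, q3⟩ := I.ends ((V (m+1)).p e) ((V (m+1)).p e + 1) (by omega) (by omega)
        (Or.inl rfl) t (by rw [hmin]; exact ol) (by rw [hmin]; exact hs1)
      have q4 := q3 (by rw [hmin]; exact h1) (ex (V m) ((V m).h t ((V (m+1)).p e)) ((V m).h t ((V (m+1)).p e + 1))) ?_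
      · rw [q2] at q4
        have : ex (V (m+1)) ((V (m+1)).p e) ((V (m+1)).p e + 1) = e := by
          unfold ex
          rw [if_pos (by omega)]
          exact o2
        rw [this] at q4
        rw [← hx]
        exact q4
      · have hy := I.hmemY t ((V (m+1)).p e) (by omega)
        have hlh := I.FY.lohi _ hy
        unfold fib ex
        split_ifs <;> omega
    · have hmin : min ((V (m+1)).p e + 1) ((V (m+1)).p e) = (V (m+1)).p e := by omega
      obtain ⟨q1, q2, q3⟩ := I.ends ((V (m+1)).p e + 1) ((V (m+1)).p e) (by omega) (by omega)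
        (Or.inr rfl) t (by rw [hmin]; exact ol) (by rw [hmin]; exact hs1)
      have q4 := q3 (by rw [hmin]; exact h1) (ex (V m) ((V m).h t ((V (m+1)).p e + 1)) ((V m).h t ((V (m+1)).p e))) ?_
      · rw [q2] at q4
        have : ex (V (m+1)) ((V (m+1)).p e + 1) ((V (m+1)).p e) = e + 1 := by
          unfold ex
          rw [if_neg (by omega)]
          exact o3
        rw [this] at q4
        rw [← hx]
        exact q4
      · have hy := I.hmemY t ((V (m+1)).p e + 1) (by omega)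
        have hlh := I.FY.lohi _ hy
        unfold fib ex
        split_ifs <;> omega














theorem newcase (V : ℕ → Lev) (rs : ℕ → Bool) (hT : Tow V rs) (N : ℕ) (M : ℕ)
    (hS : ∀ z, Per V N z → ∀ n, M ≤ n → ∀ t, ¬ (V n).S t (z n)) (t : Bool) (z : ℕ → ℕ)
    (hz : Per V N z) (n u : ℕ) (hn : M + 5 ≤ n) (hu : At V n u (z n))
    (hnew : (V n).p u = (V n).p (u+1)) (h0 : (V n).ty (!t) u = 0) : False := by
  obtain ⟨m, rfl⟩ : ∃ m, n = m + 1 := ⟨n - 1, by omega⟩
  have hI := hT.inv m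
  have hR := hT.rel m
  have hzp : (V (m+1+1)).p (z (m+1+1)) = z (m+1) := hz.1.2 (m+1)
  have hcov := hR.cover (z (m+1+1)) (hz.1.1 (m+1+1))
  rcases hcov with ⟨t', ht'⟩ | ⟨y', t1, hy', hAd, ht1, hT1, hF1, b, hb, hER⟩
  · exact hS z hz (m+1+1) (by omega) t' ht'
  · rw [hzp] at hAd ht1 hT1 hF1 hb hER
    have haL : z (m+1) ≤ (V (m+1)).L := hz.1.1 (m+1)
    obtain ⟨huL, hua⟩ := hu
    -- the edge e
    have key : ∃ e, e = min (z (m+1)) y' ∧ e < (V (m+1)).L ∧
        ((z (m+1) = e ∧ y' = e + 1) ∨ (z (m+1) = e + 1 ∧ y' = e)) := by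
      rcases hAd with h | h
      · exact ⟨z (m+1), by omega, by omega, Or.inl ⟨rfl, h⟩⟩
      · exact ⟨y', by omega, by omega, Or.inr ⟨h, rfl⟩⟩
    obtain ⟨e, he, heL, hpos⟩ := key
    rw [← he] at ht1 hT1 hF1
    have hte : ∀ s : Bool, 1 ≤ (V (m+1)).ty s e := by
      intro s; cases s
      · exact hF1
      · exact hT1
    have heu : e ≠ u := by
      rintro rfl
      have := hte (!t)
      omega
    have heA : At V (m+1) e (z (m+1)) := ⟨heL, by omega⟩
    by_cases hold : (V (m+1)).p e = (V (m+1)).p (e+1)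
    swap
    · exact oldcase V rs hT N M hS t z hz (m+1) e u (by omega) heA ⟨huL, hua⟩ hold hnew h0
    · have hse := hI.new e heL hold
      have hsu := hI.new u huL hnew
      have hcomb : ((V (m+1)).ty true e ≤ (V (m+1)).ty true u + 1 ∧
          (V (m+1)).ty true u ≤ (V (m+1)).ty true e + 1) ∧
          (V (m+1)).lab e = (V (m+1)).lab u := by
        rcases (show u = e + 1 ∨ e = u + 1 by omega) with h | h
        · subst h
          refine ⟨hI.adjX e huL hold hnew, ?_⟩
          exact hI.turn (by omega) e huL hold hnew ⟨!t, Or.inr h0⟩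
        · subst h
          refine ⟨?_, ?_⟩
          · have := hI.adjX u heL hnew hold
            exact ⟨this.2, this.1⟩
          · exact (hI.turn (by omega) u heL hnew hold ⟨!t, Or.inl h0⟩).symm
      obtain ⟨hadj, hlab⟩ := hcomb
      have hlu : (V (m+1)).lab u = t := by
        have h1 := hI.lab1 u huL (by omega)
        cases hl : (V (m+1)).lab u <;> cases t
        · rfl
        · rw [hl] at h1
          have h0' : (V (m+1)).ty false u = 0 := h0
          omega
        · rw [hl] at h1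
          have h0' : (V (m+1)).ty true u = 0 := h0
          omega
        · rfl
      have ht1t : t1 = t := by rw [ht1, hlab, hlu]
      subst ht1t
      have hte1 : (V (m+1)).ty (!t1) e = 1 := by
        have hA := hte true
        have hB := hte false
        cases t1
        · have h0' : (V (m+1)).ty true u = 0 := h0
          show (V (m+1)).ty true e = 1
          omega
        · have h0' : (V (m+1)).ty false u = 0 := h0
          show (V (m+1)).ty false e = 1
          omega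
      have hne : (V (m+1)).h (!t1) e ≠ (V (m+1)).h (!t1) (e+1) := by
        intro hh
        have := hI.mv0 (!t1) e heL hh
        omega
      have hAd1 : Ad ((V (m+1)).h (!t1) e) ((V (m+1)).h (!t1) (e+1)) := by
        rcases hI.hlip (!t1) e heL with h | h
        · exact absurd h hne
        · exact h
      obtain ⟨hm1, hm2, hm3⟩ := hI.mv1 (!t1) e heL hne
      rw [Bool.not_not] at hm2 hm3
      have hm3' := hm3 ht1.symm
      -- pass to y1, y3
      have hmin : min ((V (m+1)).h (!t1) (z (m+1))) ((V (m+1)).h (!t1) y') =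
          min ((V (m+1)).h (!t1) e) ((V (m+1)).h (!t1) (e+1)) := by
        rcases hpos with ⟨h1, h2⟩ | ⟨h1, h2⟩
        · rw [h1, h2]
        · rw [h1, h2, min_comm]
      have hAd2 : Ad ((V (m+1)).h (!t1) (z (m+1))) ((V (m+1)).h (!t1) y') := by
        rcases hpos with ⟨h1, h2⟩ | ⟨h1, h2⟩
        · rw [h1, h2]; exact hAd1
        · rw [h1, h2]
          rcases hAd1 with h | h
          · exact Or.inr h
          · exact Or.inl h
      have hy1L : (V (m+1)).h (!t1) (z (m+1)) ≤ (V m).L := hI.hmemX _ _ haL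
      have hy3L : (V (m+1)).h (!t1) y' ≤ (V m).L := hI.hmemX _ _ hy'
      have htt := hte t1
      have hends := hI.ends ((V (m+1)).h (!t1) (z (m+1))) ((V (m+1)).h (!t1) y') hy1L hy3L hAd2 t1
        (by rw [hmin]; exact hm3'.symm)
        (by
          rw [hmin]
          rw [hm2] at htt
          cases t1
          · have : 1 ≤ (V m).ty false (min ((V (m+1)).h (!false) e) ((V (m+1)).h (!false) (e+1))) := htt
            omega
          · have : 1 ≤ (V m).ty true (min ((V (m+1)).h (!true) e) ((V (m+1)).h (!true) (e+1))) := htt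
            omega)
      have hS1 := hends.2.2 (by rw [hmin]; omega) b hb
      have hper := per_sh V rs hT N z hz (!t1)
      apply hS (sh (H V (!t1)) z) hper (m+1) (by omega) t1
      show (V (m+1)).S t1 ((V (m+1+1)).h (!t1) (z (m+1+1)))
      rw [hER]
      exact hS1
















theorem noper (V : ℕ → Lev) (rs : ℕ → Bool) (hT : Tow V rs) (z : ℕ → ℕ) (hz : Thr V z)
    (N : ℕ) (hN : 1 ≤ N) (h1 : (sh (H V true))^[N] z = z) (h2 : (sh (H V false))^[N] z = z) : False := by
  have hPer : Per V (2 * N) z := by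
    refine ⟨hz, ?_⟩
    intro t
    rw [two_mul, Function.iterate_add_apply]
    cases t
    · rw [h2, h2]
    · rw [h1, h1]
  obtain ⟨M1, hM1⟩ := safe V rs hT true (2 * N) (by omega)
  obtain ⟨M2, hM2⟩ := safe V rs hT false (2 * N) (by omega)
  have hS : ∀ z, Per V (2 * N) z → ∀ n, max M1 M2 ≤ n → ∀ t, ¬ (V n).S t (z n) := by
    intro z hz n hn t
    cases t
    · exact hM2 z hz.1 (hz.2 _) n (le_trans (le_max_right _ _) hn)
    · exact hM1 z hz.1 (hz.2 _) n (le_trans (le_max_left _ _) hn)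
  set M := max M1 M2 with hM
  obtain ⟨n, k, hn, hk, hnew⟩ : ∃ n k, M + 5 + 2 * N ≤ n ∧ At V n k (z n) ∧
      (V n).p k = (V n).p (k+1) := by
    refine ⟨M + 5 + 2 * N, ?_⟩
    obtain ⟨n', hn'⟩ : ∃ n', M + 5 + 2 * N = n' + 1 := ⟨M + 4 + 2 * N, by omega⟩
    rw [hn']
    have hI := hT.inv n'
    have hzL := hz.1 (n' + 1)
    have hpf := hI.FX.pfib (z (n' + 1)) hzL
    have hyL : (V (n'+1)).p (z (n'+1)) ≤ (V n').L := by
      rw [← hI.hLp]; exact hpf.1
    have hth := hI.thickX _ hyL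
    have hlo := hpf.2.1
    have hhi := hpf.2.2
    set y := (V (n'+1)).p (z (n'+1)) with hy
    have hfib := hI.FX.fibp y hpf.1
    by_cases hc : z (n'+1) < (V (n'+1)).hi y
    · have ha := hfib (z (n'+1) + 1) ⟨by omega, by omega⟩
      refine ⟨z (n'+1), le_refl _, ⟨by omega, Or.inl rfl⟩, ?_⟩
      rw [ha.2]
    · have ha := hfib (z (n'+1) - 1) ⟨by omega, by omega⟩
      refine ⟨z (n'+1) - 1, le_refl _, ⟨by omega, Or.inr (by omega)⟩, ?_⟩
      have e : z (n'+1) - 1 + 1 = z (n'+1) := by omega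
      rw [ha.2, e]
  obtain ⟨t, ht⟩ := smallside V rs hT (2 * N) (by omega) z hPer n k (by omega) hk hnew
  obtain ⟨j, hj⟩ : ∃ j, (V n).ty t k = j := ⟨_, rfl⟩
  obtain ⟨m, hm⟩ : ∃ m, n = m + j := ⟨n - j, by omega⟩
  subst hm
  obtain ⟨k', hk', hp', hty, -⟩ := descend V rs hT t j z hz m k hk (fun _ => hnew) (by omega)
  have hper : ∀ i, Per V (2 * N) ((sh (H V t))^[i] z) := by
    intro i
    induction i with
    | zero => exact hPer
    | succ i ih =>
      rw [Function.iterate_succ_apply']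
      exact per_sh V rs hT (2 * N) _ ih t
  have h0 : (V m).ty (!(!t)) k' = 0 := by
    rw [Bool.not_not]; omega
  exact newcase V rs hT (2 * N) M hS (!t) _ (hper j) m k' (by omega) hk' (hp' (by omega)) h0

end CP
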