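import Pool.Agent.B595.Tow.KDefs

set_option autoImplicit false
namespace CP

theorem exists_tower
    (base_levels : ∃ Y X : Lev, Inv 0 Y X ∧ Int0 0 Y X ∧ 1 ≤ X.L ∧ ∀ t k, k < X.L → X.ty t k = 0)
    (tower_step : ∀ (n : ℕ) (rs : Bool) (Y X : Lev), Inv n Y X → (rs = true → 1 ≤ n) → Int0 n Y X →
      ∃ Z, Inv (n+1) X Z ∧ Rel rs Y X Z) :
    ∃ V rs, Tow V rs ∧ 1 ≤ (V 0).L := by
  classical
  obtain ⟨Y0, X0, hI, hInt, hL, hty⟩ := base_levels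
  choose Z hZ1 hZ2 using tower_step
  have hx : ∀ (b : Bool) (n : ℕ), (b = true → 1 ≤ n + 1) := fun b n _ => Nat.succ_le_succ (Nat.zero_le n)
  have hi0 : ∀ (n : ℕ) (Y X : Lev), Int0 (n+1) Y X := fun n Y X h => absurd h (Nat.succ_ne_zero n)
  let rs : ℕ → Bool := fun n => decide (∃ k, n = k*(k+1)/2)
  let st : (n : ℕ) → {p : Lev × Lev // Inv (n+1) p.1 p.2} := fun n =>
    Nat.rec (motive := fun n => {p : Lev × Lev // Inv (n+1) p.1 p.2})
      ⟨(X0, Z 0 false Y0 X0 hI (by simp) hInt), hZ1 0 false Y0 X0 hI (by simp) hInt⟩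
      (fun n s => ⟨(s.1.2, Z (n+1) (rs n) s.1.1 s.1.2 s.2 (hx _ n) (hi0 n _ _)),
        hZ1 (n+1) (rs n) s.1.1 s.1.2 s.2 (hx _ n) (hi0 n _ _)⟩) n
  have tri : ∀ k : ℕ, 2 * (k*(k+1)/2) = k*(k+1) := fun k =>
    Nat.mul_div_cancel' (Nat.even_mul_succ_self k).two_dvd
  refine ⟨fun n => (st n).1.1, rs, ⟨?_, ?_, ?_, ?_⟩, hL⟩
  · exact hty
  · intro n
    exact (st n).2
  · intro n
    exact hZ2 (n+1) (rs n) (st n).1.1 (st n).1.2 (st n).2 (hx _ n) (hi0 n _ _)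
  · intro N hN
    obtain ⟨M, rfl⟩ : ∃ M, N = M + 1 := ⟨N - 1, by omega⟩
    have e1 := tri M
    have e2 := tri (M+1)
    refine ⟨M*(M+1)/2, ?_, ?_, ?_⟩
    · exact decide_eq_true ⟨M, rfl⟩
    · refine decide_eq_true ⟨M+1, ?_⟩
      nlinarith
    · intro j hj0 hjN
      refine decide_eq_false ?_
      rintro ⟨k, hk⟩
      have e3 := tri k
      rw [← hk] at e3
      rcases Nat.lt_or_ge M k with h | h
      · have h' : M + 1 ≤ k := h
        nlinarith [Nat.mul_le_mul h' (Nat.succ_le_succ h')]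
      · nlinarith [Nat.mul_le_mul h (Nat.succ_le_succ h)]

end CP
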