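import Pool.Agent.B595.Tow.G3

set_option autoImplicit false
namespace CP

theorem f_basic_inG (n : ℕ) (rs : Bool) (Y X : Lev) (ℓ : ℕ → ℕ) (v : ℕ → ℕ → Bool → ℕ) (lb : ℕ → ℕ → Bool)
    (ρ : ℕ → Bool → Fin 3 → ℕ → ℕ) (ρE : ℕ → ℕ → ℕ → ℕ) (hC : Ctx n rs Y X ℓ v lb ρ ρE)
    (a k : ℕ) (ha : a ≤ X.L) (hk : k ≤ ℓ a) : InG X a (v a k) := by
  have hL := hC.loc a ha
  rcases Nat.lt_or_ge k (ℓ a) with h | h
  · exact (st_move n rs Y X hC.inv a ha _ _ _ (hL.step k h)).1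
  · have h2 := hL.two
    have h3 := (st_move n rs Y X hC.inv a ha _ _ _ (hL.step (k - 1) (by omega))).2.1
    rwa [Nat.sub_add_cancel (by omega)] at h3

theorem f_basic (n : ℕ) (rs : Bool) (Y X : Lev) (ℓ : ℕ → ℕ) (v : ℕ → ℕ → Bool → ℕ) (lb : ℕ → ℕ → Bool)
    (ρ : ℕ → Bool → Fin 3 → ℕ → ℕ) (ρE : ℕ → ℕ → ℕ → ℕ) (hC : Ctx n rs Y X ℓ v lb ρ ρE) :
    (mkZ rs Y X ℓ v lb ρ ρE).Lp = X.L ∧ (∀ y, y ≤ X.L → (mkZ rs Y X ℓ v lb ρ ρE).lo y + 2 ≤ (mkZ rs Y X ℓ v lb ρ ρE).hi y) ∧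
    (∀ t x, x ≤ (mkZ rs Y X ℓ v lb ρ ρE).L → (mkZ rs Y X ℓ v lb ρ ρE).h t x ≤ X.L) ∧
    (∀ t x, x ≤ (mkZ rs Y X ℓ v lb ρ ρE).L → X.p ((mkZ rs Y X ℓ v lb ρ ρE).h t x) = X.h t ((mkZ rs Y X ℓ v lb ρ ρE).p x)) ∧
    (∀ t x, x ≤ (mkZ rs Y X ℓ v lb ρ ρE).L → X.h t ((mkZ rs Y X ℓ v lb ρ ρE).h (!t) x) = X.h (!t) ((mkZ rs Y X ℓ v lb ρ ρE).h t x)) ∧
    (∀ t k, k < (mkZ rs Y X ℓ v lb ρ ρE).L → (mkZ rs Y X ℓ v lb ρ ρE).h t k = (mkZ rs Y X ℓ v lb ρ ρE).h t (k+1) ∨ Ad ((mkZ rs Y X ℓ v lb ρ ρE).h t k) ((mkZ rs Y X ℓ v lb ρ ρE).h t (k+1))) := by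
  have hI := hC.inv
  have hF := g_fibs n rs Y X ℓ v lb ρ ρE hC
  have hpos : ∀ x, x ≤ (mkZ rs Y X ℓ v lb ρ ρE).L → (mkZ rs Y X ℓ v lb ρ ρE).p x ≤ X.L ∧
      InG X ((mkZ rs Y X ℓ v lb ρ ρE).p x) (fun t => (mkZ rs Y X ℓ v lb ρ ρE).h t x) := by
    intro x hx
    obtain ⟨h1, h2⟩ := hF.pfib x hx
    have h1' : (mkZ rs Y X ℓ v lb ρ ρE).p x ≤ X.L := h1
    refine ⟨h1', ?_⟩
    have h3 : los ℓ ((mkZ rs Y X ℓ v lb ρ ρE).p x) ≤ x := h2.1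
    have h4 : x ≤ los ℓ ((mkZ rs Y X ℓ v lb ρ ρE).p x) + ℓ ((mkZ rs Y X ℓ v lb ρ ρE).p x) := h2.2
    exact f_basic_inG n rs Y X ℓ v lb ρ ρE hC _ (x - los ℓ ((mkZ rs Y X ℓ v lb ρ ρE).p x)) h1'
      (by omega)
  have hfp : ∀ x, x ≤ (mkZ rs Y X ℓ v lb ρ ρE).L → ∀ t,
      (mkZ rs Y X ℓ v lb ρ ρE).h t x ≤ X.L ∧
      X.p ((mkZ rs Y X ℓ v lb ρ ρE).h t x) = X.h t ((mkZ rs Y X ℓ v lb ρ ρE).p x) := by
    intro x hx t
    obtain ⟨h1, h2⟩ := hpos x hx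
    exact hI.FX.fibp _ (by rw [hI.hLp]; exact hI.hmemX t _ h1) _ (h2 t).1
  refine ⟨rfl, ?_, ?_, ?_, ?_, ?_⟩
  · intro y hy
    show los ℓ y + 2 ≤ los ℓ y + ℓ y
    have := (hC.loc y hy).two
    omega
  · intro t x hx
    exact (hfp x hx t).1
  · intro t x hx
    exact (hfp x hx t).2
  · intro t x hx
    exact ((hpos x hx).2 t).2.symm
  · intro t k hk
    rcases g_edge n rs Y X ℓ v lb ρ ρE hC k hk with ⟨a, j, ha, hj, hk', _, _, _⟩ |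
      ⟨a, ha, _, _, _, _, _, _, h7, h8⟩
    · have e1 := (g_at n rs Y X ℓ v lb ρ ρE hC a ha j hj.le).2.2 t
      have e2 := (g_at n rs Y X ℓ v lb ρ ρE hC a ha (j + 1) hj).2.2 t
      rw [← Nat.add_assoc, ← hk'] at e2
      rw [← hk'] at e1
      rw [e1, e2]
      have hst := st_move n rs Y X hI a ha (lb a j) _ _ ((hC.loc a ha).step j hj)
      obtain ⟨_, _, h3, _, _, _, h4⟩ := hst
      by_cases ht : t = lb a j
      · right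
        rw [ht]
        exact h3
      · have ht' : t = !(lb a j) := by
          cases t <;> cases hlb : lb a j <;> simp_all
        rw [ht']
        rcases h4 with h5 | h5
        · exact Or.inl h5.1
        · exact Or.inr h5.1
    · rw [h7 t, h8 t]
      have hb := bridge n rs Y X hI hC.hrs a ha t
      by_cases hty : X.ty t a = 0
      · exact Or.inl (hb.1 hty)
      · right
        obtain ⟨b1, b2⟩ := hb.2 (by omega)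
        rw [b1, b2]
        have had : Ad (X.h t a) (X.h t (a + 1)) := by
          rcases hI.hlip t a ha with h9 | h9
          · exact absurd (hI.mv0 t a ha h9) hty
          · exact h9
        exact (lift_edge n Y X hI _ _ (hI.hmemX t a ha.le) (hI.hmemX t (a + 1) ha) had).2.2.1

end CP
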