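import Pool.Agent.B595.Tow.G3

set_option autoImplicit false
namespace CP

theorem f_types (n : ℕ) (rs : Bool) (Y X : Lev) (ℓ : ℕ → ℕ) (v : ℕ → ℕ → Bool → ℕ) (lb : ℕ → ℕ → Bool)
    (ρ : ℕ → Bool → Fin 3 → ℕ → ℕ) (ρE : ℕ → ℕ → ℕ → ℕ) (hC : Ctx n rs Y X ℓ v lb ρ ρE) :
    (∀ k, k < (mkZ rs Y X ℓ v lb ρ ρE).L → (mkZ rs Y X ℓ v lb ρ ρE).p k = (mkZ rs Y X ℓ v lb ρ ρE).p (k+1) →
      (mkZ rs Y X ℓ v lb ρ ρE).ty true k + (mkZ rs Y X ℓ v lb ρ ρE).ty false k = n + 1) ∧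
    (∀ t k, k < (mkZ rs Y X ℓ v lb ρ ρE).L → (mkZ rs Y X ℓ v lb ρ ρE).h t k = (mkZ rs Y X ℓ v lb ρ ρE).h t (k+1) → (mkZ rs Y X ℓ v lb ρ ρE).ty t k = 0) ∧
    (∀ t k, k < (mkZ rs Y X ℓ v lb ρ ρE).L → (mkZ rs Y X ℓ v lb ρ ρE).h t k ≠ (mkZ rs Y X ℓ v lb ρ ρE).h t (k+1) →
      (mkZ rs Y X ℓ v lb ρ ρE).ty t k = X.ty t (min ((mkZ rs Y X ℓ v lb ρ ρE).h t k) ((mkZ rs Y X ℓ v lb ρ ρE).h t (k+1))) + 1 ∧
      (mkZ rs Y X ℓ v lb ρ ρE).ty (!t) k = X.ty (!t) (min ((mkZ rs Y X ℓ v lb ρ ρE).h t k) ((mkZ rs Y X ℓ v lb ρ ρE).h t (k+1))) ∧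
      ((mkZ rs Y X ℓ v lb ρ ρE).lab k = !t → X.lab (min ((mkZ rs Y X ℓ v lb ρ ρE).h t k) ((mkZ rs Y X ℓ v lb ρ ρE).h t (k+1))) = !t)) ∧
    (∀ k, k < (mkZ rs Y X ℓ v lb ρ ρE).L → 1 ≤ (mkZ rs Y X ℓ v lb ρ ρE).ty true k + (mkZ rs Y X ℓ v lb ρ ρE).ty false k →
      1 ≤ (mkZ rs Y X ℓ v lb ρ ρE).ty ((mkZ rs Y X ℓ v lb ρ ρE).lab k) k) := by
  have hI := hC.inv
  have hedge := g_edge n rs Y X ℓ v lb ρ ρE hC
  have hat := g_at n rs Y X ℓ v lb ρ ρE hC
  have hnew := fun a j ha hj => g_new n rs Y X ℓ v lb ρ ρE hC a j ha hj (lb a j) rfl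
  have hst : ∀ a j, a ≤ X.L → j < ℓ a → St rs X a (lb a j) (v a j) (v a (j+1)) :=
    fun a j ha hj => (hC.loc a ha).step j hj
  have hbr := bridge n rs Y X hI hC.hrs
  generalize mkZ rs Y X ℓ v lb ρ ρE = Z at *
  have hlift : ∀ a t, a < X.L → 1 ≤ X.ty t a →
      X.h t a ≠ X.h t (a+1) ∧
      Ad (ex X (X.h t a) (X.h t (a+1))) (ex X (X.h t (a+1)) (X.h t a)) ∧
      (∀ t', X.ty t' (min (ex X (X.h t a) (X.h t (a+1))) (ex X (X.h t (a+1)) (X.h t a)))
        = Y.ty t' (min (X.h t a) (X.h t (a+1)))) ∧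
      X.lab (min (ex X (X.h t a) (X.h t (a+1))) (ex X (X.h t (a+1)) (X.h t a)))
        = Y.lab (min (X.h t a) (X.h t (a+1))) := by
    intro a t ha h1
    have hne : X.h t a ≠ X.h t (a+1) := by
      intro he
      have := hI.mv0 t a ha he
      omega
    have hAd : Ad (X.h t a) (X.h t (a+1)) := (hI.hlip t a ha).resolve_left hne
    have hl := lift_edge n Y X hI (X.h t a) (X.h t (a+1)) (hI.hmemX t a ha.le)
      (hI.hmemX t (a+1) ha) hAd
    exact ⟨hne, hl.2.2.1, hl.2.2.2.2.2.1, hl.2.2.2.2.2.2⟩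
  have hAdne : ∀ x y : ℕ, Ad x y → x ≠ y := by
    intro x y h
    unfold Ad at h
    omega
  refine ⟨?_, ?_, ?_, ?_⟩
  · intro k hk hp
    rcases hedge k hk with ⟨a, j, ha, hj, hka, hpk, hpk1, hlab⟩ |
      ⟨a, ha, hka, hka1, hpk, hpk1, hty, hlab, hh, hh1⟩
    · have hm := st_move n rs Y X hI a ha (lb a j) (v a j) (v a (j+1)) (hst a j ha hj)
      obtain ⟨_, _, hAd, hmL, hp1, hp2, _⟩ := hm
      have hg := hnew a j ha hj
      rw [← hka] at hg
      have hpm : X.p (min (v a j (lb a j)) (v a (j+1) (lb a j)))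
          = X.p (min (v a j (lb a j)) (v a (j+1) (lb a j)) + 1) := by
        rcases hAd with h | h
        · rw [h, min_eq_left (by omega), hp1, ← h, hp2]
        · rw [h, min_eq_right (by omega), hp2, ← h, hp1]
      have hn := hI.new _ hmL hpm
      obtain ⟨hg1, hg2⟩ := hg
      cases hlb : lb a j
      · rw [hlb] at hg1 hg2 hn
        simp only [Bool.not_false] at hg2
        omega
      · rw [hlb] at hg1 hg2 hn
        simp only [Bool.not_true] at hg2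
        omega
    · rw [hpk, hpk1] at hp
      omega
  · intro t k hk he
    rcases hedge k hk with ⟨a, j, ha, hj, hka, hpk, hpk1, hlab⟩ |
      ⟨a, ha, hka, hka1, hpk, hpk1, hty, hlab, hh, hh1⟩
    · have hm := st_move n rs Y X hI a ha (lb a j) (v a j) (v a (j+1)) (hst a j ha hj)
      obtain ⟨_, _, hAd, hmL, hp1, hp2, hor⟩ := hm
      have hg := hnew a j ha hj
      have h1 := (hat a ha j hj.le).2.2 t
      have h2 := (hat a ha (j+1) hj).2.2 t
      rw [← add_assoc, ← hka] at h2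
      rw [← hka] at hg h1
      rw [h1, h2] at he
      have hto : t = lb a j ∨ t = !(lb a j) := by
        cases t <;> cases lb a j <;> simp
      rcases hto with rfl | rfl
      · exact absurd he (hAdne _ _ hAd)
      · rcases hor with ⟨_, h0⟩ | ⟨hA, _⟩
        · rw [hg.2, h0]
        · exact absurd he (hAdne _ _ hA)
    · rw [hka] at he
      rw [← hka, hh t, hh1 t] at he
      rw [hty t]
      by_contra h0
      have h1 : 1 ≤ X.ty t a := by omega
      obtain ⟨hb1, hb2⟩ := (hbr a ha t).2 h1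
      rw [hb1, hb2] at he
      exact hAdne _ _ (hlift a t ha h1).2.1 he
  · intro t k hk he
    rcases hedge k hk with ⟨a, j, ha, hj, hka, hpk, hpk1, hlab⟩ |
      ⟨a, ha, hka, hka1, hpk, hpk1, hty, hlab, hh, hh1⟩
    · have hm := st_move n rs Y X hI a ha (lb a j) (v a j) (v a (j+1)) (hst a j ha hj)
      obtain ⟨_, _, hAd, hmL, hp1, hp2, hor⟩ := hm
      have hg := hnew a j ha hj
      have h1 := (hat a ha j hj.le).2.2 t
      have h2 := (hat a ha (j+1) hj).2.2 t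
      rw [← add_assoc, ← hka] at h2
      rw [← hka] at hg h1
      rw [h1, h2] at he ⊢
      have hto : t = lb a j ∨ t = !(lb a j) := by
        cases t <;> cases lb a j <;> simp
      rcases hto with rfl | rfl
      · refine ⟨hg.1, hg.2, ?_⟩
        intro hl
        rw [hlab] at hl
        cases hlb : lb a j <;> rw [hlb] at hl <;> simp at hl
      · rcases hor with ⟨hE, _⟩ | ⟨_, _, _, hlabx, ht1, ht2⟩
        · exact absurd hE he
        · rw [Bool.not_not]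
          refine ⟨?_, ?_, fun _ => hlabx⟩
          · rw [hg.2, ht1]
          · rw [hg.1, ht2]
    · rw [hh t, hh1 t] at he ⊢
      have h1 : 1 ≤ X.ty t a := by
        by_contra h0
        have h00 : X.ty t a = 0 := by omega
        exact he ((hbr a ha t).1 h00)
      obtain ⟨hb1, hb2⟩ := (hbr a ha t).2 h1
      obtain ⟨hne, _, hT, hL⟩ := hlift a t ha h1
      have hmv := hI.mv1 t a ha hne
      rw [hb1, hb2, hT t, hT (!t), hL, hty t, hty (!t), hlab]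
      exact hmv
  · intro k hk hs
    rcases hedge k hk with ⟨a, j, ha, hj, hka, hpk, hpk1, hlab⟩ |
      ⟨a, ha, hka, hka1, hpk, hpk1, hty, hlab, hh, hh1⟩
    · have hg := hnew a j ha hj
      rw [← hka] at hg
      rw [hlab, hg.1]
      omega
    · rw [hty, hty] at hs
      rw [hlab, hty]
      exact hI.lab1 a ha hs

end CP
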