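import Pool.Agent.B595.Tow.G3

set_option autoImplicit false
namespace CP

theorem f_adj_ad3 (L : ℕ) (p F : ℕ → ℕ)
    (H : ∀ k, k + 1 < L → p k = p (k+1) → p (k+1) = p (k+2) → F k ≤ F (k+1) + 1 ∧ F (k+1) ≤ F k + 1)
    (u c u2 : ℕ) (h1 : Ad u c) (h2 : Ad c u2) (hu : u ≤ L) (hc : c ≤ L) (hu2 : u2 ≤ L)
    (p1 : p u = p c) (p2 : p u2 = p c) :
    F (min u c) ≤ F (min c u2) + 1 ∧ F (min c u2) ≤ F (min u c) + 1 := by
  rcases h1 with h1 | h1 <;> rcases h2 with h2 | h2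
  · subst h1
    subst h2
    rw [min_eq_left (by omega), min_eq_left (by omega)]
    exact H u (by omega) p1 p2.symm
  · obtain rfl : u2 = u := by omega
    rw [min_comm c u2]
    constructor <;> omega
  · obtain rfl : u2 = u := by omega
    rw [min_comm c u2]
    constructor <;> omega
  · subst h2
    subst h1
    rw [min_eq_right (by omega), min_eq_right (by omega)]
    have := H u2 (by omega) p2 p1.symm
    exact ⟨this.2, this.1⟩

theorem f_adj_symm {a b : ℕ} (h : Ad a b) : Ad b a := by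
  rcases h with h | h
  · exact Or.inr h
  · exact Or.inl h

theorem f_adj_new (n : ℕ) (Y X : Lev) (hI : Inv n Y X) (x y : ℕ) (h : Ad x y) (hm : min x y < X.L)
    (hp : X.p x = X.p y) : X.ty true (min x y) + X.ty false (min x y) = n := by
  rcases h with h | h
  · subst h
    rw [min_eq_left (by omega)] at hm ⊢
    exact hI.new x hm hp
  · subst h
    rw [min_eq_right (by omega)] at hm ⊢
    exact hI.new y hm hp.symm

theorem f_adj_mv (n : ℕ) (Y X : Lev) (hI : Inv n Y X) (s : Bool) (x y : ℕ) (h : Ad x y)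
    (hm : min x y < X.L) (hne : X.h s x ≠ X.h s y) :
    X.ty s (min x y) = Y.ty s (min (X.h s x) (X.h s y)) + 1 ∧
    X.ty (!s) (min x y) = Y.ty (!s) (min (X.h s x) (X.h s y)) ∧ Ad (X.h s x) (X.h s y) := by
  rcases h with h | h
  · subst h
    rw [min_eq_left (by omega : x ≤ x + 1)] at hm ⊢
    have := hI.mv1 s x hm hne
    exact ⟨this.1, this.2.1, (hI.hlip s x hm).resolve_left hne⟩
  · subst h
    rw [min_eq_right (by omega : y ≤ y + 1)] at hm ⊢
    have := hI.mv1 s y hm hne.symm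
    rw [min_comm (X.h s (y+1)) (X.h s y)]
    exact ⟨this.1, this.2.1, f_adj_symm ((hI.hlip s y hm).resolve_left hne.symm)⟩

theorem f_adj_core (n : ℕ) (rs : Bool) (Y X : Lev) (ℓ : ℕ → ℕ) (v : ℕ → ℕ → Bool → ℕ) (lb : ℕ → ℕ → Bool)
    (ρ : ℕ → Bool → Fin 3 → ℕ → ℕ) (ρE : ℕ → ℕ → ℕ → ℕ) (hC : Ctx n rs Y X ℓ v lb ρ ρE)
    (a j : ℕ) (ha : a ≤ X.L) (hj : j + 1 < ℓ a) :
    ((mkZ rs Y X ℓ v lb ρ ρE).ty true (los ℓ a + j) ≤ (mkZ rs Y X ℓ v lb ρ ρE).ty true (los ℓ a + (j+1)) + 1 ∧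
     (mkZ rs Y X ℓ v lb ρ ρE).ty true (los ℓ a + (j+1)) ≤ (mkZ rs Y X ℓ v lb ρ ρE).ty true (los ℓ a + j) + 1) ∧
    (1 ≤ n → lb a j ≠ lb a (j+1) → ∀ t, 1 ≤ (mkZ rs Y X ℓ v lb ρ ρE).ty t (los ℓ a + j) ∧
      1 ≤ (mkZ rs Y X ℓ v lb ρ ρE).ty t (los ℓ a + (j+1))) := by
  have hI := hC.inv
  have hL := hC.loc a ha
  have s1 := hL.step j (by omega)
  have s2 := hL.step (j+1) hj
  have m1 := st_move n rs Y X hC.inv a ha _ _ _ s1
  have m2 := st_move n rs Y X hC.inv a ha _ _ _ s2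
  have g1 := g_new n rs Y X ℓ v lb ρ ρE hC a j ha (by omega) (lb a j) rfl
  have g2 := g_new n rs Y X ℓ v lb ρ ρE hC a (j+1) ha hj (lb a (j+1)) rfl
  have hturn := hL.turn j hj
  generalize (mkZ rs Y X ℓ v lb ρ ρE).ty = Zty at g1 g2 ⊢
  generalize v a j = w at s1 m1 g1
  generalize v a (j+1) = w1 at s1 s2 m1 m2 g1 g2 hturn
  generalize v a (j+1+1) = w2 at s2 m2 g2
  generalize los ℓ a + j = k at g1 ⊢
  generalize los ℓ a + (j+1) = k1 at g2 ⊢
  generalize lb a j = t at s1 m1 g1 hturn ⊢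
  generalize lb a (j+1) = t' at s2 m2 g2 hturn ⊢
  obtain ⟨ig0, ig1, ad1, mn1, pw, pw1, alt1⟩ := m1
  obtain ⟨ig1', ig2, ad2, mn2, pw1', pw2, alt2⟩ := m2
  obtain ⟨g11, g12⟩ := g1
  obtain ⟨g21, g22⟩ := g2
  by_cases htt : t = t'
  · subst htt
    refine ⟨?_, fun _ h => absurd rfl h⟩
    have hle0 : w t ≤ X.L := by rcases ad1 with h | h <;> omega
    have hle1 : w1 t ≤ X.L := by rcases ad1 with h | h <;> omega
    have hle2 : w2 t ≤ X.L := by rcases ad2 with h | h <;> omega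
    have A := f_adj_ad3 X.L X.p (X.ty true) hI.adjX (w t) (w1 t) (w2 t) ad1 ad2 hle0 hle1 hle2
      (pw.trans pw1.symm) (pw2.trans pw1.symm)
    cases t
    · simp only [Bool.not_false] at g12 g22
      rw [g12, g22]
      exact A
    · rw [g11, g21]
      constructor <;> omega
  · have hJ : JJ n Y X a w1 := hturn.resolve_left htt
    obtain rfl : t' = !t := by cases t <;> cases t' <;> simp_all
    rcases Nat.eq_zero_or_pos n with hn | hn
    · subst hn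
      have n1 := f_adj_new 0 Y X hI _ _ ad1 mn1 (pw.trans pw1.symm)
      have n2 := f_adj_new 0 Y X hI _ _ ad2 mn2 (pw1'.trans pw2.symm)
      refine ⟨?_, fun h => absurd h (by omega)⟩
      cases t
      · simp only [Bool.not_false, Bool.not_true] at g11 g12 g21 g22 n1 n2
        rw [g12, g21]
        constructor <;> omega
      · simp only [Bool.not_false, Bool.not_true] at g11 g12 g21 g22 n1 n2
        rw [g11, g22]
        constructor <;> omega
    · -- matched steps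
      have hle0 : w t ≤ X.L := by rcases ad1 with h | h <;> omega
      have hle1 : w1 t ≤ X.L := by rcases ad1 with h | h <;> omega
      have hle1' : w1 (!t) ≤ X.L := by rcases ad2 with h | h <;> omega
      have hle2 : w2 (!t) ≤ X.L := by rcases ad2 with h | h <;> omega
      have ne1 : X.h (!t) (w t) ≠ X.h (!t) (w1 t) := by
        obtain ⟨r, hAl, b, b', hb, hb', hbb, hw1, hw2⟩ := s2
        have hsec := al_sec n rs Y X hI a ha (!t) r hAl
        rw [Bool.not_not] at hsec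
        have := matched n rs Y X hI hn a ha t r hsec b hb (by rw [← hw1]; exact hJ) (w t)
          (by rw [← hw1]; exact f_adj_symm ad1)
        rw [← hw1] at this
        exact this.2
      have ne2 : X.h t (w2 (!t)) ≠ X.h t (w1 (!t)) := by
        obtain ⟨r, hAl, b, b', hb, hb', hbb, hw1, hw2⟩ := s1
        have hsec := al_sec n rs Y X hI a ha t r hAl
        have := matched n rs Y X hI hn a ha (!t) r (by rw [Bool.not_not]; exact hsec) b'
          (by rw [Bool.not_not]; exact hb') (by rw [Bool.not_not, ← hw2]; exact hJ) (w2 (!t))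
          (by rw [Bool.not_not, ← hw2]; exact ad2)
        rw [Bool.not_not, ← hw2] at this
        exact this.2
      obtain ⟨a1, a2, a3⟩ := f_adj_mv n Y X hI (!t) (w t) (w1 t) ad1 mn1 ne1
      obtain ⟨b1, b2, b3⟩ := f_adj_mv n Y X hI t (w1 (!t)) (w2 (!t)) ad2 mn2 ne2.symm
      rw [Bool.not_not] at a2
      have hcc : X.h (!t) (w1 t) = X.h t (w1 (!t)) := (ig1 t).2
      rw [← hcc] at b1 b2 b3
      have hp0 : Y.p (X.h (!t) (w t)) = Y.p (X.h (!t) (w1 t)) := by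
        rw [hI.com_p (!t) _ hle0, hI.com_p (!t) _ hle1, pw, pw1]
      have hp2 : Y.p (X.h t (w2 (!t))) = Y.p (X.h (!t) (w1 t)) := by
        rw [hcc, hI.com_p t _ hle2, hI.com_p t _ hle1', pw2, pw1']
      have A := f_adj_ad3 Y.L Y.p (Y.ty true) hI.adjY _ _ _ a3 b3
        (hI.hmemX (!t) _ hle0) (hI.hmemX (!t) _ hle1) (hI.hmemX t _ hle2) hp0 hp2
      rw [Bool.not_not] at g22
      rw [a2] at g11
      rw [a1] at g12
      rw [b2] at g21
      rw [b1] at g22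
      refine ⟨?_, fun _ _ s => ?_⟩
      · cases t
        · simp only [Bool.not_false, Bool.not_true] at g11 g12 g21 g22 A
          rw [g12, g21]
          constructor <;> omega
        · simp only [Bool.not_false, Bool.not_true] at g11 g12 g21 g22 A
          rw [g11, g22]
          constructor <;> omega
      · by_cases hs : s = t
        · subst hs
          rw [g11, g22]
          constructor <;> omega
        · obtain rfl : s = !t := by cases t <;> cases s <;> simp_all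
          rw [g12, g21]
          constructor <;> omega

theorem f_adj (n : ℕ) (rs : Bool) (Y X : Lev) (ℓ : ℕ → ℕ) (v : ℕ → ℕ → Bool → ℕ) (lb : ℕ → ℕ → Bool)
    (ρ : ℕ → Bool → Fin 3 → ℕ → ℕ) (ρE : ℕ → ℕ → ℕ → ℕ) (hC : Ctx n rs Y X ℓ v lb ρ ρE) :
    (∀ k, k + 1 < (mkZ rs Y X ℓ v lb ρ ρE).L → (mkZ rs Y X ℓ v lb ρ ρE).p k = (mkZ rs Y X ℓ v lb ρ ρE).p (k+1) → (mkZ rs Y X ℓ v lb ρ ρE).p (k+1) = (mkZ rs Y X ℓ v lb ρ ρE).p (k+2) →
      (mkZ rs Y X ℓ v lb ρ ρE).ty true k ≤ (mkZ rs Y X ℓ v lb ρ ρE).ty true (k+1) + 1 ∧ (mkZ rs Y X ℓ v lb ρ ρE).ty true (k+1) ≤ (mkZ rs Y X ℓ v lb ρ ρE).ty true k + 1) ∧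
    (2 ≤ n + 1 → ∀ k, k + 1 < (mkZ rs Y X ℓ v lb ρ ρE).L → (mkZ rs Y X ℓ v lb ρ ρE).p k = (mkZ rs Y X ℓ v lb ρ ρE).p (k+1) → (mkZ rs Y X ℓ v lb ρ ρE).p (k+1) = (mkZ rs Y X ℓ v lb ρ ρE).p (k+2) →
      (∃ t, (mkZ rs Y X ℓ v lb ρ ρE).ty t k = 0 ∨ (mkZ rs Y X ℓ v lb ρ ρE).ty t (k+1) = 0) → (mkZ rs Y X ℓ v lb ρ ρE).lab k = (mkZ rs Y X ℓ v lb ρ ρE).lab (k+1)) := by
  have key : ∀ k, k + 1 < (mkZ rs Y X ℓ v lb ρ ρE).L →
      (mkZ rs Y X ℓ v lb ρ ρE).p k = (mkZ rs Y X ℓ v lb ρ ρE).p (k+1) →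
      (mkZ rs Y X ℓ v lb ρ ρE).p (k+1) = (mkZ rs Y X ℓ v lb ρ ρE).p (k+2) →
      ∃ a j, a ≤ X.L ∧ j + 1 < ℓ a ∧ k = los ℓ a + j ∧ k + 1 = los ℓ a + (j+1) ∧
        (mkZ rs Y X ℓ v lb ρ ρE).lab k = lb a j ∧ (mkZ rs Y X ℓ v lb ρ ρE).lab (k+1) = lb a (j+1) := by
    intro k hk h1 h2
    rcases g_edge n rs Y X ℓ v lb ρ ρE hC k (by omega) with
      ⟨a, j, ha, hj, hkj, p1, p2, l1⟩ | ⟨a, ha, hk1, hk2, p1, p2, _⟩
    · rcases g_edge n rs Y X ℓ v lb ρ ρE hC (k+1) hk with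
        ⟨a', j', ha', hj', hkj', p1', p2', l1'⟩ | ⟨a', ha', hk1', hk2', p1', p2', _⟩
      · obtain rfl : a = a' := p2.symm.trans p1'
        obtain rfl : j' = j + 1 := by omega
        exact ⟨a, j, ha, hj', hkj, hkj', l1, l1'⟩
      · exfalso
        have e : (mkZ rs Y X ℓ v lb ρ ρE).p (k+2) = a' + 1 := p2'
        rw [p1', e] at h2
        omega
    · exfalso
      rw [p1, p2] at h1
      omega
  refine ⟨fun k hk h1 h2 => ?_, fun hn k hk h1 h2 hex => ?_⟩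
  · obtain ⟨a, j, ha, hj, hkj, hkj', l1, l2⟩ := key k hk h1 h2
    have := (f_adj_core n rs Y X ℓ v lb ρ ρE hC a j ha hj).1
    rw [← hkj', ← hkj] at this
    exact this
  · obtain ⟨a, j, ha, hj, hkj, hkj', l1, l2⟩ := key k hk h1 h2
    by_contra hne
    rw [l1, l2] at hne
    have := (f_adj_core n rs Y X ℓ v lb ρ ρE hC a j ha hj).2 (by omega) hne
    rw [← hkj', ← hkj] at this
    obtain ⟨t, ht⟩ := hex
    have := this t
    omega

end CP
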