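import Pool.Agent.B595.Tow.G3

set_option autoImplicit false
namespace CP

theorem f_oldnew_lab (n : ℕ) (rs : Bool) (Y X : Lev) (hI : Inv n Y X) (a : ℕ) (ha : a ≤ X.L) (ℓ : ℕ)
    (v : ℕ → Bool → ℕ) (lb : ℕ → Bool) (ρ : Bool → Fin 3 → ℕ → ℕ) (ρE : ℕ → ℕ → ℕ)
    (hl : Loc n rs Y X a ℓ v lb ρ ρE) (a' : ℕ) (ha' : a' ≤ X.L) (had : Ad a a')
    (hty : 1 ≤ X.ty true (min a a') + X.ty false (min a a')) :
    lb (if a < a' then ℓ - 1 else 0) = X.lab (min a a') := by
  obtain ⟨t, ht⟩ : ∃ t, t = X.lab (min a a') := ⟨_, rfl⟩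
  have hx := hl.endx a' ha' had hty t ht
  have hyL : X.h t a ≤ Y.L := hI.hmemX t a ha
  have thick := hI.thickX _ hyL
  obtain ⟨b, hb, hb1, hexb⟩ : ∃ b, fib X (X.h t a) b ∧ fib X (X.h t a) (b+1) ∧
      (ex X (X.h t a) (X.h t a') = b ∨ ex X (X.h t a) (X.h t a') = b + 1) := by
    unfold ex fib
    split_ifs with hlt
    · refine ⟨X.hi (X.h t a) - 1, ⟨by omega, by omega⟩, ⟨by omega, by omega⟩, Or.inr (by omega)⟩
    · exact ⟨X.lo (X.h t a), ⟨by omega, by omega⟩, ⟨by omega, by omega⟩, Or.inl rfl⟩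
  have A := hl.endA a' ha' had hty t ht b hb hb1
  have r1 := (hl.endr a' ha' had hty t ht b hb).1
  have r2 := (hl.endr a' ha' had hty t ht (b+1) hb1).1
  have two := hl.two
  rw [← ht, ← A.2]
  have A1 := A.1
  unfold Ad at A1
  congr 1
  rcases hexb with h | h
  · rw [h] at hx
    split_ifs at hx ⊢ with hlt
    · omega
    · omega
  · rw [h] at hx
    split_ifs at hx ⊢ with hlt
    · omega
    · omega

theorem f_oldnew_hub (n : ℕ) (rs : Bool) (Y X : Lev) (hI : Inv n Y X) (hn : 1 ≤ n) (a : ℕ) (ha : a ≤ X.L)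
    (t : Bool) (w w' : Bool → ℕ) (hs : St rs X a t w w')
    (hw : w = hub n rs Y X a ∨ w' = hub n rs Y X a) : 1 ≤ X.ty (!t) (min (w t) (w' t)) := by
  obtain ⟨g1, g2, hA, _, _, _, hor⟩ := st_move n rs Y X hI a ha t w w' hs
  rcases hor with ⟨he, _⟩ | ⟨_, _, _, _, h5, _⟩
  · exfalso
    -- equal h-values
    have e1 := (g1 t).2
    have e2 := (g2 t).2
    have heq : X.h (!t) (w t) = X.h (!t) (w' t) := by rw [e1, e2, he]
    -- facts on hub
    have hxl : ∀ s, X.h s a ≤ Y.L := fun s => hI.hmemX s a ha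
    have hdd : ∀ s, Y.h s (X.h (!s) a) = dd Y X a := fun s => dd_eq n Y X hI a ha s
    have hddL : dd Y X a ≤ Y.Lp := by
      rw [← hdd true]; exact hI.hmemY true _ (hxl _)
    have hth := hI.thickY hn _ hddL
    have hdst : dst n Y X a = Y.lo (dd Y X a) + 1 := by
      unfold dst; rw [if_neg (by omega)]
    have hdf : fib Y (dd Y X a) (dst n Y X a) := by
      rw [hdst]; unfold fib; constructor <;> omega
    have hsec : ∀ s, Sec Y X (!s) (X.h s a) (X.R (!s) (jh rs X (!s) a) (X.h s a)) :=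
      fun s => (hI.runs (!s) (jh rs X (!s) a) (X.h s a) (hxl s)).1
    have hhub : ∀ s, fib X (X.h s a) (hub n rs Y X a s) ∧ X.h (!s) (hub n rs Y X a s) = dst n Y X a := by
      intro s
      have := (hsec s).1 (dst n Y X a) (by
        have h1 := hdd (!s)
        rw [Bool.not_not] at h1
        rw [h1]; exact hdf)
      exact this
    have hcv : cv X (!t) (X.R (!t) (jh rs X (!t) a) (X.h t a)) (hub n rs Y X a (!t)) = hub n rs Y X a := by
      funext s
      unfold cv
      by_cases hst : s = !t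
      · rw [if_pos hst, hst]
      · rw [if_neg hst]
        have hs' : s = t := by
          cases s <;> cases t <;> simp_all
        subst hs'
        rw [(hhub (!s)).2]
        rfl
    have hJ : JJ n Y X a (cv X (!t) (X.R (!t) (jh rs X (!t) a) (X.h t a)) (hub n rs Y X a (!t))) := by
      rw [hcv]
      right
      have := (hhub true).2
      rw [Bool.not_true] at this
      rw [this, hdst]
      constructor <;> omega
    rcases hw with hw | hw
    · have := matched n rs Y X hI hn a ha t _ (hsec t) _ (hhub (!t)).1 hJ (w' t) (by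
        rw [hcv, ← hw]; exact hA)
      apply this.2
      rw [hcv, ← hw]
      exact heq.symm
    · have := matched n rs Y X hI hn a ha t _ (hsec t) _ (hhub (!t)).1 hJ (w t) (by
        rw [hcv, ← hw]; unfold Ad at hA ⊢; exact hA.symm)
      apply this.2
      rw [hcv, ← hw]
      exact heq
  · omega

theorem f_oldnew_sum (X : Lev) (t : Bool) (k : ℕ) (h : X.ty true k + X.ty false k = 0) : X.ty t k = 0 := by
  cases t <;> omega

theorem f_oldnew (n : ℕ) (rs : Bool) (Y X : Lev) (ℓ : ℕ → ℕ) (v : ℕ → ℕ → Bool → ℕ) (lb : ℕ → ℕ → Bool)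
    (ρ : ℕ → Bool → Fin 3 → ℕ → ℕ) (ρE : ℕ → ℕ → ℕ → ℕ) (hC : Ctx n rs Y X ℓ v lb ρ ρE) :
    ∀ e u, e < (mkZ rs Y X ℓ v lb ρ ρE).L → u < (mkZ rs Y X ℓ v lb ρ ρE).L → Ad e u → (mkZ rs Y X ℓ v lb ρ ρE).p e ≠ (mkZ rs Y X ℓ v lb ρ ρE).p (e+1) → (mkZ rs Y X ℓ v lb ρ ρE).p u = (mkZ rs Y X ℓ v lb ρ ρE).p (u+1) →
    (1 ≤ (mkZ rs Y X ℓ v lb ρ ρE).ty true e + (mkZ rs Y X ℓ v lb ρ ρE).ty false e → 1 ≤ (mkZ rs Y X ℓ v lb ρ ρE).ty ((mkZ rs Y X ℓ v lb ρ ρE).lab e) u) ∧
    ((mkZ rs Y X ℓ v lb ρ ρE).ty true e + (mkZ rs Y X ℓ v lb ρ ρE).ty false e = 0 → 2 ≤ n + 1 → ∀ t, 1 ≤ (mkZ rs Y X ℓ v lb ρ ρE).ty t u) := by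
  intro e u he hu had hpe hpu
  rcases g_edge n rs Y X ℓ v lb ρ ρE hC e he with ⟨a, j, _, _, _, h1, h2, _⟩ | ⟨a, ha, hea, hea1, hp, hp1, hty, hlab, _, _⟩
  · exact absurd (h1.trans h2.symm) hpe
  rcases g_edge n rs Y X ℓ v lb ρ ρE hC u hu with ⟨a', j, ha', hj, hu', hq, hq1, hlabu⟩ | ⟨a', _, _, _, h1, h2, _⟩
  swap
  · rw [h1, h2] at hpu; omega
  have hnew := g_new n rs Y X ℓ v lb ρ ρE hC a' j ha' hj (lb a' j) rfl
  rw [← hu'] at hnew
  have hI := hC.inv
  have hloc := hC.loc a' ha'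
  -- position of u
  have hpos : (a' = a ∧ j + 1 = ℓ a) ∨ (a' = a + 1 ∧ j = 0) := by
    rcases had with h | h
    · -- u = e + 1
      right
      have : a' = a + 1 := by rw [← hq, ← hp1, h]
      subst this
      refine ⟨rfl, ?_⟩
      omega
    · left
      have : a' = a := by rw [← hq1, ← hp, h]
      subst this
      refine ⟨rfl, ?_⟩
      omega
  rw [hty true, hty false]
  refine ⟨fun h1 => ?_, fun h0 hn t => ?_⟩
  · -- nonzero type
    have hl : lb a' j = X.lab a := by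
      rcases hpos with ⟨h, hj'⟩ | ⟨h, hj'⟩
      · subst h
        have := f_oldnew_lab n rs Y X hI a' ha' (ℓ a') (v a') (lb a') (ρ a') (ρE a') hloc (a'+1) (by omega)
          (Or.inl rfl) (by rw [min_eq_left (by omega)]; exact h1)
        rw [min_eq_left (by omega), if_pos (by omega)] at this
        rw [← this]
        congr 1
        omega
      · subst h
        have := f_oldnew_lab n rs Y X hI (a+1) ha' (ℓ (a+1)) (v (a+1)) (lb (a+1)) (ρ (a+1)) (ρE (a+1)) hloc a (by omega)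
          (Or.inr rfl) (by rw [min_eq_right (by omega)]; exact h1)
        rw [min_eq_right (by omega), if_neg (by omega)] at this
        rw [← this, hj']
    rw [hlab, ← hl, hnew.1]
    omega
  · -- base edge
    have hst := hloc.step j hj
    have hhub : v a' j = hub n rs Y X a' ∨ v a' (j+1) = hub n rs Y X a' := by
      rcases hpos with ⟨h, hj'⟩ | ⟨h, hj'⟩
      · right
        subst h
        rw [hj', hloc.fin ha]
        unfold sv
        rw [if_pos (by rw [min_eq_left (by omega)]; exact h0)]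
      · left
        subst h
        rw [hj', hloc.start (by omega)]
        unfold sv
        rw [if_pos (by rw [min_eq_right (by omega)]; simpa using h0)]
    have hge := f_oldnew_hub n rs Y X hI (by omega) a' ha' (lb a' j) _ _ hst hhub
    by_cases htt : t = lb a' j
    · rw [htt, hnew.1]; omega
    · have htt' : t = !(lb a' j) := by
        cases t <;> cases hh : lb a' j <;> simp_all
      rw [htt', hnew.2]
      exact hge

end CP
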