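import Pool.Agent.B595.Tow.G3

set_option autoImplicit false
namespace CP

theorem f_runs (n : ℕ) (rs : Bool) (Y X : Lev) (ℓ : ℕ → ℕ) (v : ℕ → ℕ → Bool → ℕ) (lb : ℕ → ℕ → Bool)
    (ρ : ℕ → Bool → Fin 3 → ℕ → ℕ) (ρE : ℕ → ℕ → ℕ → ℕ) (hC : Ctx n rs Y X ℓ v lb ρ ρE) :
    ∀ t i y, y ≤ X.L → Sec X (mkZ rs Y X ℓ v lb ρ ρE) t y ((mkZ rs Y X ℓ v lb ρ ρE).R t i y) ∧
    ∀ b, fib X (X.h t y) b → (mkZ rs Y X ℓ v lb ρ ρE).S t ((mkZ rs Y X ℓ v lb ρ ρE).R t i y b) ∧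
      (mkZ rs Y X ℓ v lb ρ ρE).ga t ((mkZ rs Y X ℓ v lb ρ ρE).R t i y b) = i := by
  intro t i a ha
  have hL := hC.loc a ha
  have hR : ∀ t i b, (mkZ rs Y X ℓ v lb ρ ρE).R t i a b = los ℓ a + ρ a t i b := fun _ _ _ => rfl
  have hcv : ∀ (r : ℕ → ℕ) b, cv X t r b t = b := by intro r b; simp [cv]
  have hcv' : ∀ (r : ℕ → ℕ) b, cv X t r b (!t) = r (X.h (!t) b) := by
    intro r b; cases t <;> simp [cv]
  refine ⟨⟨?_, ?_⟩, ?_⟩
  · intro b hb
    obtain ⟨h1, h2⟩ := hL.run t i b hb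
    obtain ⟨g1, g2, g3⟩ := g_at n rs Y X ℓ v lb ρ ρE hC a ha (ρ a t i b) h1
    rw [hR]
    refine ⟨⟨?_, ?_⟩, ?_⟩
    · show los ℓ a ≤ los ℓ a + ρ a t i b
      omega
    · show los ℓ a + ρ a t i b ≤ los ℓ a + ℓ a
      omega
    · rw [g3 t, h2, hcv]
  · intro b hb hb'
    obtain ⟨h1, _⟩ := hL.run t i b hb
    obtain ⟨h1', _⟩ := hL.run t i (b+1) hb'
    obtain ⟨hA, hlab⟩ := hL.runA t i b hb hb'
    rw [hR, hR]
    refine ⟨?_, ?_⟩
    · rcases hA with h | h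
      · left; omega
      · right; omega
    · have hmin : min (los ℓ a + ρ a t i b) (los ℓ a + ρ a t i (b+1))
          = los ℓ a + min (ρ a t i b) (ρ a t i (b+1)) := by omega
      rw [hmin]
      set j := min (ρ a t i b) (ρ a t i (b+1)) with hj
      have hjl : j < ℓ a := by
        rcases hA with h | h <;> omega
      obtain ⟨_, p1, _⟩ := g_at n rs Y X ℓ v lb ρ ρE hC a ha j hjl.le
      obtain ⟨_, p2, _⟩ := g_at n rs Y X ℓ v lb ρ ρE hC a ha (j+1) hjl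
      have e : (mkZ rs Y X ℓ v lb ρ ρE).lab (los ℓ a + j) =
          if (mkZ rs Y X ℓ v lb ρ ρE).p (los ℓ a + j) ≠ (mkZ rs Y X ℓ v lb ρ ρE).p (los ℓ a + j + 1)
          then X.lab ((mkZ rs Y X ℓ v lb ρ ρE).p (los ℓ a + j))
          else lb ((mkZ rs Y X ℓ v lb ρ ρE).p (los ℓ a + j))
            (los ℓ a + j - los ℓ ((mkZ rs Y X ℓ v lb ρ ρE).p (los ℓ a + j))) := rfl
      rw [e, p1, show los ℓ a + j + 1 = los ℓ a + (j + 1) by omega, p2]
      rw [if_neg (by simp), show los ℓ a + j - los ℓ a = j by omega]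
      exact hlab
  · intro b hb
    obtain ⟨h1, h2⟩ := hL.run t i b hb
    obtain ⟨g1, g2, g3⟩ := g_at n rs Y X ℓ v lb ρ ρE hC a ha (ρ a t i b) h1
    have hh : (mkZ rs Y X ℓ v lb ρ ρE).h (!t) (los ℓ a + ρ a t i b)
        = X.R t (phi rs X t a i) (X.h (!t) a) (X.h (!t) b) := by
      rw [g3 (!t), h2, hcv']
    have hfd := h_fib n Y X hC.inv a ha t b hb
    rw [hR]
    refine ⟨?_, ?_⟩
    · have e : (mkZ rs Y X ℓ v lb ρ ρE).S t (los ℓ a + ρ a t i b) =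
          (∃ i', okc rs X t ((mkZ rs Y X ℓ v lb ρ ρE).p (los ℓ a + ρ a t i b)) i' ∧
          ∃ d, fib Y (Y.h t (X.h (!t) ((mkZ rs Y X ℓ v lb ρ ρE).p (los ℓ a + ρ a t i b)))) d ∧
          (mkZ rs Y X ℓ v lb ρ ρE).h (!t) (los ℓ a + ρ a t i b)
            = X.R t i' (X.h (!t) ((mkZ rs Y X ℓ v lb ρ ρE).p (los ℓ a + ρ a t i b))) d) := rfl
      rw [e, g2]
      refine ⟨phi rs X t a i, ?_, X.h (!t) b, hfd, hh⟩
      intro hrs
      have hpick : ∀ x y : Fin 3, pick x y ≠ x := by decide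
      simp only [phi, jh, hrs, if_true]
      exact hpick _ _
    · classical
      have e : (mkZ rs Y X ℓ v lb ρ ρE).ga t (los ℓ a + ρ a t i b) =
          if rs then (if hx : ∃ i', ∃ b', fib X (X.h t ((mkZ rs Y X ℓ v lb ρ ρE).p (los ℓ a + ρ a t i b))) b' ∧
              (los ℓ a + ρ a t i b) = los ℓ ((mkZ rs Y X ℓ v lb ρ ρE).p (los ℓ a + ρ a t i b))
                + ρ ((mkZ rs Y X ℓ v lb ρ ρE).p (los ℓ a + ρ a t i b)) t i' b'
              then Classical.choose hx else 0)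
          else X.ga t ((mkZ rs Y X ℓ v lb ρ ρE).h (!t) (los ℓ a + ρ a t i b)) := rfl
      rw [e]
      cases hrs : rs with
      | false =>
        rw [if_neg (by simp)]
        subst hrs
        rw [hh]
        have hp : phi false X t a i = i := by simp [phi]
        rw [hp]
        exact ((hC.inv.runs t i (X.h (!t) a) (hC.inv.hmemX (!t) a ha)).2 _ hfd).2
      | true =>
        rw [if_pos (by simp)]
        subst hrs
        have hx : ∃ i', ∃ b', fib X (X.h t ((mkZ true Y X ℓ v lb ρ ρE).p (los ℓ a + ρ a t i b))) b' ∧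
              (los ℓ a + ρ a t i b) = los ℓ ((mkZ true Y X ℓ v lb ρ ρE).p (los ℓ a + ρ a t i b))
                + ρ ((mkZ true Y X ℓ v lb ρ ρE).p (los ℓ a + ρ a t i b)) t i' b' := by
          rw [g2]; exact ⟨i, b, hb, rfl⟩
        rw [dif_pos hx]
        have key : ∀ q, q = a → ∀ (hq : ∃ i', ∃ b', fib X (X.h t q) b' ∧
            (los ℓ a + ρ a t i b) = los ℓ q + ρ q t i' b'), Classical.choose hq = i := by
          rintro q rfl hq
          obtain ⟨b', hb', hxx⟩ := Classical.choose_spec hq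
          by_contra hne
          have hd := hL.disj t i (Classical.choose hq) b b' (fun h => hne h.symm) hb hb'
          exact hd (by omega)
        exact key _ g2 hx

end CP
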