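import Pool.Agent.B595.Tow.G3

set_option autoImplicit false
namespace CP

theorem f_ends (n : ℕ) (rs : Bool) (Y X : Lev) (ℓ : ℕ → ℕ) (v : ℕ → ℕ → Bool → ℕ) (lb : ℕ → ℕ → Bool)
    (ρ : ℕ → Bool → Fin 3 → ℕ → ℕ) (ρE : ℕ → ℕ → ℕ → ℕ) (hC : Ctx n rs Y X ℓ v lb ρ ρE) :
    ∀ y y', y ≤ X.L → y' ≤ X.L → Ad y y' → ∀ t, t = X.lab (min y y') →
    1 ≤ X.ty true (min y y') + X.ty false (min y y') →
    Sec X (mkZ rs Y X ℓ v lb ρ ρE) t y ((mkZ rs Y X ℓ v lb ρ ρE).ER y y') ∧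
    (mkZ rs Y X ℓ v lb ρ ρE).ER y y' (ex X (X.h t y) (X.h t y')) = ex (mkZ rs Y X ℓ v lb ρ ρE) y y' ∧
    (X.ty (!t) (min y y') = 0 → ∀ b, fib X (X.h t y) b → (mkZ rs Y X ℓ v lb ρ ρE).S t ((mkZ rs Y X ℓ v lb ρ ρE).ER y y' b)) := by
  intro y y' hy hy' hA t ht h1
  have hL := hC.loc y hy
  have hER : ∀ b, (mkZ rs Y X ℓ v lb ρ ρE).ER y y' b = los ℓ y + ρE y y' b := fun b => rfl
  have hlo : (mkZ rs Y X ℓ v lb ρ ρE).lo y = los ℓ y := rfl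
  have hhi : (mkZ rs Y X ℓ v lb ρ ρE).hi y = los ℓ y + ℓ y := rfl
  have hlab : ∀ k, (mkZ rs Y X ℓ v lb ρ ρE).lab k =
      if (mkZ rs Y X ℓ v lb ρ ρE).p k ≠ (mkZ rs Y X ℓ v lb ρ ρE).p (k+1) then
        X.lab ((mkZ rs Y X ℓ v lb ρ ρE).p k)
      else lb ((mkZ rs Y X ℓ v lb ρ ρE).p k) (k - los ℓ ((mkZ rs Y X ℓ v lb ρ ρE).p k)) :=
    fun k => rfl
  have hS : ∀ t x, (mkZ rs Y X ℓ v lb ρ ρE).S t x ↔
      ∃ i, okc rs X t ((mkZ rs Y X ℓ v lb ρ ρE).p x) i ∧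
        ∃ d, fib Y (Y.h t (X.h (!t) ((mkZ rs Y X ℓ v lb ρ ρE).p x))) d ∧
        (mkZ rs Y X ℓ v lb ρ ρE).h (!t) x =
          X.R t i (X.h (!t) ((mkZ rs Y X ℓ v lb ρ ρE).p x)) d := fun t x => Iff.rfl
  have hat := g_at n rs Y X ℓ v lb ρ ρE hC y hy
  refine ⟨⟨?_, ?_⟩, ?_, ?_⟩
  · intro b hb
    obtain ⟨e1, e2⟩ := hL.endr y' hy' hA h1 t ht b hb
    obtain ⟨_, _, a3⟩ := hat _ e1
    rw [hER]
    refine ⟨⟨?_, ?_⟩, ?_⟩
    · rw [hlo]; omega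
    · rw [hhi]; omega
    · rw [a3, e2]
      simp [cv]
  · intro b hb hb'
    obtain ⟨e1, _⟩ := hL.endr y' hy' hA h1 t ht b hb
    obtain ⟨e1', _⟩ := hL.endr y' hy' hA h1 t ht (b+1) hb'
    obtain ⟨f1, f2⟩ := hL.endA y' hy' hA h1 t ht b hb hb'
    rw [hER, hER]
    refine ⟨?_, ?_⟩
    · rcases f1 with f1 | f1
      · left; omega
      · right; omega
    · have hmin : min (los ℓ y + ρE y y' b) (los ℓ y + ρE y y' (b+1)) =
          los ℓ y + min (ρE y y' b) (ρE y y' (b+1)) := by omega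
      have hlt : min (ρE y y' b) (ρE y y' (b+1)) + 1 ≤ ℓ y := by
        rcases f1 with f1 | f1 <;> omega
      obtain ⟨_, p1, _⟩ := hat (min (ρE y y' b) (ρE y y' (b+1))) (by omega)
      obtain ⟨_, p2, _⟩ := hat (min (ρE y y' b) (ρE y y' (b+1)) + 1) hlt
      rw [← add_assoc] at p2
      rw [hmin, hlab, p1, p2, if_neg (by simp), Nat.add_sub_cancel_left, f2]
  · rw [hER, hL.endx y' hy' hA h1 t ht]
    unfold ex
    rw [hlo, hhi]
    split_ifs <;> omega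
  · intro h0 b hb
    obtain ⟨e1, e2⟩ := hL.endr y' hy' hA h1 t ht b hb
    obtain ⟨_, a2, a3⟩ := hat _ e1
    rw [hER, hS, a2, a3, e2]
    refine ⟨kk rs X t (min y y'), ?_, X.h (!t) b, h_fib n Y X hC.inv y hy t b hb, ?_⟩
    · intro hr
      have hpick : ∀ u w : Fin 3, pick u w ≠ u ∧ pick u w ≠ w := by decide
      unfold kk
      rw [if_pos hr]
      rcases hA with hA | hA
      · have hm : min y y' = y := by omega
        rw [hm]
        exact (hpick _ _).1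
      · have hm : min y y' = y' := by omega
        rw [hm, hA]
        exact (hpick _ _).2
    · have hrd : rd rs X y y' = X.R t (kk rs X t (min y y')) (X.h (!t) y) := by
        unfold rd
        rw [← ht, if_pos h0]
      rw [hrd]
      have hne : (!t) ≠ t := by cases t <;> decide
      simp [cv]

end CP
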