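import Pool.Agent.B595.Tow.G3

set_option autoImplicit false
namespace CP

theorem zpos_aux (n : ℕ) (rs : Bool) (Y X : Lev) (ℓ : ℕ → ℕ) (v : ℕ → ℕ → Bool → ℕ) (lb : ℕ → ℕ → Bool)
    (ρ : ℕ → Bool → Fin 3 → ℕ → ℕ) (ρE : ℕ → ℕ → ℕ → ℕ) (hC : Ctx n rs Y X ℓ v lb ρ ρE)
    (x : ℕ) (hx : x ≤ (mkZ rs Y X ℓ v lb ρ ρE).L) :
    ∃ a k, a ≤ X.L ∧ k ≤ ℓ a ∧ x = los ℓ a + k := by
  have hF := g_fibs n rs Y X ℓ v lb ρ ρE hC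
  have h1 := hF.pfib x hx
  have h2 : (mkZ rs Y X ℓ v lb ρ ρE).p x ≤ X.L := h1.1
  have h3 : los ℓ ((mkZ rs Y X ℓ v lb ρ ρE).p x) ≤ x ∧
    x ≤ los ℓ ((mkZ rs Y X ℓ v lb ρ ρE).p x) + ℓ ((mkZ rs Y X ℓ v lb ρ ρE).p x) := h1.2
  generalize (mkZ rs Y X ℓ v lb ρ ρE).p x = a at h2 h3
  exact ⟨a, x - los ℓ a, h2, by omega, by omega⟩

theorem onstep_aux (n : ℕ) (rs : Bool) (Y X : Lev) (ℓ : ℕ → ℕ) (v : ℕ → ℕ → Bool → ℕ) (lb : ℕ → ℕ → Bool)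
    (ρ : ℕ → Bool → Fin 3 → ℕ → ℕ) (ρE : ℕ → ℕ → ℕ → ℕ) (hC : Ctx n rs Y X ℓ v lb ρ ρE)
    (a k : ℕ) (ha : a ≤ X.L) (hk : k ≤ ℓ a) :
    ∃ t r b, Al rs X a t r ∧ fib X (X.h t a) b ∧ v a k = cv X t r b := by
  have hL := hC.loc a ha
  have h2 := hL.two
  rcases Nat.lt_or_ge k (ℓ a) with h | h
  · obtain ⟨r, hr, b, b', hb, hb', _, hw, _⟩ := hL.step k h
    exact ⟨lb a k, r, b, hr, hb, hw⟩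
  · obtain ⟨k', rfl⟩ : ∃ k', k = k' + 1 := ⟨k - 1, by omega⟩
    obtain ⟨r, hr, b, b', hb, hb', _, _, hw'⟩ := hL.step k' (by omega)
    exact ⟨lb a k', r, b', hr, hb', hw'⟩

theorem zS_aux (rs : Bool) (Y X : Lev) (ℓ : ℕ → ℕ) (v : ℕ → ℕ → Bool → ℕ) (lb : ℕ → ℕ → Bool)
    (ρ : ℕ → Bool → Fin 3 → ℕ → ℕ) (ρE : ℕ → ℕ → ℕ → ℕ) (t : Bool) (x : ℕ) :
    (mkZ rs Y X ℓ v lb ρ ρE).S t x ↔ ∃ i, okc rs X t ((mkZ rs Y X ℓ v lb ρ ρE).p x) i ∧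
      ∃ d, fib Y (Y.h t (X.h (!t) ((mkZ rs Y X ℓ v lb ρ ρE).p x))) d ∧
      (mkZ rs Y X ℓ v lb ρ ρE).h (!t) x = X.R t i (X.h (!t) ((mkZ rs Y X ℓ v lb ρ ρE).p x)) d := Iff.rfl

theorem cv_not_aux (X : Lev) (t : Bool) (r : ℕ → ℕ) (b : ℕ) : cv X t r b (!t) = r (X.h (!t) b) := by
  unfold cv
  rw [if_neg (by cases t <;> simp)]

theorem cover_aux (n : ℕ) (rs : Bool) (Y X : Lev) (ℓ : ℕ → ℕ) (v : ℕ → ℕ → Bool → ℕ) (lb : ℕ → ℕ → Bool)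
    (ρ : ℕ → Bool → Fin 3 → ℕ → ℕ) (ρE : ℕ → ℕ → ℕ → ℕ) (hC : Ctx n rs Y X ℓ v lb ρ ρE)
    (x : ℕ) (hx : x ≤ (mkZ rs Y X ℓ v lb ρ ρE).L) :
    (∃ t, (mkZ rs Y X ℓ v lb ρ ρE).S t x) ∨
    ∃ y' t, y' ≤ X.L ∧ Ad ((mkZ rs Y X ℓ v lb ρ ρE).p x) y' ∧
      t = X.lab (min ((mkZ rs Y X ℓ v lb ρ ρE).p x) y') ∧
      1 ≤ X.ty true (min ((mkZ rs Y X ℓ v lb ρ ρE).p x) y') ∧
      1 ≤ X.ty false (min ((mkZ rs Y X ℓ v lb ρ ρE).p x) y') ∧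
      ∃ b, fib Y (Y.h t (X.h (!t) ((mkZ rs Y X ℓ v lb ρ ρE).p x))) b ∧
        (mkZ rs Y X ℓ v lb ρ ρE).h (!t) x =
          X.ER (X.h (!t) ((mkZ rs Y X ℓ v lb ρ ρE).p x)) (X.h (!t) y') b := by
  obtain ⟨a, k, ha, hk, rfl⟩ := zpos_aux n rs Y X ℓ v lb ρ ρE hC x hx
  obtain ⟨-, hp, hh⟩ := g_at n rs Y X ℓ v lb ρ ρE hC a ha k hk
  obtain ⟨t, r, b, hr, hb, hv⟩ := onstep_aux n rs Y X ℓ v lb ρ ρE hC a k ha hk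
  have hfb := h_fib n Y X hC.inv a ha t b hb
  have hht : (mkZ rs Y X ℓ v lb ρ ρE).h (!t) (los ℓ a + k) = r (X.h (!t) b) := by
    rw [hh (!t), hv, cv_not_aux]
  rcases hr with ⟨i, hi, hri⟩ | ⟨a', ha', hAd, htl, h1, h2, hri⟩
  · left
    refine ⟨t, ?_⟩
    rw [zS_aux, hp, hht]
    exact ⟨i, hi, X.h (!t) b, hfb, by rw [hri]⟩
  · right
    rw [hp]
    exact ⟨a', t, ha', hAd, htl, h1, h2, X.h (!t) b, hfb, by rw [hht, hri]⟩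

theorem sinh_aux (n : ℕ) (rs : Bool) (Y X : Lev) (ℓ : ℕ → ℕ) (v : ℕ → ℕ → Bool → ℕ) (lb : ℕ → ℕ → Bool)
    (ρ : ℕ → Bool → Fin 3 → ℕ → ℕ) (ρE : ℕ → ℕ → ℕ → ℕ) (hC : Ctx n rs Y X ℓ v lb ρ ρE)
    (t : Bool) (x : ℕ) (hx : x ≤ (mkZ rs Y X ℓ v lb ρ ρE).L) (hS : (mkZ rs Y X ℓ v lb ρ ρE).S t x) :
    ∃ i, okc rs X t ((mkZ rs Y X ℓ v lb ρ ρE).p x) i ∧
      X.S t ((mkZ rs Y X ℓ v lb ρ ρE).h (!t) x) ∧ X.ga t ((mkZ rs Y X ℓ v lb ρ ρE).h (!t) x) = i := by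
  have hF := g_fibs n rs Y X ℓ v lb ρ ρE hC
  have h2 : (mkZ rs Y X ℓ v lb ρ ρE).p x ≤ X.L := (hF.pfib x hx).1
  rw [zS_aux] at hS
  obtain ⟨i, hi, d, hd, he⟩ := hS
  have hm := hC.inv.hmemX (!t) _ h2
  have hr := (hC.inv.runs t i _ hm).2 d hd
  refine ⟨i, hi, ?_, ?_⟩
  · rw [he]; exact hr.1
  · rw [he]; exact hr.2

theorem nores_aux (Y X : Lev) (ℓ : ℕ → ℕ) (v : ℕ → ℕ → Bool → ℕ) (lb : ℕ → ℕ → Bool)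
    (ρ : ℕ → Bool → Fin 3 → ℕ → ℕ) (ρE : ℕ → ℕ → ℕ → ℕ) (t : Bool) (x : ℕ) :
    (mkZ false Y X ℓ v lb ρ ρE).col t x = X.col t ((mkZ false Y X ℓ v lb ρ ρE).p x) ∧
    (mkZ false Y X ℓ v lb ρ ρE).ga t x = X.ga t ((mkZ false Y X ℓ v lb ρ ρE).h (!t) x) := by
  constructor
  · simp only [mkZ, Bool.false_eq_true, if_false]
  · simp only [mkZ, Bool.false_eq_true, if_false]

theorem res_aux (Y X : Lev) (ℓ : ℕ → ℕ) (v : ℕ → ℕ → Bool → ℕ) (lb : ℕ → ℕ → Bool)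
    (ρ : ℕ → Bool → Fin 3 → ℕ → ℕ) (ρE : ℕ → ℕ → ℕ → ℕ) (t : Bool) (x : ℕ) :
    (mkZ true Y X ℓ v lb ρ ρE).col t x = (mkZ true Y X ℓ v lb ρ ρE).ga t x := by
  simp only [mkZ, if_true]

theorem f_rel (n : ℕ) (rs : Bool) (Y X : Lev) (ℓ : ℕ → ℕ) (v : ℕ → ℕ → Bool → ℕ) (lb : ℕ → ℕ → Bool)
    (ρ : ℕ → Bool → Fin 3 → ℕ → ℕ) (ρE : ℕ → ℕ → ℕ → ℕ) (hC : Ctx n rs Y X ℓ v lb ρ ρE) :
    Rel rs Y X (mkZ rs Y X ℓ v lb ρ ρE) := by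
  refine ⟨?_, ?_, ?_, ?_⟩
  · exact fun x hx => cover_aux n rs Y X ℓ v lb ρ ρE hC x hx
  · intro t x hx hS
    obtain ⟨i, _, h, _⟩ := sinh_aux n rs Y X ℓ v lb ρ ρE hC t x hx hS
    exact h
  · intro h t x hx
    subst h
    exact nores_aux Y X ℓ v lb ρ ρE t x
  · intro h t x hx
    subst h
    refine ⟨res_aux Y X ℓ v lb ρ ρE t x, ?_⟩
    intro hS
    obtain ⟨i, hi, _, hg⟩ := sinh_aux n true Y X ℓ v lb ρ ρE hC t x hx hS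
    rw [hg]
    exact hi rfl

end CP
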