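import Pool.Agent.B595.Tow.TDefs

set_option autoImplicit false
namespace CP

theorem ext_cont (F : ℕ → ℕ) : ContinuousOn (ext F) (Set.Ici 0) := by
  have key : ∀ k : ℕ, Set.EqOn (ext F) (fun x => (F k : ℝ) + (x - k) * ((F (k+1) : ℝ) - F k))
      (Set.Icc (k:ℝ) (k+1)) := by
    intro k x hx
    rcases lt_or_eq_of_le hx.2 with h | h
    · have : ⌊x⌋₊ = k := by
        rw [Nat.floor_eq_iff (le_trans (Nat.cast_nonneg k) hx.1)]; exact ⟨hx.1, h⟩
      simp only [ext, this]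
    · have : ⌊x⌋₊ = k + 1 := by
        rw [h]; exact_mod_cast Nat.floor_natCast (k+1)
      simp only [ext, this]; push_cast; rw [h]; ring
  have hU : Set.Ici (0:ℝ) ⊆ ⋃ k : ℕ, Set.Icc (k:ℝ) (k+1) := by
    intro x hx
    exact Set.mem_iUnion.mpr ⟨⌊x⌋₊, Nat.floor_le hx, (Nat.lt_floor_add_one x).le⟩
  refine ContinuousOn.mono ?_ hU
  apply LocallyFinite.continuousOn_iUnion
  · intro x
    refine ⟨Set.Iio (x+1), Iio_mem_nhds (by linarith), ?_⟩
    refine (Set.finite_Iic ⌈x+1⌉₊).subset ?_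
    rintro k ⟨y, hy1, hy2⟩
    have h1 : (k:ℝ) ≤ y := hy1.1
    have h2 : y < x + 1 := hy2
    have h3 : x + 1 ≤ (⌈x+1⌉₊ : ℝ) := Nat.le_ceil _
    have : (k:ℝ) ≤ (⌈x+1⌉₊ : ℝ) := by linarith
    exact_mod_cast this
  · exact fun k => isClosed_Icc
  · intro k
    exact ContinuousOn.congr (by fun_prop) (key k)

end CP
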