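import Pool.Agent.B595.Tow.TDefs

set_option autoImplicit false
namespace CP

namespace LimArc682

def KK (L : ℕ → ℕ) : Set (ℕ → ℝ) := Set.pi Set.univ (fun n => Set.Icc (0:ℝ) (L n))

noncomputable def ww (L : ℕ → ℕ) (n : ℕ) : ℝ := (1/2)^n / (1 + L n)
noncomputable def Phi (L : ℕ → ℕ) (x : ℕ → ℝ) : ℝ := ∑' n, ww L n * x n

lemma mem_KK {L : ℕ → ℕ} {x : ℕ → ℝ} : x ∈ KK L ↔ ∀ n, 0 ≤ x n ∧ x n ≤ L n := by
  simp only [KK, Set.mem_pi, Set.mem_univ, true_implies, Set.mem_Icc]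

lemma ww_pos (L : ℕ → ℕ) (n : ℕ) : 0 < ww L n := by unfold ww; positivity

lemma term_le {L : ℕ → ℕ} {x : ℕ → ℝ} (hx : x ∈ KK L) (n : ℕ) :
    ‖ww L n * x n‖ ≤ (1/2:ℝ)^n := by
  have h := mem_KK.1 hx n
  rw [Real.norm_of_nonneg (mul_nonneg (ww_pos L n).le h.1)]
  unfold ww
  rw [div_mul_eq_mul_div, div_le_iff₀ (by positivity)]
  have : (0:ℝ) < (1/2)^n := by positivity
  nlinarith [h.2]

lemma Phi_summable {L : ℕ → ℕ} {x : ℕ → ℝ} (hx : x ∈ KK L) :
    Summable (fun n => ww L n * x n) :=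
  Summable.of_norm_bounded (g := fun n => (1/2:ℝ)^n) summable_geometric_two (term_le hx)

lemma Phi_cont (L : ℕ → ℕ) : ContinuousOn (Phi L) (KK L) := by
  unfold Phi
  apply continuousOn_tsum (u := fun n => (1/2:ℝ)^n)
  · intro n
    exact (continuous_const.mul (continuous_apply n)).continuousOn
  · exact summable_geometric_two
  · intro n x hx; exact term_le hx n

lemma Phi_le {L : ℕ → ℕ} {x y : ℕ → ℝ} (hx : x ∈ KK L) (hy : y ∈ KK L) (h : ∀ n, x n ≤ y n) :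
    Phi L x ≤ Phi L y := by
  unfold Phi
  exact Summable.tsum_le_tsum (fun m => mul_le_mul_of_nonneg_left (h m) (ww_pos L m).le)
    (Phi_summable hx) (Phi_summable hy)

lemma Phi_lt {L : ℕ → ℕ} {x y : ℕ → ℝ} (hx : x ∈ KK L) (hy : y ∈ KK L) (h : ∀ n, x n ≤ y n)
    (n : ℕ) (hn : x n < y n) : Phi L x < Phi L y := by
  unfold Phi
  exact Summable.tsum_lt_tsum (i := n)
    (fun m => mul_le_mul_of_nonneg_left (h m) (ww_pos L m).le)
    (mul_lt_mul_of_pos_left hn (ww_pos L n)) (Phi_summable hx) (Phi_summable hy)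

lemma KK_compact (L : ℕ → ℕ) : IsCompact (KK L) := isCompact_univ_pi (fun _ => isCompact_Icc)

lemma KK_conn (L : ℕ → ℕ) : IsPreconnected (KK L) :=
  isPreconnected_univ_pi (fun _ => isPreconnected_Icc)

noncomputable def UU (p : ℕ → ℕ → ℕ) (N : ℕ) (z : ℕ → ℝ) : ℕ → ℝ :=
  Function.update z N (ext (p N) (z (N+1)))

noncomputable def QQ (p : ℕ → ℕ → ℕ) : ℕ → (ℕ → ℝ) → (ℕ → ℝ)
  | 0, z => z
  | (N+1), z => QQ p N (UU p N z)

lemma QQ_ge (p : ℕ → ℕ → ℕ) (N : ℕ) : ∀ (z : ℕ → ℝ) (m : ℕ), N ≤ m → QQ p N z m = z m := by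
  induction N with
  | zero => intro z m _; rfl
  | succ N ih =>
    intro z m hm
    show QQ p N (UU p N z) m = z m
    rw [ih _ m (by omega)]
    unfold UU
    rw [Function.update_of_ne (by omega)]

section
variable {L : ℕ → ℕ} {p : ℕ → ℕ → ℕ}

lemma rel_cont (ext_cont : ∀ F : ℕ → ℕ, ContinuousOn (ext F) (Set.Ici 0)) (n : ℕ) :
    ContinuousOn (fun x : ℕ → ℝ => ext (p n) (x (n+1))) (KK L) := by
  apply (ext_cont (p n)).comp (continuous_apply (n+1)).continuousOn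
  intro x hx
  exact (mem_KK.1 hx (n+1)).1

lemma ext_range (ext_mono : ∀ (L : ℕ) (F : ℕ → ℕ) (_ : ∀ k, k < L → F k ≤ F (k+1)) (x y : ℝ)
      (_ : 0 ≤ x) (_ : x ≤ y) (_ : y ≤ L), ext F x ≤ ext F y)
    (ext_nat : ∀ (F : ℕ → ℕ) (k : ℕ), ext F (k : ℝ) = F k)
    (pm : ∀ n k, k < L (n+1) → p n k ≤ p n (k+1))
    (p0 : ∀ n, p n 0 = 0) (p1 : ∀ n, p n (L (n+1)) = L n) (n : ℕ) (s : ℝ) (hs : 0 ≤ s)
    (hs' : s ≤ L (n+1)) : 0 ≤ ext (p n) s ∧ ext (p n) s ≤ L n := by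
  constructor
  · have h := ext_mono (L (n+1)) (p n) (pm n) 0 s le_rfl hs hs'
    have h0 := ext_nat (p n) 0
    rw [p0] at h0
    simp only [Nat.cast_zero] at h0
    rw [h0] at h
    exact h
  · have h := ext_mono (L (n+1)) (p n) (pm n) s (L (n+1)) hs hs' le_rfl
    rw [ext_nat, p1] at h
    exact h

lemma UU_mem (ext_mono : ∀ (L : ℕ) (F : ℕ → ℕ) (_ : ∀ k, k < L → F k ≤ F (k+1)) (x y : ℝ)
      (_ : 0 ≤ x) (_ : x ≤ y) (_ : y ≤ L), ext F x ≤ ext F y)
    (ext_nat : ∀ (F : ℕ → ℕ) (k : ℕ), ext F (k : ℝ) = F k)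
    (pm : ∀ n k, k < L (n+1) → p n k ≤ p n (k+1))
    (p0 : ∀ n, p n 0 = 0) (p1 : ∀ n, p n (L (n+1)) = L n) (N : ℕ) (z : ℕ → ℝ) (hz : z ∈ KK L) :
    UU p N z ∈ KK L := by
  rw [mem_KK] at hz ⊢
  intro n
  unfold UU
  by_cases h : n = N
  · subst h
    rw [Function.update_self]
    exact ext_range ext_mono ext_nat pm p0 p1 n _ (hz (n+1)).1 (hz (n+1)).2
  · rw [Function.update_of_ne h]
    exact hz n

lemma UU_cont (ext_cont : ∀ F : ℕ → ℕ, ContinuousOn (ext F) (Set.Ici 0)) (N : ℕ) :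
    ContinuousOn (UU p N) (KK L) := by
  rw [continuousOn_pi]
  intro n
  unfold UU
  by_cases h : n = N
  · subst h
    simp only [Function.update_self]
    exact rel_cont ext_cont n
  · simp only [Function.update_of_ne h]
    exact (continuous_apply n).continuousOn

lemma QQ_mem (ext_mono : ∀ (L : ℕ) (F : ℕ → ℕ) (_ : ∀ k, k < L → F k ≤ F (k+1)) (x y : ℝ)
      (_ : 0 ≤ x) (_ : x ≤ y) (_ : y ≤ L), ext F x ≤ ext F y)
    (ext_nat : ∀ (F : ℕ → ℕ) (k : ℕ), ext F (k : ℝ) = F k)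
    (pm : ∀ n k, k < L (n+1) → p n k ≤ p n (k+1))
    (p0 : ∀ n, p n 0 = 0) (p1 : ∀ n, p n (L (n+1)) = L n) (N : ℕ) :
    ∀ z ∈ KK L, QQ p N z ∈ KK L ∧ ∀ n < N, ext (p n) (QQ p N z (n+1)) = QQ p N z n := by
  induction N with
  | zero => intro z hz; exact ⟨hz, fun n hn => absurd hn (Nat.not_lt_zero n)⟩
  | succ N ih =>
    intro z hz
    have hz' := UU_mem ext_mono ext_nat pm p0 p1 N z hz
    obtain ⟨h1, h2⟩ := ih (UU p N z) hz'
    refine ⟨h1, ?_⟩
    intro n hn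
    show ext (p n) (QQ p N (UU p N z) (n+1)) = QQ p N (UU p N z) n
    rcases Nat.lt_succ_iff_lt_or_eq.1 hn with h | h
    · exact h2 n h
    · subst h
      rw [QQ_ge p n _ (n+1) (by omega), QQ_ge p n _ n le_rfl]
      unfold UU
      rw [Function.update_self, Function.update_of_ne (by omega)]

lemma QQ_cont (ext_cont : ∀ F : ℕ → ℕ, ContinuousOn (ext F) (Set.Ici 0))
    (ext_mono : ∀ (L : ℕ) (F : ℕ → ℕ) (_ : ∀ k, k < L → F k ≤ F (k+1)) (x y : ℝ)
      (_ : 0 ≤ x) (_ : x ≤ y) (_ : y ≤ L), ext F x ≤ ext F y)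
    (ext_nat : ∀ (F : ℕ → ℕ) (k : ℕ), ext F (k : ℝ) = F k)
    (pm : ∀ n k, k < L (n+1) → p n k ≤ p n (k+1))
    (p0 : ∀ n, p n 0 = 0) (p1 : ∀ n, p n (L (n+1)) = L n) (N : ℕ) :
    ContinuousOn (QQ p N) (KK L) := by
  induction N with
  | zero => exact continuousOn_id
  | succ N ih =>
    have : QQ p (N+1) = QQ p N ∘ UU p N := rfl
    rw [this]
    exact ih.comp (UU_cont ext_cont N)
      (fun z hz => UU_mem ext_mono ext_nat pm p0 p1 N z hz)

lemma QQ_fix (N : ℕ) (z : ℕ → ℝ) (hz : ∀ n, ext (p n) (z (n+1)) = z n) : QQ p N z = z := by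
  induction N with
  | zero => rfl
  | succ N ih =>
    show QQ p N (UU p N z) = z
    have : UU p N z = z := by
      unfold UU
      rw [hz, Function.update_eq_self]
    rw [this, ih]

end

end LimArc682

open LimArc682 in
theorem lim_arc (L : ℕ → ℕ) (p : ℕ → ℕ → ℕ) (hL : 1 ≤ L 0)
    (hp : ∀ n, Lip (L (n+1)) (L n) (p n)) (pm : ∀ n k, k < L (n+1) → p n k ≤ p n (k+1))
    (p0 : ∀ n, p n 0 = 0) (p1 : ∀ n, p n (L (n+1)) = L n)
    (ext_cont : ∀ F : ℕ → ℕ, ContinuousOn (ext F) (Set.Ici 0))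
    (ext_mono : ∀ (L : ℕ) (F : ℕ → ℕ) (_ : ∀ k, k < L → F k ≤ F (k+1)) (x y : ℝ) (_ : 0 ≤ x) (_ : x ≤ y)
      (_ : y ≤ L), ext F x ≤ ext F y)
    (ext_nat : ∀ (F : ℕ → ℕ) (k : ℕ), ext F (k : ℝ) = F k) :
    Nonempty ((Lim L p) ≃ₜ (Set.Icc (0:ℝ) 1)) := by
  -- membership
  have hLim : ∀ x : ℕ → ℝ, x ∈ Lim L p ↔ x ∈ KK L ∧ ∀ n, ext (p n) (x (n+1)) = x n := by
    intro x
    rw [mem_KK]
    constructor
    · intro h; exact ⟨fun n => ⟨(h n).1, (h n).2.1⟩, fun n => (h n).2.2⟩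
    · intro h n; exact ⟨(h.1 n).1, (h.1 n).2, h.2 n⟩
  -- the two end points
  set z0 : ℕ → ℝ := fun _ => 0 with hz0
  set z1 : ℕ → ℝ := fun n => (L n : ℝ) with hz1
  have r0 : ∀ n, ext (p n) (z0 (n+1)) = z0 n := by
    intro n
    have h0 := ext_nat (p n) 0
    rw [p0] at h0
    simpa [hz0] using h0
  have r1 : ∀ n, ext (p n) (z1 (n+1)) = z1 n := by
    intro n
    show ext (p n) ((L (n+1) : ℕ) : ℝ) = (L n : ℝ)
    rw [ext_nat, p1]
  have k0 : z0 ∈ KK L := by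
    rw [mem_KK]; intro n; exact ⟨le_rfl, by simp [hz0]⟩
  have k1 : z1 ∈ KK L := by
    rw [mem_KK]; intro n; exact ⟨by simp [hz1], le_rfl⟩
  have hT : Phi L z0 < Phi L z1 := by
    apply Phi_lt k0 k1 (fun n => by simp [hz0, hz1]) 0
    simp only [hz0, hz1]
    exact_mod_cast hL
  -- order
  have down : ∀ x ∈ Lim L p, ∀ y ∈ Lim L p, ∀ n, x (n+1) ≤ y (n+1) → x n ≤ y n := by
    intro x hx y hy n h
    rw [← (hx n).2.2, ← (hy n).2.2]
    exact ext_mono (L (n+1)) (p n) (pm n) _ _ (hx (n+1)).1 h (hy (n+1)).2.1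
  have down' : ∀ x ∈ Lim L p, ∀ y ∈ Lim L p, ∀ n k, x (n+k) ≤ y (n+k) → x n ≤ y n := by
    intro x hx y hy n k
    induction k with
    | zero => intro h; exact h
    | succ k ih => intro h; exact ih (down x hx y hy (n+k) h)
  have tot : ∀ x ∈ Lim L p, ∀ y ∈ Lim L p, ∀ n, x n < y n → ∀ m, x m ≤ y m := by
    intro x hx y hy n hn m
    rcases le_total m n with h | h
    · obtain ⟨k, rfl⟩ := Nat.exists_eq_add_of_le h
      exact down' x hx y hy m k hn.le
    · by_contra hc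
      push Not at hc
      obtain ⟨k, rfl⟩ := Nat.exists_eq_add_of_le h
      have := down' y hy x hx n k hc.le
      exact absurd hn (not_lt.2 this)
  -- compactness
  have relclosed : ∀ n, IsClosed (KK L ∩ {x | ext (p n) (x (n+1)) = x n}) := by
    intro n
    have hc : ContinuousOn (fun x : ℕ → ℝ => ext (p n) (x (n+1)) - x n) (KK L) :=
      (rel_cont ext_cont n).sub (continuous_apply n).continuousOn
    have h := hc.preimage_isClosed_of_isClosed (KK_compact L).isClosed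
      (isClosed_singleton (x := (0:ℝ)))
    have he : KK L ∩ {x | ext (p n) (x (n+1)) = x n}
        = KK L ∩ (fun x : ℕ → ℝ => ext (p n) (x (n+1)) - x n) ⁻¹' {0} := by
      ext x
      simp only [Set.mem_inter_iff, Set.mem_ofPred_eq, Set.mem_preimage, Set.mem_singleton_iff,
        sub_eq_zero]
    rw [he]; exact h
  have LimEq : Lim L p = ⋂ n, (KK L ∩ {x | ext (p n) (x (n+1)) = x n}) := by
    ext x
    rw [hLim]
    simp only [Set.mem_iInter, Set.mem_inter_iff, Set.mem_ofPred_eq]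
    constructor
    · intro h n; exact ⟨h.1, h.2 n⟩
    · intro h; exact ⟨(h 0).1, fun n => (h n).2⟩
  have LimClosed : IsClosed (Lim L p) := by
    rw [LimEq]; exact isClosed_iInter relclosed
  have LimCompact : IsCompact (Lim L p) :=
    (KK_compact L).of_isClosed_subset LimClosed (fun x hx => ((hLim x).1 hx).1)
  -- surjectivity
  have surj : ∀ t ∈ Set.Icc (Phi L z0) (Phi L z1), ∃ x ∈ Lim L p, Phi L x = t := by
    intro t ht
    let C : ℕ → Set (ℕ → ℝ) := fun N =>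
      (KK L ∩ (Phi L) ⁻¹' {t}) ∩ ⋂ n, ⋂ (_ : n < N), (KK L ∩ {x | ext (p n) (x (n+1)) = x n})
    have Cclosed : ∀ N, IsClosed (C N) := by
      intro N
      apply IsClosed.inter
      · exact (Phi_cont L).preimage_isClosed_of_isClosed (KK_compact L).isClosed
          isClosed_singleton
      · exact isClosed_iInter (fun n => isClosed_iInter (fun _ => relclosed n))
    have Cne : ∀ N, (C N).Nonempty := by
      intro N
      have hcont : ContinuousOn (fun z => Phi L (QQ p N z)) (KK L) :=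
        (Phi_cont L).comp (QQ_cont ext_cont ext_mono ext_nat pm p0 p1 N)
          (fun z hz => (QQ_mem ext_mono ext_nat pm p0 p1 N z hz).1)
      have hiv := (KK_conn L).intermediate_value k0 k1 hcont
      have ht' : t ∈ Set.Icc (Phi L (QQ p N z0)) (Phi L (QQ p N z1)) := by
        rw [QQ_fix N z0 r0, QQ_fix N z1 r1]; exact ht
      obtain ⟨z, hz, hzt⟩ := hiv ht'
      obtain ⟨q1, q2⟩ := QQ_mem ext_mono ext_nat pm p0 p1 N z hz
      refine ⟨QQ p N z, ⟨q1, hzt⟩, ?_⟩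
      simp only [Set.mem_iInter]
      intro n hn
      exact ⟨q1, q2 n hn⟩
    have Csub : ∀ N, C (N+1) ⊆ C N := by
      intro N x hx
      refine ⟨hx.1, ?_⟩
      have h2 := hx.2
      simp only [Set.mem_iInter] at h2 ⊢
      intro n hn
      exact h2 n (by omega)
    have hne := IsCompact.nonempty_iInter_of_sequence_nonempty_isCompact_isClosed C Csub Cne
      ((KK_compact L).of_isClosed_subset (Cclosed 0) (fun x hx => hx.1.1)) Cclosed
    obtain ⟨x, hx⟩ := hne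
    rw [Set.mem_iInter] at hx
    refine ⟨x, ?_, (hx 0).1.2⟩
    rw [hLim]
    refine ⟨(hx 0).1.1, ?_⟩
    intro n
    have h2 := (hx (n+1)).2
    simp only [Set.mem_iInter] at h2
    exact (h2 n (Nat.lt_succ_self n)).2
  -- the homeomorphism
  haveI : CompactSpace (Lim L p) := isCompact_iff_compactSpace.1 LimCompact
  have inKK : ∀ x ∈ Lim L p, x ∈ KK L := fun x hx => ((hLim x).1 hx).1
  let f : Lim L p → Set.Icc (Phi L z0) (Phi L z1) := fun x =>
    ⟨Phi L x.1, Phi_le k0 (inKK x.1 x.2) (fun n => (x.2 n).1),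
      Phi_le (inKK x.1 x.2) k1 (fun n => (x.2 n).2.1)⟩
  have fcont : Continuous f := by
    apply Continuous.subtype_mk
    have := (Phi_cont L).mono (fun x hx => inKK x hx)
    exact continuousOn_iff_continuous_domRestrict.1 this
  have finj : Function.Injective f := by
    intro x y hxy
    have h : Phi L x.1 = Phi L y.1 := congrArg Subtype.val hxy
    by_contra hne
    have : x.1 ≠ y.1 := fun h => hne (Subtype.ext h)
    obtain ⟨n, hn⟩ := Function.ne_iff.1 this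
    rcases lt_or_gt_of_ne hn with hlt | hlt
    · exact absurd h (Phi_lt (inKK _ x.2) (inKK _ y.2) (tot _ x.2 _ y.2 n hlt) n hlt).ne
    · exact absurd h.symm (Phi_lt (inKK _ y.2) (inKK _ x.2) (tot _ y.2 _ x.2 n hlt) n hlt).ne
  have fsurj : Function.Surjective f := by
    intro t
    obtain ⟨x, hx, hxt⟩ := surj t.1 t.2
    exact ⟨⟨x, hx⟩, Subtype.ext hxt⟩
  let e : Lim L p ≃ₜ Set.Icc (Phi L z0) (Phi L z1) :=
    Continuous.homeoOfEquivCompactToT2 (f := Equiv.ofBijective f ⟨finj, fsurj⟩) fcont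
  exact ⟨e.trans (iccHomeoI _ _ hT)⟩

end CP
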