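import Pool.Agent.B595.Tow.TDefs

set_option autoImplicit false
namespace CP

theorem h70_ext_nat (F : ℕ → ℕ) (k : ℕ) : ext F (k:ℝ) = F k := by
  simp [ext]

theorem h70_cast_sh (f : ℕ → ℕ → ℕ) (z : ℕ → ℕ) :
    shR f (fun n => (z n:ℝ)) = fun n => ((sh f z n : ℕ):ℝ) := by
  funext n
  simp only [shR, sh]
  exact h70_ext_nat _ _

theorem h70_cast_iter (f : ℕ → ℕ → ℕ) (N : ℕ) : ∀ z : ℕ → ℕ,
    (shR f)^[N] (fun n => (z n:ℝ)) = fun n => ((((sh f)^[N] z) n : ℕ):ℝ) := by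
  induction N with
  | zero => intro z; rfl
  | succ N ih =>
    intro z
    rw [Function.iterate_succ_apply, h70_cast_sh, ih (sh f z), Function.iterate_succ_apply]

theorem h70_ext_bd (F : ℕ → ℕ) (L M : ℕ) (h : Lip L M F) (x : ℝ) (h0 : 0 ≤ x) (h1 : x ≤ L) :
    0 ≤ ext F x ∧ ext F x ≤ M := by
  have hfl : ((⌊x⌋₊ : ℕ):ℝ) ≤ x := Nat.floor_le h0
  have hlt : x < (⌊x⌋₊ : ℝ) + 1 := Nat.lt_floor_add_one x
  have hkL : ⌊x⌋₊ ≤ L := by
    have : ((⌊x⌋₊ : ℕ):ℝ) ≤ L := hfl.trans h1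
    exact_mod_cast this
  unfold ext
  generalize hk : ⌊x⌋₊ = k at *
  have hFk : (F k : ℝ) ≤ M := by exact_mod_cast h.1 k hkL
  have hFk0 : (0:ℝ) ≤ F k := Nat.cast_nonneg _
  have hF10 : (0:ℝ) ≤ F (k+1) := Nat.cast_nonneg _
  rcases Nat.lt_or_ge k L with hl | hl
  · have hF1 : (F (k+1) : ℝ) ≤ M := by exact_mod_cast h.1 (k+1) hl
    constructor
    · nlinarith
    · nlinarith
  · have : k = L := le_antisymm hkL hl
    subst this
    have hx : x - (k:ℝ) = 0 := by linarith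
    rw [hx]
    constructor
    · linarith
    · linarith

theorem h70_key (F : ℕ → ℕ) (L M : ℕ) (h : Lip L M F) (x : ℝ) (h0 : 0 ≤ x) (h1 : x ≤ L)
    (hn : ∀ m : ℕ, ext F x ≠ m) :
    (∀ m : ℕ, x ≠ m) ∧ ⌊x⌋₊ < L ∧ F ⌊x⌋₊ ≠ F (⌊x⌋₊ + 1) ∧
      ⌊ext F x⌋₊ = min (F ⌊x⌋₊) (F (⌊x⌋₊ + 1)) := by
  have hfl : ((⌊x⌋₊ : ℕ):ℝ) ≤ x := Nat.floor_le h0
  have hlt : x < (⌊x⌋₊ : ℝ) + 1 := Nat.lt_floor_add_one x
  have hnx : ∀ m : ℕ, x ≠ m := by
    intro m hm
    apply hn (F m)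
    rw [hm, h70_ext_nat]
  have hpos : (⌊x⌋₊ : ℝ) < x := lt_of_le_of_ne hfl (fun e => hnx _ e.symm)
  have hkL : ⌊x⌋₊ < L := by
    have : ((⌊x⌋₊ : ℕ):ℝ) < L := lt_of_lt_of_le hpos h1
    exact_mod_cast this
  have hne : F ⌊x⌋₊ ≠ F (⌊x⌋₊ + 1) := by
    intro e
    apply hn (F ⌊x⌋₊)
    unfold ext
    rw [← e]
    ring
  refine ⟨hnx, hkL, hne, ?_⟩
  obtain ⟨h2, h3⟩ := h.2 _ hkL
  have hb := h70_ext_bd F L M h x h0 h1
  have e0 : ext F x = (F ⌊x⌋₊ : ℝ) + (x - (⌊x⌋₊ : ℝ)) * ((F (⌊x⌋₊ + 1) : ℝ) - (F ⌊x⌋₊ : ℝ)) := rfl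
  rw [Nat.floor_eq_iff hb.1, e0]
  generalize ⌊x⌋₊ = k at *
  rcases Nat.lt_or_ge (F k) (F (k+1)) with hl | hl
  · have e1 : F (k+1) = F k + 1 := by omega
    have e2 : min (F k) (F (k+1)) = F k := by omega
    rw [e2, e1]
    push_cast
    constructor
    · nlinarith
    · nlinarith
  · have e1 : F k = F (k+1) + 1 := by omega
    have e2 : min (F k) (F (k+1)) = F (k+1) := by omega
    rw [e2, e1]
    push_cast
    constructor
    · nlinarith
    · nlinarith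

theorem real_noper (L : ℕ → ℕ) (p f g r : ℕ → ℕ → ℕ)
    (hp : ∀ n, Lip (L (n+1)) (L n) (p n)) (hf : ∀ n, Lip (L (n+1)) (L n) (f n)) (hg : ∀ n, Lip (L (n+1)) (L n) (g n))
    (pm : ∀ n k, k < L (n+1) → p n k ≤ p n (k+1))
    (pf : ∀ n k, k ≤ L (n+2) → p n (f (n+1) k) = f n (p (n+1) k))
    (pg : ∀ n k, k ≤ L (n+2) → p n (g (n+1) k) = g n (p (n+1) k))
    (r1 : ∀ n k, k < L (n+1) → p n k ≠ p n (k+1) → r (n+1) k = r n (p n k))
    (r2 : ∀ n k, k < L (n+1) → f n k ≠ f n (k+1) → r (n+1) k = r n (min (f n k) (f n (k+1))) + 1)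
    (noper : ∀ z : ℕ → ℕ, (∀ n, z n ≤ L n) → (∀ n, p n (z (n+1)) = z n) → ∀ N, 1 ≤ N →
      (sh f)^[N] z = z → (sh g)^[N] z = z → False)
    (x : ℕ → ℝ) (hx : x ∈ Lim L p) (N : ℕ) (hN : 1 ≤ N) (h1 : (shR f)^[N] x = x) (h2 : (shR g)^[N] x = x) : False := by
  -- all coordinates are natural numbers
  have hnat : ∀ n, ∃ m : ℕ, x n = m := by
    intro n
    by_contra hcon
    push Not at hcon
    -- step 1
    have s1 : ∀ j, (∀ m : ℕ, x (n+j) ≠ m) ∧ r (n+j) ⌊x (n+j)⌋₊ = r n ⌊x n⌋₊ := by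
      intro j
      induction j with
      | zero => exact ⟨hcon, rfl⟩
      | succ j ih =>
        obtain ⟨ih1, ih2⟩ := ih
        have hx1 := hx (n+j)
        have hx2 := hx (n+j+1)
        have hn : ∀ m : ℕ, ext (p (n+j)) (x (n+j+1)) ≠ m := by
          intro m; rw [hx1.2.2]; exact ih1 m
        obtain ⟨k1, k2, k3, k4⟩ := h70_key (p (n+j)) (L (n+j+1)) (L (n+j)) (hp (n+j)) (x (n+j+1))
          hx2.1 hx2.2.1 hn
        refine ⟨k1, ?_⟩
        rw [hx1.2.2] at k4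
        have hm := pm (n+j) _ k2
        have e := r1 (n+j) _ k2 k3
        have e2 : min (p (n+j) ⌊x (n+j+1)⌋₊) (p (n+j) (⌊x (n+j+1)⌋₊ + 1)) = p (n+j) ⌊x (n+j+1)⌋₊ :=
          min_eq_left hm
        rw [e2] at k4
        rw [← k4, ih2] at e
        exact e
    -- step 2
    have hb : ∀ j m, 0 ≤ ((shR f)^[j] x) m ∧ ((shR f)^[j] x) m ≤ L m := by
      intro j
      induction j with
      | zero => intro m; exact ⟨(hx m).1, (hx m).2.1⟩
      | succ j ih =>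
        intro m
        rw [Function.iterate_succ_apply']
        exact h70_ext_bd (f m) (L (m+1)) (L m) (hf m) _ (ih (m+1)).1 (ih (m+1)).2
    have s2 : ∀ j, j ≤ N → (∀ m : ℕ, ((shR f)^[N-j] x) (n+j) ≠ m) ∧
        r (n+j) ⌊((shR f)^[N-j] x) (n+j)⌋₊ = r n ⌊x n⌋₊ + j := by
      intro j
      induction j with
      | zero =>
        intro _
        simp only [Nat.sub_zero, Nat.add_zero, h1]
        exact ⟨hcon, trivial⟩
      | succ j ih =>
        intro hj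
        obtain ⟨ih1, ih2⟩ := ih (by omega)
        have e : N - j = (N - (j+1)) + 1 := by omega
        rw [e, Function.iterate_succ_apply'] at ih1 ih2
        have hb1 := hb (N - (j+1)) (n+j+1)
        obtain ⟨k1, k2, k3, k4⟩ := h70_key (f (n+j)) (L (n+j+1)) (L (n+j)) (hf (n+j))
          (((shR f)^[N-(j+1)] x) (n+j+1)) hb1.1 hb1.2 ih1
        refine ⟨k1, ?_⟩
        have e3 := r2 (n+j) _ k2 k3
        rw [← k4] at e3
        have e4 : ⌊shR f ((shR f)^[N-(j+1)] x) (n+j)⌋₊ =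
          ⌊ext (f (n+j)) (((shR f)^[N-(j+1)] x) (n+j+1))⌋₊ := rfl
        rw [e4] at ih2
        rw [ih2] at e3
        have e5 : n + (j+1) = n + j + 1 := by omega
        rw [e5, e3]
        omega
    have a := (s1 N).2
    have b := (s2 N le_rfl).2
    simp only [Nat.sub_self, Function.iterate_zero, id_eq] at b
    omega
  choose z hz using hnat
  have hxz : x = fun n => (z n : ℝ) := funext hz
  apply noper z _ _ N hN
  · have := h70_cast_iter f N z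
    rw [← hxz, h1] at this
    funext n
    have h3 := congrFun this n
    rw [hz n] at h3
    exact_mod_cast h3.symm
  · have := h70_cast_iter g N z
    rw [← hxz, h2] at this
    funext n
    have h3 := congrFun this n
    rw [hz n] at h3
    exact_mod_cast h3.symm
  · intro n
    have := (hx n).2.1
    rw [hz n] at this
    exact_mod_cast this
  · intro n
    have := (hx n).2.2
    rw [hz n, hz (n+1), h70_ext_nat] at this
    exact_mod_cast this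

end CP
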