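import Pool.Agent.B595.Tow.TDefs

set_option autoImplicit false
namespace CP

theorem main_of_arc (L : ℕ → ℕ) (p f g : ℕ → ℕ → ℕ)
    (hf : ∀ n, Lip (L (n+1)) (L n) (f n)) (hg : ∀ n, Lip (L (n+1)) (L n) (g n))
    (hp : ∀ n, Lip (L (n+1)) (L n) (p n))
    (pf : ∀ n k, k ≤ L (n+2) → p n (f (n+1) k) = f n (p (n+1) k))
    (pg : ∀ n k, k ≤ L (n+2) → p n (g (n+1) k) = g n (p (n+1) k))
    (fg : ∀ n k, k ≤ L (n+2) → f n (g (n+1) k) = g n (f (n+1) k))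
    (ext_cont : ∀ F : ℕ → ℕ, ContinuousOn (ext F) (Set.Ici 0))
    (ext_mem : ∀ (L M : ℕ) (F : ℕ → ℕ) (_ : Lip L M F) (x : ℝ) (_ : 0 ≤ x) (_ : x ≤ L),
      0 ≤ ext F x ∧ ext F x ≤ M)
    (ext_comp : ∀ (L M : ℕ) (F G : ℕ → ℕ) (_ : Lip L M F) (x : ℝ) (_ : 0 ≤ x) (_ : x ≤ L),
      ext G (ext F x) = ext (fun k => G (F k)) x)
    (ext_congr : ∀ (L : ℕ) (F G : ℕ → ℕ) (_ : ∀ k, k ≤ L → F k = G k) (x : ℝ) (_ : 0 ≤ x) (_ : x ≤ L),
      ext F x = ext G x)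
    (arc : Nonempty ((Lim L p) ≃ₜ (Set.Icc (0:ℝ) 1)))
    (noper : ∀ x ∈ Lim L p, ∀ N, 1 ≤ N → (shR f)^[N] x = x → (shR g)^[N] x = x → False) :
    ∃ F G : C(Set.Icc (0:ℝ) 1, Set.Icc (0:ℝ) 1), (⇑F ∘ ⇑G = ⇑G ∘ ⇑F) ∧
      ¬ (Function.periodicPts ⇑F ∩ Function.periodicPts ⇑G).Nonempty := by
  obtain ⟨φ⟩ := arc
  have mem : ∀ h : ℕ → ℕ → ℕ, (∀ n, Lip (L (n+1)) (L n) (h n)) →
      (∀ n k, k ≤ L (n+2) → p n (h (n+1) k) = h n (p (n+1) k)) →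
      ∀ x ∈ Lim L p, shR h x ∈ Lim L p := by
    intro h hh ph x hx n
    obtain ⟨h0, h1, h2⟩ := hx (n+1)
    obtain ⟨h3, h4, h5⟩ := hx (n+2)
    have h6 := ext_mem (L (n+1)) (L n) (h n) (hh n) (x (n+1)) h0 h1
    refine ⟨h6.1, h6.2, ?_⟩
    show ext (p n) (ext (h (n+1)) (x (n+2))) = ext (h n) (x (n+1))
    rw [ext_comp (L (n+2)) (L (n+1)) (h (n+1)) (p n) (hh (n+1)) (x (n+2)) h3 h4,
      ext_congr (L (n+2)) (fun k => p n (h (n+1) k)) (fun k => h n (p (n+1) k)) (ph n) (x (n+2)) h3 h4,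
      ← ext_comp (L (n+2)) (L (n+1)) (p (n+1)) (h n) (hp (n+1)) (x (n+2)) h3 h4, h2]
  have cont : ∀ (h : ℕ → ℕ → ℕ) (hm : ∀ x ∈ Lim L p, shR h x ∈ Lim L p),
      Continuous (fun x : Lim L p => (⟨shR h x.1, hm x.1 x.2⟩ : Lim L p)) := by
    intro h hm
    apply Continuous.subtype_mk
    apply continuous_pi
    intro n
    show Continuous (fun x : Lim L p => ext (h n) (x.1 (n+1)))
    exact (ext_cont (h n)).comp_continuous
      ((continuous_apply (n+1)).comp continuous_subtype_val) (fun x => (x.2 (n+1)).1)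
  have comm : ∀ x ∈ Lim L p, shR f (shR g x) = shR g (shR f x) := by
    intro x hx
    funext n
    obtain ⟨h3, h4, h5⟩ := hx (n+2)
    show ext (f n) (ext (g (n+1)) (x (n+2))) = ext (g n) (ext (f (n+1)) (x (n+2)))
    rw [ext_comp (L (n+2)) (L (n+1)) (g (n+1)) (f n) (hg (n+1)) (x (n+2)) h3 h4,
      ext_congr (L (n+2)) (fun k => f n (g (n+1) k)) (fun k => g n (f (n+1) k)) (fg n) (x (n+2)) h3 h4,
      ← ext_comp (L (n+2)) (L (n+1)) (f (n+1)) (g n) (hf (n+1)) (x (n+2)) h3 h4]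
  have mf := mem f hf pf
  have mg := mem g hg pg
  let F : C(Set.Icc (0:ℝ) 1, Set.Icc (0:ℝ) 1) :=
    ⟨fun y => φ ⟨shR f (φ.symm y).1, mf _ (φ.symm y).2⟩,
      φ.continuous.comp ((cont f mf).comp φ.symm.continuous)⟩
  let G : C(Set.Icc (0:ℝ) 1, Set.Icc (0:ℝ) 1) :=
    ⟨fun y => φ ⟨shR g (φ.symm y).1, mg _ (φ.symm y).2⟩,
      φ.continuous.comp ((cont g mg).comp φ.symm.continuous)⟩
  have sF : Function.Semiconj (fun y => (φ.symm y).1) F (shR f) := by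
    intro y
    show (φ.symm (φ ⟨shR f (φ.symm y).1, mf _ (φ.symm y).2⟩)).1 = shR f (φ.symm y).1
    rw [φ.symm_apply_apply]
  have sG : Function.Semiconj (fun y => (φ.symm y).1) G (shR g) := by
    intro y
    show (φ.symm (φ ⟨shR g (φ.symm y).1, mg _ (φ.symm y).2⟩)).1 = shR g (φ.symm y).1
    rw [φ.symm_apply_apply]
  refine ⟨F, G, ?_, ?_⟩
  · funext y
    apply φ.symm.injective
    apply Subtype.ext
    have h1 := sF (G y)
    have h2 := sG (F y)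
    have h3 := sF y
    have h4 := sG y
    simp only at h1 h2 h3 h4
    show (φ.symm (F (G y))).1 = (φ.symm (G (F y))).1
    rw [h1, h2, h3, h4]
    exact comm _ (φ.symm y).2
  · rintro ⟨y, ⟨m, hm, hFy⟩, ⟨k, hk, hGy⟩⟩
    have h1 : Function.IsPeriodicPt F (m * k) y := hFy.mul_const k
    have h2 : Function.IsPeriodicPt G (m * k) y := hGy.const_mul m
    have h3 := sF.iterate_right (m * k) y
    have h4 := sG.iterate_right (m * k) y
    rw [h1.eq] at h3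
    rw [h2.eq] at h4
    exact noper (φ.symm y).1 (φ.symm y).2 (m * k) (Nat.mul_pos hm hk) h3.symm h4.symm

end CP
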