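import Pool.Agent.B595.Tow.TDefs

set_option autoImplicit false
namespace CP

theorem it_fst (F : C(Set.Icc (0:ℝ) 1, Set.Icc (0:ℝ) 1)) (n : ℕ) :
    ∀ p : unitInterval × unitInterval,
      (((fun q : unitInterval × unitInterval => ((F q.1 : unitInterval), q.2))^[n]) p).1
        = (⇑F)^[n] p.1 := by
  induction n with
  | zero => intro p; rfl
  | succ n ih =>
    intro p
    rw [Function.iterate_succ_apply, Function.iterate_succ_apply, ih]

theorem per_fst (F : C(Set.Icc (0:ℝ) 1, Set.Icc (0:ℝ) 1)) (p : unitInterval × unitInterval)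
    (hp : p ∈ Function.periodicPts
      (fun q : unitInterval × unitInterval => ((F q.1 : unitInterval), q.2))) :
    p.1 ∈ Function.periodicPts ⇑F := by
  obtain ⟨n, hn, h⟩ := hp
  refine ⟨n, hn, ?_⟩
  have h2 : (((fun q : unitInterval × unitInterval => ((F q.1 : unitInterval), q.2))^[n]) p).1
      = p.1 := congrArg Prod.fst h
  rw [it_fst] at h2
  exact h2

theorem square_of_interval
    (H : ∃ F G : C(Set.Icc (0:ℝ) 1, Set.Icc (0:ℝ) 1), (⇑F ∘ ⇑G = ⇑G ∘ ⇑F) ∧
      ¬ (Function.periodicPts ⇑F ∩ Function.periodicPts ⇑G).Nonempty) :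
    ¬ (∀ F G : unitInterval × unitInterval → unitInterval × unitInterval,
      Continuous F → Continuous G →
      (∀ p q : unitInterval × unitInterval, p.1 = q.1 → (F p).1 = (F q).1) →
      (∀ p q : unitInterval × unitInterval, p.1 = q.1 → (G p).1 = (G q).1) →
      F ∘ G = G ∘ F →
      (Function.periodicPts F ∩ Function.periodicPts G).Nonempty) := by
  obtain ⟨F, G, hc, hno⟩ := H
  intro K
  obtain ⟨p, hp, hq⟩ := K (fun q => ((F q.1 : unitInterval), q.2)) (fun q => ((G q.1 : unitInterval), q.2))
    ((F.continuous.comp continuous_fst).prodMk continuous_snd)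
    ((G.continuous.comp continuous_fst).prodMk continuous_snd)
    (fun p q h => by show F p.1 = F q.1; rw [h])
    (fun p q h => by show G p.1 = G q.1; rw [h])
    (by
      funext q
      have h := congrFun hc q.1
      simp only [Function.comp] at h ⊢
      exact Prod.ext h rfl)
  exact hno ⟨p.1, per_fst F p hp, per_fst G p hq⟩

end CP
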