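import Pool.Agent.B595.Tow.T1
import Pool.Agent.B595.Tow.T2
import Pool.Agent.B595.Tow.T3
import Pool.Agent.B595.Tow.T4
import Pool.Agent.B595.Tow.T5
import Pool.Agent.B595.Tow.T6
import Pool.Agent.B595.Tow.C

set_option autoImplicit false
namespace CP

theorem ad_lip (a b : ℕ) (h : a = b ∨ Ad a b) : b ≤ a + 1 ∧ a ≤ b + 1 := by
  unfold Ad at h
  omega

theorem tow_hLp (V : ℕ → Lev) (rs : ℕ → Bool) (hT : Tow V rs) (n : ℕ) : (V (n+1)).Lp = (V n).L :=
  (hT.inv n).hLp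

/-- projections in a fibred level -/
theorem p_step (X : Lev) (hF : Fibs X) (k : ℕ) (hk : k < X.L) :
    X.p (k+1) = X.p k ∨ X.p (k+1) = X.p k + 1 := by
  obtain ⟨h1, h2, h3⟩ := hF.pfib k hk.le
  obtain ⟨h4, h5, h6⟩ := hF.pfib (k+1) hk
  by_cases hkh : k + 1 ≤ X.hi (X.p k)
  · left
    exact (hF.fibp (X.p k) h1 (k+1) ⟨by omega, hkh⟩).2
  · right
    have hk2 : k = X.hi (X.p k) := by omega
    have hlt : X.p k < X.Lp := by
      rcases Nat.lt_or_ge (X.p k) X.Lp with h | h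
      · exact h
      · exfalso
        have : X.p k = X.Lp := le_antisymm h1 h
        rw [this, hF.hiL] at hk2
        omega
    have h7 := hF.next (X.p k) hlt
    have h8 := hF.lohi (X.p k + 1) hlt
    exact (hF.fibp (X.p k + 1) hlt (k+1) ⟨by omega, by omega⟩).2

theorem p_zero (X : Lev) (hF : Fibs X) : X.p 0 = 0 := by
  have h := hF.lohi 0 (Nat.zero_le _)
  exact (hF.fibp 0 (Nat.zero_le _) 0 ⟨by rw [hF.lo0], Nat.zero_le _⟩).2

theorem p_last (X : Lev) (hF : Fibs X) : X.p X.L = X.Lp := by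
  have h := hF.lohi X.Lp le_rfl
  exact (hF.fibp X.Lp le_rfl X.L ⟨by rw [← hF.hiL]; exact h, by rw [hF.hiL]⟩).2

theorem interval_of_tower (V : ℕ → Lev) (rs : ℕ → Bool) (hT : Tow V rs) (hL : 1 ≤ (V 0).L) :
    ∃ F G : C(Set.Icc (0:ℝ) 1, Set.Icc (0:ℝ) 1), (⇑F ∘ ⇑G = ⇑G ∘ ⇑F) ∧
      ¬ (Function.periodicPts ⇑F ∩ Function.periodicPts ⇑G).Nonempty := by
  have hF : ∀ n, Fibs (V (n+1)) := fun n => (hT.inv n).FX
  have hp : ∀ n, Lip ((V (n+1)).L) ((V n).L) ((V (n+1)).p) := by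
    intro n
    refine ⟨fun k hk => ?_, fun k hk => ?_⟩
    · rw [← tow_hLp V rs hT n]; exact ((hF n).pfib k hk).1
    · rcases p_step _ (hF n) k hk with h | h <;> omega
  have pm : ∀ n k, k < (V (n+1)).L → (V (n+1)).p k ≤ (V (n+1)).p (k+1) := by
    intro n k hk
    rcases p_step _ (hF n) k hk with h | h <;> omega
  have hh : ∀ t n, Lip ((V (n+1)).L) ((V n).L) ((V (n+1)).h t) := by
    intro t n
    refine ⟨fun k hk => (hT.inv n).hmemX t k hk, fun k hk => ?_⟩
    exact ad_lip _ _ ((hT.inv n).hlip t k hk)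
  have ph : ∀ t n k, k ≤ (V (n+2)).L → (V (n+1)).p ((V (n+2)).h t k) = (V (n+1)).h t ((V (n+2)).p k) :=
    fun t n k hk => (hT.inv (n+1)).com_p t k hk
  have fg : ∀ n k, k ≤ (V (n+2)).L → (V (n+1)).h true ((V (n+2)).h false k) = (V (n+1)).h false ((V (n+2)).h true k) :=
    fun n k hk => (hT.inv (n+1)).com_h true k hk
  have r1 : ∀ n k, k < (V (n+1)).L → (V (n+1)).p k ≠ (V (n+1)).p (k+1) →
      (V (n+1)).ty true k = (V n).ty true ((V (n+1)).p k) :=
    fun n k hk hne => ((hT.inv n).old k hk hne).1 true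
  have r2 : ∀ n k, k < (V (n+1)).L → (V (n+1)).h true k ≠ (V (n+1)).h true (k+1) →
      (V (n+1)).ty true k = (V n).ty true (min ((V (n+1)).h true k) ((V (n+1)).h true (k+1))) + 1 :=
    fun n k hk hne => ((hT.inv n).mv1 true k hk hne).1
  have arc : Nonempty ((Lim (fun n => (V n).L) (fun n => (V (n+1)).p)) ≃ₜ (Set.Icc (0:ℝ) 1)) :=
    lim_arc (fun n => (V n).L) (fun n => (V (n+1)).p) hL hp pm (fun n => p_zero _ (hF n))
      (fun n => by show (V (n+1)).p ((V (n+1)).L) = (V n).L; rw [p_last _ (hF n), tow_hLp V rs hT n])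
      ext_cont ext_mono ext_nat
  refine main_of_arc (fun n => (V n).L) (fun n => (V (n+1)).p) (fun n => (V (n+1)).h true)
    (fun n => (V (n+1)).h false) (hh true) (hh false) hp (ph true) (ph false) fg ext_cont ext_mem ext_comp
    ext_congr arc ?_
  intro x hx N hN h1 h2
  exact real_noper (fun n => (V n).L) (fun n => (V (n+1)).p) (fun n => (V (n+1)).h true)
    (fun n => (V (n+1)).h false) (fun n => (V n).ty true) hp (hh true) (hh false) pm (ph true) (ph false) r1 r2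
    (fun z hz hzp N hN h1 h2 => noper V rs hT z ⟨hz, hzp⟩ N hN h1 h2) x hx N hN h1 h2

end CP
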