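import Pool.Agent.B595.Tow.L0

set_option autoImplicit false
namespace CP

theorem g1_los_succ (ℓ : ℕ → ℕ) (a : ℕ) : los ℓ (a+1) = los ℓ a + ℓ a + 1 := rfl

theorem g1_los_lt (ℓ : ℕ → ℕ) {a b : ℕ} (h : a < b) : los ℓ a + ℓ a < los ℓ b := by
  induction b with
  | zero => omega
  | succ b ih =>
    rw [g1_los_succ]
    rcases Nat.lt_or_ge a b with h' | h'
    · have := ih h'
      omega
    · have : a = b := by omega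
      subst this
      omega

theorem g1_mkZ_L (rs : Bool) (Y X : Lev) (ℓ : ℕ → ℕ) (v : ℕ → ℕ → Bool → ℕ) (lb : ℕ → ℕ → Bool)
    (ρ : ℕ → Bool → Fin 3 → ℕ → ℕ) (ρE : ℕ → ℕ → ℕ → ℕ) :
    (mkZ rs Y X ℓ v lb ρ ρE).L = los ℓ X.L + ℓ X.L := rfl

theorem g1_mkZ_p (rs : Bool) (Y X : Lev) (ℓ : ℕ → ℕ) (v : ℕ → ℕ → Bool → ℕ) (lb : ℕ → ℕ → Bool)
    (ρ : ℕ → Bool → Fin 3 → ℕ → ℕ) (ρE : ℕ → ℕ → ℕ → ℕ) (a : ℕ) (ha : a ≤ X.L) (k : ℕ) (hk : k ≤ ℓ a) :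
    (mkZ rs Y X ℓ v lb ρ ρE).p (los ℓ a + k) = a := by
  have : (mkZ rs Y X ℓ v lb ρ ρE).p (los ℓ a + k)
      = Nat.findGreatest (fun b => los ℓ b ≤ los ℓ a + k) X.L := rfl
  rw [this, Nat.findGreatest_eq_iff]
  refine ⟨ha, fun _ => by omega, ?_⟩
  intro b hab _ hb
  have := g1_los_lt ℓ hab
  omega

theorem g1_mkZ_ex (rs : Bool) (Y X : Lev) (ℓ : ℕ → ℕ) (v : ℕ → ℕ → Bool → ℕ) (lb : ℕ → ℕ → Bool)
    (ρ : ℕ → Bool → Fin 3 → ℕ → ℕ) (ρE : ℕ → ℕ → ℕ → ℕ) (x : ℕ)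
    (hx : x ≤ (mkZ rs Y X ℓ v lb ρ ρE).L) :
    ∃ a k, a ≤ X.L ∧ k ≤ ℓ a ∧ x = los ℓ a + k := by
  rw [g1_mkZ_L] at hx
  obtain ⟨a, ha⟩ : ∃ a, a = Nat.findGreatest (fun b => los ℓ b ≤ x) X.L := ⟨_, rfl⟩
  have h := (Nat.findGreatest_eq_iff).1 ha.symm
  obtain ⟨h1, h2, h3⟩ := h
  have h4 : los ℓ a ≤ x := by
    rcases Nat.eq_zero_or_pos a with h0 | h0
    · subst h0
      have : los ℓ 0 = 0 := rfl
      omega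
    · exact h2 (by omega)
  have h5 : x ≤ los ℓ a + ℓ a := by
    rcases Nat.lt_or_ge a X.L with h | h
    · have := h3 (Nat.lt_succ_self a) h
      rw [Nat.succ_eq_add_one, g1_los_succ] at this
      omega
    · have : a = X.L := by omega
      subst this
      exact hx
  exact ⟨a, x - los ℓ a, h1, by omega, by omega⟩

theorem g_at (n : ℕ) (rs : Bool) (Y X : Lev) (ℓ : ℕ → ℕ) (v : ℕ → ℕ → Bool → ℕ) (lb : ℕ → ℕ → Bool)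
    (ρ : ℕ → Bool → Fin 3 → ℕ → ℕ) (ρE : ℕ → ℕ → ℕ → ℕ) (hC : Ctx n rs Y X ℓ v lb ρ ρE)
    (a : ℕ) (ha : a ≤ X.L) (k : ℕ) (hk : k ≤ ℓ a) :
    los ℓ a + k ≤ (mkZ rs Y X ℓ v lb ρ ρE).L ∧ (mkZ rs Y X ℓ v lb ρ ρE).p (los ℓ a + k) = a ∧
    ∀ t, (mkZ rs Y X ℓ v lb ρ ρE).h t (los ℓ a + k) = v a k t := by
  have hp := g1_mkZ_p rs Y X ℓ v lb ρ ρE a ha k hk
  refine ⟨?_, hp, ?_⟩
  · rw [g1_mkZ_L]
    rcases Nat.lt_or_ge a X.L with h | h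
    · have := g1_los_lt ℓ h
      omega
    · have : a = X.L := by omega
      subst this
      omega
  · intro t
    have h1 : (mkZ rs Y X ℓ v lb ρ ρE).h t (los ℓ a + k)
        = v ((mkZ rs Y X ℓ v lb ρ ρE).p (los ℓ a + k))
            (los ℓ a + k - los ℓ ((mkZ rs Y X ℓ v lb ρ ρE).p (los ℓ a + k))) t := rfl
    rw [h1, hp, Nat.add_sub_cancel_left]

theorem g_fibs (n : ℕ) (rs : Bool) (Y X : Lev) (ℓ : ℕ → ℕ) (v : ℕ → ℕ → Bool → ℕ) (lb : ℕ → ℕ → Bool)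
    (ρ : ℕ → Bool → Fin 3 → ℕ → ℕ) (ρE : ℕ → ℕ → ℕ → ℕ) (hC : Ctx n rs Y X ℓ v lb ρ ρE) :
    Fibs (mkZ rs Y X ℓ v lb ρ ρE) := by
  refine ⟨rfl, rfl, fun y _ => Nat.le_add_right _ _, fun y _ => rfl, ?_, ?_⟩
  · intro x hx
    obtain ⟨a, k, ha, hk, rfl⟩ := g1_mkZ_ex rs Y X ℓ v lb ρ ρE x hx
    have hp := g1_mkZ_p rs Y X ℓ v lb ρ ρE a ha k hk
    rw [hp]
    refine ⟨ha, ?_, ?_⟩
    · show los ℓ a ≤ los ℓ a + k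
      omega
    · show los ℓ a + k ≤ los ℓ a + ℓ a
      omega
  · intro y hy x hx
    have h1 : los ℓ y ≤ x := hx.1
    have h2 : x ≤ los ℓ y + ℓ y := hx.2
    have h3 := g_at n rs Y X ℓ v lb ρ ρE hC y hy (x - los ℓ y) (by omega)
    have h4 : los ℓ y + (x - los ℓ y) = x := by omega
    rw [h4] at h3
    exact ⟨h3.1, h3.2.1⟩

theorem g_edge (n : ℕ) (rs : Bool) (Y X : Lev) (ℓ : ℕ → ℕ) (v : ℕ → ℕ → Bool → ℕ) (lb : ℕ → ℕ → Bool)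
    (ρ : ℕ → Bool → Fin 3 → ℕ → ℕ) (ρE : ℕ → ℕ → ℕ → ℕ) (hC : Ctx n rs Y X ℓ v lb ρ ρE)
    (k : ℕ) (hk : k < (mkZ rs Y X ℓ v lb ρ ρE).L) :
    (∃ a j, a ≤ X.L ∧ j < ℓ a ∧ k = los ℓ a + j ∧ (mkZ rs Y X ℓ v lb ρ ρE).p k = a ∧
      (mkZ rs Y X ℓ v lb ρ ρE).p (k+1) = a ∧ (mkZ rs Y X ℓ v lb ρ ρE).lab k = lb a j) ∨
    (∃ a, a < X.L ∧ k = los ℓ a + ℓ a ∧ k + 1 = los ℓ (a+1) ∧ (mkZ rs Y X ℓ v lb ρ ρE).p k = a ∧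
      (mkZ rs Y X ℓ v lb ρ ρE).p (k+1) = a + 1 ∧ (∀ t, (mkZ rs Y X ℓ v lb ρ ρE).ty t k = X.ty t a) ∧
      (mkZ rs Y X ℓ v lb ρ ρE).lab k = X.lab a ∧ (∀ t, (mkZ rs Y X ℓ v lb ρ ρE).h t k = sv n rs Y X a (a+1) t) ∧
      ∀ t, (mkZ rs Y X ℓ v lb ρ ρE).h t (k+1) = sv n rs Y X (a+1) a t) := by
  obtain ⟨a, j, ha, hj, hkj⟩ := g1_mkZ_ex rs Y X ℓ v lb ρ ρE k hk.le
  have hlab : (mkZ rs Y X ℓ v lb ρ ρE).lab k
      = if (mkZ rs Y X ℓ v lb ρ ρE).p k ≠ (mkZ rs Y X ℓ v lb ρ ρE).p (k+1)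
        then X.lab ((mkZ rs Y X ℓ v lb ρ ρE).p k)
        else lb ((mkZ rs Y X ℓ v lb ρ ρE).p k) (k - los ℓ ((mkZ rs Y X ℓ v lb ρ ρE).p k)) := rfl
  have hty : ∀ t, (mkZ rs Y X ℓ v lb ρ ρE).ty t k
      = if (mkZ rs Y X ℓ v lb ρ ρE).p k ≠ (mkZ rs Y X ℓ v lb ρ ρE).p (k+1)
        then X.ty t ((mkZ rs Y X ℓ v lb ρ ρE).p k)
        else if (mkZ rs Y X ℓ v lb ρ ρE).h t k = (mkZ rs Y X ℓ v lb ρ ρE).h t (k+1) then 0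
        else X.ty t (min ((mkZ rs Y X ℓ v lb ρ ρE).h t k) ((mkZ rs Y X ℓ v lb ρ ρE).h t (k+1))) + 1 :=
    fun t => rfl
  obtain ⟨q1, q2, q3⟩ := g_at n rs Y X ℓ v lb ρ ρE hC a ha j hj
  rw [← hkj] at q1 q2 q3
  rcases Nat.lt_or_ge j (ℓ a) with h | h
  · left
    have p2 : (mkZ rs Y X ℓ v lb ρ ρE).p (k+1) = a := by
      have := g1_mkZ_p rs Y X ℓ v lb ρ ρE a ha (j+1) h
      rw [← Nat.add_assoc, ← hkj] at this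
      exact this
    refine ⟨a, j, ha, h, hkj, q2, p2, ?_⟩
    rw [hlab, if_neg (by rw [q2, p2]; simp), q2, hkj, Nat.add_sub_cancel_left]
  · right
    have hjl : j = ℓ a := by omega
    subst hjl
    have haL : a < X.L := by
      rcases Nat.lt_or_ge a X.L with h' | h'
      · exact h'
      · have : a = X.L := by omega
        subst this
        rw [g1_mkZ_L] at hk
        omega
    have hk1 : k + 1 = los ℓ (a+1) := by rw [g1_los_succ, hkj]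
    obtain ⟨r1, r2, r3⟩ := g_at n rs Y X ℓ v lb ρ ρE hC (a+1) haL 0 (Nat.zero_le _)
    rw [Nat.add_zero, ← hk1] at r1 r2 r3
    have hne : (mkZ rs Y X ℓ v lb ρ ρE).p k ≠ (mkZ rs Y X ℓ v lb ρ ρE).p (k+1) := by
      rw [q2, r2]; omega
    refine ⟨a, haL, hkj, hk1, q2, r2, ?_, ?_, ?_, ?_⟩
    · intro t
      rw [hty, if_pos hne, q2]
    · rw [hlab, if_pos hne, q2]
    · intro t
      rw [q3 t, (hC.loc a ha).fin haL]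
    · intro t
      rw [r3 t, (hC.loc (a+1) haL).start (Nat.succ_pos a), Nat.add_sub_cancel]

end CP
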