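import Pool.Agent.B595.Tow.G1

set_option autoImplicit false
namespace CP

theorem aux_pick (x y : Fin 3) : pick x y = pick y x := by
  revert x y
  decide

theorem aux_move (n : ℕ) (Y X : Lev) (hI : Inv n Y X) (a : ℕ) (ha : a < X.L) (t : Bool) (b b' : ℕ)
    (hb : (b = a ∧ b' = a + 1) ∨ (b = a + 1 ∧ b' = a)) :
    X.h t b ≤ Y.L ∧ X.h t b' ≤ Y.L ∧ (X.ty t a = 0 → X.h t b = X.h t b') ∧
    (1 ≤ X.ty t a → Ad (X.h t b) (X.h t b') ∧
      X.ty (!t) a = Y.ty (!t) (min (X.h t b) (X.h t b')) ∧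
      (X.lab a = !t → Y.lab (min (X.h t b) (X.h t b')) = !t)) := by
  have h1 := hI.hmemX t a (by omega)
  have h2 := hI.hmemX t (a+1) (by omega)
  have h3 : X.ty t a = 0 → X.h t a = X.h t (a+1) := by
    intro h
    by_contra hne
    have := (hI.mv1 t a ha hne).1
    omega
  have h4 : 1 ≤ X.ty t a → Ad (X.h t a) (X.h t (a+1)) ∧
      X.ty (!t) a = Y.ty (!t) (min (X.h t a) (X.h t (a+1))) ∧
      (X.lab a = !t → Y.lab (min (X.h t a) (X.h t (a+1))) = !t) := by
    intro h
    have hne : X.h t a ≠ X.h t (a+1) := by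
      intro he
      have := hI.mv0 t a ha he
      omega
    obtain ⟨-, e2, e3⟩ := hI.mv1 t a ha hne
    exact ⟨(hI.hlip t a ha).resolve_left hne, e2, e3⟩
  rcases hb with ⟨rfl, rfl⟩ | ⟨rfl, rfl⟩
  · exact ⟨h1, h2, h3, h4⟩
  · refine ⟨h2, h1, fun h => (h3 h).symm, fun h => ?_⟩
    obtain ⟨e1, e2, e3⟩ := h4 h
    rw [min_comm]
    exact ⟨e1.symm, e2, e3⟩

theorem aux_lift (n : ℕ) (Y X : Lev) (hI : Inv n Y X) (y y' : ℕ) (hy : y ≤ Y.L) (hy' : y' ≤ Y.L)
    (h : Ad y y') (t : Bool) :
    (Y.ty t (min y y') = 0 → X.h t (ex X y y') = X.h t (ex X y' y)) ∧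
    (1 ≤ Y.ty t (min y y') → X.h t (ex X y y') = ex Y (Y.h t y) (Y.h t y')) := by
  obtain ⟨f1, f2, f3, f4, f5, f6, f7⟩ := lift_edge n Y X hI y y' hy hy' h
  obtain ⟨k, hk⟩ : ∃ k, k = min (ex X y y') (ex X y' y) := ⟨_, rfl⟩
  rw [← hk] at f4 f5 f6 f7
  have hcase : (ex X y y' = k ∧ ex X y' y = k + 1) ∨ (ex X y y' = k + 1 ∧ ex X y' y = k) := by
    rcases f3 with f3 | f3
    · left; omega
    · right; omega
  constructor
  · intro h0
    have h1 : X.ty t k = 0 := by rw [f6 t]; exact h0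
    have h2 : X.h t k = X.h t (k+1) := by
      by_contra hne
      have := (hI.mv1 t k f4 hne).1
      omega
    rcases hcase with ⟨c1, c2⟩ | ⟨c1, c2⟩
    · rw [c1, c2]; exact h2
    · rw [c1, c2]; exact h2.symm
  · intro h0
    have h1 : 1 ≤ X.ty t k := by rw [f6 t]; exact h0
    have hne : X.h t k ≠ X.h t (k+1) := by
      intro he
      have := hI.mv0 t k f4 he
      omega
    have hAd := (hI.hlip t k f4).resolve_left hne
    have hAd' : Ad (X.h t (ex X y y')) (X.h t (ex X y' y)) := by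
      rcases hcase with ⟨c1, c2⟩ | ⟨c1, c2⟩
      · rw [c1, c2]; exact hAd
      · rw [c1, c2]; exact hAd.symm
    have hLp := hI.hLp
    obtain ⟨q1, q2⟩ := hI.FX.fibp y (by omega) _ f1
    obtain ⟨q1', q2'⟩ := hI.FX.fibp y' (by omega) _ f2
    have r1 := hI.com_p t _ q1
    have r2 := hI.com_p t _ q1'
    rw [q2] at r1
    rw [q2'] at r2
    have m1 := hI.hmemX t _ q1
    have m2 := hI.hmemX t _ q1'
    obtain ⟨s1, s2⟩ := hI.FY.pfib _ m1
    obtain ⟨s1', s2'⟩ := hI.FY.pfib _ m2
    rw [r1] at s1 s2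
    rw [r2] at s1' s2'
    -- Y.h t y and Y.h t y' adjacent
    have hYAd : Ad (Y.h t y) (Y.h t y') := by
      rcases h with h | h
      · subst h
        rw [show min y (y+1) = y by omega] at h0
        refine (hI.hlipY t y (by omega)).resolve_left ?_
        intro he
        have := hI.mv0Y t y (by omega) he
        omega
      · subst h
        rw [show min (y'+1) y' = y' by omega] at h0
        refine Or.symm ((hI.hlipY t y' (by omega)).resolve_left ?_)
        intro he
        have := hI.mv0Y t y' (by omega) he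
        omega
    unfold fib at s2 s2'
    rcases hYAd with hz | hz
    · have hn := hI.FY.next (Y.h t y) (by omega)
      rw [hz] at s2'
      have : ex Y (Y.h t y) (Y.h t y') = Y.hi (Y.h t y) := by
        unfold ex
        rw [if_pos (by omega)]
      rw [this]
      rcases hAd' with h5 | h5 <;> omega
    · have hn := hI.FY.next (Y.h t y') (by omega)
      rw [hz] at s2
      have : ex Y (Y.h t y) (Y.h t y') = Y.lo (Y.h t y) := by
        unfold ex
        rw [if_neg (by omega)]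
      rw [this, hz]
      rcases hAd' with h5 | h5 <;> omega

theorem aux_sv (n : ℕ) (rs : Bool) (Y X : Lev) (hI : Inv n Y X) (a : ℕ) (ha : a < X.L) (b b' : ℕ)
    (hb : (b = a ∧ b' = a + 1) ∨ (b = a + 1 ∧ b' = a)) (t0 : Bool) (ht0 : t0 = X.lab a)
    (hs : 1 ≤ X.ty true a + X.ty false a) :
    sv n rs Y X b b' t0 = ex X (X.h t0 b) (X.h t0 b') ∧
    (X.ty (!t0) a = 0 → sv n rs Y X b b' (!t0) =
      X.R t0 (kk rs X t0 a) (X.h (!t0) b) (X.h (!t0) (ex X (X.h t0 b) (X.h t0 b')))) ∧
    (1 ≤ X.ty (!t0) a → sv n rs Y X b b' (!t0) = ex X (X.h (!t0) b) (X.h (!t0) b')) := by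
  have hmin : min b b' = a := by omega
  have hsv : sv n rs Y X b b' = cv X t0 (rd rs X b b') (ex X (X.h t0 b) (X.h t0 b')) := by
    unfold sv
    rw [hmin, if_neg (by omega), ← ht0]
  have hlab := hI.lab1 a ha hs
  rw [← ht0] at hlab
  have hcv : sv n rs Y X b b' (!t0) = rd rs X b b' (X.h (!t0) (ex X (X.h t0 b) (X.h t0 b'))) := by
    rw [hsv]
    unfold cv
    rw [if_neg (by cases t0 <;> simp)]
  refine ⟨?_, ?_, ?_⟩
  · rw [hsv]
    unfold cv
    rw [if_pos rfl]
  · intro h
    rw [hcv]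
    unfold rd
    rw [hmin, ← ht0, if_pos h]
  · intro h
    rw [hcv]
    have hrd : rd rs X b b' = X.ER (X.h (!t0) b) (X.h (!t0) b') := by
      unfold rd
      rw [hmin, ← ht0, if_neg (by omega)]
    rw [hrd]
    obtain ⟨a1, a2, -, a4⟩ := aux_move n Y X hI a ha t0 b b' hb
    obtain ⟨a5, a6, a7⟩ := a4 hlab
    obtain ⟨c1, c2, -, c4⟩ := aux_move n Y X hI a ha (!t0) b b' hb
    obtain ⟨c5, c6, c7⟩ := c4 h
    rw [Bool.not_not] at c6 c7
    have hbx : b ≤ X.L := by omega
    have hbx' : b' ≤ X.L := by omega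
    have hl := (aux_lift n Y X hI _ _ a1 a2 a5 (!t0)).2 (by rw [← a6]; exact h)
    have k1 := hI.com_h t0 b hbx
    have k2 := hI.com_h t0 b' hbx'
    rw [hl, ← k1, ← k2]
    have hle : 1 ≤ Y.ty true (min (X.h (!t0) b) (X.h (!t0) b')) +
        Y.ty false (min (X.h (!t0) b) (X.h (!t0) b')) := by
      have : 1 ≤ Y.ty t0 (min (X.h (!t0) b) (X.h (!t0) b')) := by rw [← c6]; exact hlab
      cases t0 <;> omega
    exact (hI.ends _ _ c1 c2 c5 t0 (c7 ht0.symm).symm hle).2.1

theorem bridge (n : ℕ) (rs : Bool) (Y X : Lev) (hI : Inv n Y X) (hrs : rs = true → 1 ≤ n) (a : ℕ) (ha : a < X.L)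
    (t : Bool) : (X.ty t a = 0 → sv n rs Y X a (a+1) t = sv n rs Y X (a+1) a t) ∧
    (1 ≤ X.ty t a → sv n rs Y X a (a+1) t = ex X (X.h t a) (X.h t (a+1)) ∧
      sv n rs Y X (a+1) a t = ex X (X.h t (a+1)) (X.h t a)) := by
  by_cases hs : X.ty true a + X.ty false a = 0
  · have hall : ∀ t, X.ty t a = 0 := by intro t; cases t <;> omega
    have hh : ∀ t, X.h t a = X.h t (a+1) := fun t =>
      (aux_move n Y X hI a ha t a (a+1) (Or.inl ⟨rfl, rfl⟩)).2.2.1 (hall t)
    constructor
    · intro _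
      have e1 : sv n rs Y X a (a+1) = hub n rs Y X a := by
        unfold sv
        rw [show min a (a+1) = a by omega, if_pos hs]
      have e2 : sv n rs Y X (a+1) a = hub n rs Y X (a+1) := by
        unfold sv
        rw [show min (a+1) a = a by omega, if_pos hs]
      rw [e1, e2]
      unfold hub
      have e3 : dst n Y X a = dst n Y X (a+1) := by
        unfold dst dd
        rw [hh false]
      have e4 : jh rs X (!t) a = jh rs X (!t) (a+1) := by
        unfold jh
        cases hr : rs with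
        | false => simp
        | true =>
          have hn := hrs hr
          have n1 : nb X a = a + 1 := by
            unfold nb
            rw [if_pos ⟨ha, hs⟩]
          have n2 : nb X (a+1) = a := by
            unfold nb
            have hno : ¬ (a + 1 < X.L ∧ X.ty true (a+1) + X.ty false (a+1) = 0) := by
              rintro ⟨h1, h2⟩
              have p1 : X.p a ≠ X.p (a+1) := by
                intro he
                have := hI.new a ha he
                omega
              have p2 : X.p (a+1) ≠ X.p (a+1+1) := by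
                intro he
                have := hI.new (a+1) h1 he
                omega
              obtain ⟨u1, u2⟩ := hI.FX.pfib (a+1) (by omega)
              have hth := hI.thickX (X.p (a+1)) (by rw [← hI.hLp]; exact u1)
              unfold fib at u2
              by_cases hlo : X.lo (X.p (a+1)) ≤ a
              · exact p1 (hI.FX.fibp _ u1 a ⟨hlo, by omega⟩).2
              · exact p2 (hI.FX.fibp _ u1 (a+1+1) ⟨by omega, by omega⟩).2.symm
            rw [if_neg hno, if_pos ⟨by omega, by rw [show a + 1 - 1 = a by omega]; exact hs⟩]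
            omega
          rw [n1, n2]
          simp only [if_true]
          exact aux_pick _ _
      rw [e3, e4, hh t]
    · intro h
      have := hall t
      omega
  · have hs' : 1 ≤ X.ty true a + X.ty false a := by omega
    obtain ⟨t0, ht0⟩ : ∃ t0, t0 = X.lab a := ⟨_, rfl⟩
    have hlab := hI.lab1 a ha hs'
    rw [← ht0] at hlab
    obtain ⟨v1, v2, v3⟩ := aux_sv n rs Y X hI a ha a (a+1) (Or.inl ⟨rfl, rfl⟩) t0 ht0 hs'
    obtain ⟨w1, w2, w3⟩ := aux_sv n rs Y X hI a ha (a+1) a (Or.inr ⟨rfl, rfl⟩) t0 ht0 hs'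
    have ht : t = t0 ∨ t = !t0 := by cases t <;> cases t0 <;> simp
    rcases ht with rfl | rfl
    · exact ⟨fun h => by omega, fun _ => ⟨v1, w1⟩⟩
    · refine ⟨fun h => ?_, fun h => ⟨v3 h, w3 h⟩⟩
      rw [v2 h, w2 h]
      obtain ⟨a1, a2, -, a4⟩ := aux_move n Y X hI a ha t0 a (a+1) (Or.inl ⟨rfl, rfl⟩)
      obtain ⟨a5, a6, a7⟩ := a4 hlab
      have e1 := (aux_move n Y X hI a ha (!t0) a (a+1) (Or.inl ⟨rfl, rfl⟩)).2.2.1 h
      have e2 := (aux_lift n Y X hI _ _ a1 a2 a5 (!t0)).1 (by rw [← a6]; exact h)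
      rw [e1, e2]

end CP
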