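import Pool.Agent.B595.Tow.G2

set_option autoImplicit false
namespace CP

/-- a step of the walk moves the t-coordinate, and the other coordinate stays or follows a t-run -/
theorem st_move (n : ℕ) (rs : Bool) (Y X : Lev) (hI : Inv n Y X) (a : ℕ) (ha : a ≤ X.L) (t : Bool) (w w' : Bool → ℕ)
    (hs : St rs X a t w w') :
    InG X a w ∧ InG X a w' ∧ Ad (w t) (w' t) ∧ min (w t) (w' t) < X.L ∧ X.p (w t) = X.h t a ∧ X.p (w' t) = X.h t a ∧
    ((w (!t) = w' (!t) ∧ X.ty (!t) (min (w t) (w' t)) = 0) ∨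
      (Ad (w (!t)) (w' (!t)) ∧ min (w (!t)) (w' (!t)) < X.L ∧ X.h (!t) (w t) ≠ X.h (!t) (w' t) ∧
        X.lab (min (w (!t)) (w' (!t))) = t ∧
        X.ty (!t) (min (w t) (w' t)) = X.ty (!t) (min (w (!t)) (w' (!t))) + 1 ∧
        X.ty t (min (w (!t)) (w' (!t))) = X.ty t (min (w t) (w' t)) + 1)) := by
  obtain ⟨r, hr, b, b', hb, hb', hA, rfl, rfl⟩ := hs
  have hsec := al_sec n rs Y X hI a ha t r hr
  have hyt : X.h t a ≤ X.Lp := by rw [hI.hLp]; exact hI.hmemX t a ha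
  have hynt : X.h (!t) a ≤ X.Lp := by rw [hI.hLp]; exact hI.hmemX (!t) a ha
  obtain ⟨hbL, hbp⟩ := hI.FX.fibp _ hyt b hb
  obtain ⟨hbL', hbp'⟩ := hI.FX.fibp _ hyt b' hb'
  have hne : (!t) ≠ t := by cases t <;> decide
  have e1 : cv X t r b t = b := by simp [cv]
  have e2 : cv X t r b' t = b' := by simp [cv]
  have e3 : cv X t r b (!t) = r (X.h (!t) b) := by simp [cv, hne]
  have e4 : cv X t r b' (!t) = r (X.h (!t) b') := by simp [cv, hne]
  -- symmetric form of the moves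
  have mv : ∀ s c c', Ad c c' → c ≤ X.L → c' ≤ X.L →
      (X.h s c = X.h s c' ∧ X.ty s (min c c') = 0) ∨
      (Ad (X.h s c) (X.h s c') ∧
        X.ty s (min c c') = Y.ty s (min (X.h s c) (X.h s c')) + 1 ∧
        X.ty (!s) (min c c') = Y.ty (!s) (min (X.h s c) (X.h s c'))) := by
    intro s c c' hcc hc hc'
    rcases hcc with h | h
    · subst h
      have hk : c < X.L := by omega
      have hm : min c (c+1) = c := by omega
      rw [hm]
      by_cases heq : X.h s c = X.h s (c+1)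
      · exact Or.inl ⟨heq, hI.mv0 s c hk heq⟩
      · refine Or.inr ⟨?_, (hI.mv1 s c hk heq).1, (hI.mv1 s c hk heq).2.1⟩
        rcases hI.hlip s c hk with h1 | h1
        · exact absurd h1 heq
        · exact h1
    · subst h
      have hk : c' < X.L := by omega
      have hm : min (c'+1) c' = c' := by omega
      rw [hm]
      by_cases heq : X.h s c' = X.h s (c'+1)
      · exact Or.inl ⟨heq.symm, hI.mv0 s c' hk heq⟩
      · rw [min_comm (X.h s (c'+1)) (X.h s c')]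
        refine Or.inr ⟨?_, (hI.mv1 s c' hk heq).1, (hI.mv1 s c' hk heq).2.1⟩
        rcases hI.hlip s c' hk with h1 | h1
        · exact absurd h1 heq
        · exact h1.symm
  have secs : ∀ c c', Ad c c' → fib Y (Y.h t (X.h (!t) a)) c → fib Y (Y.h t (X.h (!t) a)) c' →
      Ad (r c) (r c') ∧ X.lab (min (r c) (r c')) = t := by
    intro c c' hcc hc hc'
    rcases hcc with h | h
    · subst h; exact hsec.2 c hc hc'
    · subst h
      have := hsec.2 c' hc' hc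
      rw [min_comm]
      exact ⟨this.1.symm, this.2⟩
  have hAmin : ∀ c c', Ad c c' → c ≤ X.L → c' ≤ X.L → min c c' < X.L := by
    intro c c' h h1 h2
    rcases h with h | h <;> omega
  rw [e1, e2, e3, e4]
  refine ⟨cv_inG n Y X hI a ha t r hsec b hb, cv_inG n Y X hI a ha t r hsec b' hb', hA,
    hAmin b b' hA hbL hbL', hbp, hbp', ?_⟩
  have hf := h_fib n Y X hI a ha t b hb
  have hf' := h_fib n Y X hI a ha t b' hb'
  rcases mv (!t) b b' hA hbL hbL' with ⟨h1, h2⟩ | ⟨h1, h2, h3⟩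
  · left
    exact ⟨by rw [h1], h2⟩
  · right
    obtain ⟨g1, g2⟩ := secs _ _ h1 hf hf'
    have hr1 := hsec.1 _ hf
    have hr2 := hsec.1 _ hf'
    have hL1 := (hI.FX.fibp _ hynt _ hr1.1).1
    have hL2 := (hI.FX.fibp _ hynt _ hr2.1).1
    have hcne : X.h (!t) b ≠ X.h (!t) b' := by
      intro h
      rcases h1 with h' | h' <;> omega
    rw [Bool.not_not] at h3
    refine ⟨g1, hAmin _ _ g1 hL1 hL2, hcne, g2, ?_⟩
    rcases mv t _ _ g1 hL1 hL2 with ⟨k1, k2⟩ | ⟨k1, k2, k3⟩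
    · rw [hr1.2, hr2.2] at k1
      exact absurd k1 hcne
    · rw [hr1.2, hr2.2] at k2 k3
      rw [h2, h3, k2, k3]
      exact ⟨rfl, rfl⟩

theorem g_new (n : ℕ) (rs : Bool) (Y X : Lev) (ℓ : ℕ → ℕ) (v : ℕ → ℕ → Bool → ℕ) (lb : ℕ → ℕ → Bool)
    (ρ : ℕ → Bool → Fin 3 → ℕ → ℕ) (ρE : ℕ → ℕ → ℕ → ℕ) (hC : Ctx n rs Y X ℓ v lb ρ ρE)
    (a j : ℕ) (ha : a ≤ X.L) (hj : j < ℓ a) (t : Bool) (ht : t = lb a j) :
    (mkZ rs Y X ℓ v lb ρ ρE).ty t (los ℓ a + j) = X.ty t (min (v a j t) (v a (j+1) t)) + 1 ∧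
    (mkZ rs Y X ℓ v lb ρ ρE).ty (!t) (los ℓ a + j) = X.ty (!t) (min (v a j t) (v a (j+1) t)) := by
  have hty : ∀ s k, (mkZ rs Y X ℓ v lb ρ ρE).ty s k =
      if (mkZ rs Y X ℓ v lb ρ ρE).p k ≠ (mkZ rs Y X ℓ v lb ρ ρE).p (k+1) then
        X.ty s ((mkZ rs Y X ℓ v lb ρ ρE).p k) else
      if (mkZ rs Y X ℓ v lb ρ ρE).h s k = (mkZ rs Y X ℓ v lb ρ ρE).h s (k+1) then 0 else
        X.ty s (min ((mkZ rs Y X ℓ v lb ρ ρE).h s k) ((mkZ rs Y X ℓ v lb ρ ρE).h s (k+1))) + 1 :=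
    fun s k => rfl
  obtain ⟨-, p1, h1⟩ := g_at n rs Y X ℓ v lb ρ ρE hC a ha j hj.le
  obtain ⟨-, p2, h2⟩ := g_at n rs Y X ℓ v lb ρ ρE hC a ha (j+1) hj
  rw [← Nat.add_assoc] at p2 h2
  have hst := (hC.loc a ha).step j hj
  rw [← ht] at hst
  obtain ⟨-, -, hA, -, -, -, hcase⟩ := st_move n rs Y X hC.inv a ha t _ _ hst
  have hAne : v a j t ≠ v a (j+1) t := by
    intro h
    rcases hA with h' | h' <;> omega
  constructor
  · rw [hty, p1, p2, h1, h2, if_neg (by simp), if_neg hAne]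
  · rw [hty, p1, p2, h1, h2, if_neg (by simp)]
    rcases hcase with ⟨c1, c2⟩ | ⟨c1, -, -, -, c2, -⟩
    · rw [if_pos c1, c2]
    · have hne' : v a j (!t) ≠ v a (j+1) (!t) := by
        intro h
        rcases c1 with h' | h' <;> omega
      rw [if_neg hne', c2]

end CP
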