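import Pool.Agent.B595.Tow.TDefs

set_option autoImplicit false
namespace CP

/-- one level `V = {0..L}` of the tower, with its maps to the previous level `{0..Lp}`.
`p` projection, `h true`, `h false` the two commuting maps; edge `k` = pair `(k,k+1)`, `k < L`, has type
`(ty true k, ty false k)` and label `lab k`; `lo y, hi y` = the fibre of `p` over `y`;
`R t i y` = designated `t`-runs (sections of `h t`) in the fibre over `y`; `ER y y'` the end run of the fibre over `y`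
next to the fibre over the neighbour `y'`; `S t x` : `x` is on a designated `t`-curve; `col`,`ga` colours. -/
structure Lev where
  L : ℕ
  Lp : ℕ
  p : ℕ → ℕ
  h : Bool → ℕ → ℕ
  ty : Bool → ℕ → ℕ
  lab : ℕ → Bool
  lo : ℕ → ℕ
  hi : ℕ → ℕ
  R : Bool → Fin 3 → ℕ → ℕ → ℕ
  ER : ℕ → ℕ → ℕ → ℕ
  S : Bool → ℕ → Prop
  col : Bool → ℕ → Fin 3
  ga : Bool → ℕ → Fin 3

/-- adjacent integers -/
def Ad (a b : ℕ) : Prop := b = a + 1 ∨ a = b + 1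

/-- x is in the fibre over y -/
def fib (X : Lev) (y x : ℕ) : Prop := X.lo y ≤ x ∧ x ≤ X.hi y

/-- extreme vertex of the fibre over y towards y' -/
def ex (X : Lev) (y y' : ℕ) : ℕ := if y < y' then X.hi y else X.lo y

structure Fibs (X : Lev) : Prop where
  lo0 : X.lo 0 = 0
  hiL : X.hi X.Lp = X.L
  lohi : ∀ y, y ≤ X.Lp → X.lo y ≤ X.hi y
  next : ∀ y, y < X.Lp → X.lo (y+1) = X.hi y + 1
  pfib : ∀ x, x ≤ X.L → X.p x ≤ X.Lp ∧ fib X (X.p x) x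
  fibp : ∀ y, y ≤ X.Lp → ∀ x, fib X y x → x ≤ X.L ∧ X.p x = y

/-- r is a t-run in the fibre (in X) over y (in Y) : a section of `h t` over the fibre (in Y) over `h t y` -/
def Sec (Y X : Lev) (t : Bool) (y : ℕ) (r : ℕ → ℕ) : Prop :=
  (∀ b, fib Y (Y.h t y) b → fib X y (r b) ∧ X.h t (r b) = b) ∧
  (∀ b, fib Y (Y.h t y) b → fib Y (Y.h t y) (b+1) →
    Ad (r b) (r (b+1)) ∧ X.lab (min (r b) (r (b+1))) = t)

/-- X = V_n over Y = V_{n-1} -/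
structure Inv (n : ℕ) (Y X : Lev) : Prop where
  hLp : X.Lp = Y.L
  FY : Fibs Y
  FX : Fibs X
  thickX : ∀ y, y ≤ Y.L → X.lo y + 2 ≤ X.hi y
  thickY : 1 ≤ n → ∀ y, y ≤ Y.Lp → Y.lo y + 2 ≤ Y.hi y
  hmemX : ∀ t x, x ≤ X.L → X.h t x ≤ Y.L
  hmemY : ∀ t y, y ≤ Y.L → Y.h t y ≤ Y.Lp
  com_p : ∀ t x, x ≤ X.L → Y.p (X.h t x) = Y.h t (X.p x)
  com_h : ∀ t x, x ≤ X.L → Y.h t (X.h (!t) x) = Y.h (!t) (X.h t x)
  mv0Y : ∀ t k, k < Y.L → Y.h t k = Y.h t (k+1) → Y.ty t k = 0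
  hlipY : ∀ t k, k < Y.L → Y.h t k = Y.h t (k+1) ∨ Ad (Y.h t k) (Y.h t (k+1))
  hlip : ∀ t k, k < X.L → X.h t k = X.h t (k+1) ∨ Ad (X.h t k) (X.h t (k+1))
  old : ∀ k, k < X.L → X.p k ≠ X.p (k+1) → (∀ t, X.ty t k = Y.ty t (X.p k)) ∧ X.lab k = Y.lab (X.p k)
  new : ∀ k, k < X.L → X.p k = X.p (k+1) → X.ty true k + X.ty false k = n
  mv0 : ∀ t k, k < X.L → X.h t k = X.h t (k+1) → X.ty t k = 0
  mv1 : ∀ t k, k < X.L → X.h t k ≠ X.h t (k+1) →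
    X.ty t k = Y.ty t (min (X.h t k) (X.h t (k+1))) + 1 ∧
    X.ty (!t) k = Y.ty (!t) (min (X.h t k) (X.h t (k+1))) ∧
    (X.lab k = !t → Y.lab (min (X.h t k) (X.h t (k+1))) = !t)
  lab1 : ∀ k, k < X.L → 1 ≤ X.ty true k + X.ty false k → 1 ≤ X.ty (X.lab k) k
  adjX : ∀ k, k + 1 < X.L → X.p k = X.p (k+1) → X.p (k+1) = X.p (k+2) →
    X.ty true k ≤ X.ty true (k+1) + 1 ∧ X.ty true (k+1) ≤ X.ty true k + 1
  adjY : ∀ k, k + 1 < Y.L → Y.p k = Y.p (k+1) → Y.p (k+1) = Y.p (k+2) →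
    Y.ty true k ≤ Y.ty true (k+1) + 1 ∧ Y.ty true (k+1) ≤ Y.ty true k + 1
  turn : 2 ≤ n → ∀ k, k + 1 < X.L → X.p k = X.p (k+1) → X.p (k+1) = X.p (k+2) →
    (∃ t, X.ty t k = 0 ∨ X.ty t (k+1) = 0) → X.lab k = X.lab (k+1)
  /-- e an old edge, u a new edge, next to each other -/
  oldnew : ∀ e u, e < X.L → u < X.L → Ad e u → X.p e ≠ X.p (e+1) → X.p u = X.p (u+1) →
    (1 ≤ X.ty true e + X.ty false e → 1 ≤ X.ty (X.lab e) u) ∧
    (X.ty true e + X.ty false e = 0 → 2 ≤ n → ∀ t, 1 ≤ X.ty t u)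
  runs : ∀ t i y, y ≤ Y.L → Sec Y X t y (X.R t i y) ∧
    ∀ b, fib Y (Y.h t y) b → X.S t (X.R t i y b) ∧ X.ga t (X.R t i y b) = i
  ends : ∀ y y', y ≤ Y.L → y' ≤ Y.L → Ad y y' → ∀ t, t = Y.lab (min y y') →
    1 ≤ Y.ty true (min y y') + Y.ty false (min y y') →
    Sec Y X t y (X.ER y y') ∧ X.ER y y' (ex Y (Y.h t y) (Y.h t y')) = ex X y y' ∧
    (Y.ty (!t) (min y y') = 0 → ∀ b, fib Y (Y.h t y) b → X.S t (X.ER y y' b))

/-- relation between three consecutive levels Y = V_{n-1}, X = V_n, Z = V_{n+1}; rs : V_{n+1} is a reset level -/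
structure Rel (rs : Bool) (Y X Z : Lev) : Prop where
  cover : ∀ x, x ≤ Z.L → (∃ t, Z.S t x) ∨
    ∃ y' t, y' ≤ X.L ∧ Ad (Z.p x) y' ∧ t = X.lab (min (Z.p x) y') ∧
      1 ≤ X.ty true (min (Z.p x) y') ∧ 1 ≤ X.ty false (min (Z.p x) y') ∧
      ∃ b, fib Y (Y.h t (X.h (!t) (Z.p x))) b ∧
        Z.h (!t) x = X.ER (X.h (!t) (Z.p x)) (X.h (!t) y') b
  sinh : ∀ t x, x ≤ Z.L → Z.S t x → X.S t (Z.h (!t) x)
  nores : rs = false → ∀ t x, x ≤ Z.L → Z.col t x = X.col t (Z.p x) ∧ Z.ga t x = X.ga t (Z.h (!t) x)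
  res : rs = true → ∀ t x, x ≤ Z.L → Z.col t x = Z.ga t x ∧
    (Z.S t x → X.ga t (Z.h (!t) x) ≠ X.col t (Z.p x))


/-- the tower: `V n` is the n-th level -/
structure Tow (V : ℕ → Lev) (rs : ℕ → Bool) : Prop where
  base0 : ∀ t k, k < (V 0).L → (V 0).ty t k = 0
  inv : ∀ n, Inv (n+1) (V n) (V (n+1))
  rel : ∀ n, Rel (rs n) (V n) (V (n+1)) (V (n+2))
  sched : ∀ N, 1 ≤ N → ∃ m, rs m = true ∧ rs (m+N) = true ∧ ∀ j, 0 < j → j < N → rs (m+j) = false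

/-- integer threads -/
def Thr (V : ℕ → Lev) (z : ℕ → ℕ) : Prop := (∀ n, z n ≤ (V n).L) ∧ ∀ n, (V (n+1)).p (z (n+1)) = z n

/-- the maps as families -/
def H (V : ℕ → Lev) (t : Bool) : ℕ → ℕ → ℕ := fun n => (V (n+1)).h t

/-- k is an edge of `V n` at the vertex x -/
def At (V : ℕ → Lev) (n k x : ℕ) : Prop := k < (V n).L ∧ (k = x ∨ k + 1 = x)

/-- N-periodic thread for both maps -/
def Per (V : ℕ → Lev) (N : ℕ) (z : ℕ → ℕ) : Prop := Thr V z ∧ ∀ t, (sh (H V t))^[N] z = z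

/-! ### the step construction -/

/-- point of the t-curve of the t-section r, with t-coordinate b -/
def cv (X : Lev) (t : Bool) (r : ℕ → ℕ) (b : ℕ) : Bool → ℕ := fun t' => if t' = t then b else r (X.h (!t) b)

/-- admissible colours over a -/
def okc (rs : Bool) (X : Lev) (t : Bool) (a : ℕ) (i : Fin 3) : Prop := rs = true → i ≠ X.col t a

/-- allowed t-sections over a (sections of `h t` in the fibre over `h (!t) a`) -/
def Al (rs : Bool) (X : Lev) (a : ℕ) (t : Bool) (r : ℕ → ℕ) : Prop :=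
  (∃ i, okc rs X t a i ∧ r = X.R t i (X.h (!t) a)) ∨
  (∃ a', a' ≤ X.L ∧ Ad a a' ∧ t = X.lab (min a a') ∧ 1 ≤ X.ty true (min a a') ∧ 1 ≤ X.ty false (min a a') ∧
    r = X.ER (X.h (!t) a) (X.h (!t) a'))

/-- one step, with label t, of the walk over a -/
def St (rs : Bool) (X : Lev) (a : ℕ) (t : Bool) (w w' : Bool → ℕ) : Prop :=
  ∃ r, Al rs X a t r ∧ ∃ b b', fib X (X.h t a) b ∧ fib X (X.h t a) b' ∧ Ad b b' ∧
    w = cv X t r b ∧ w' = cv X t r b'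

/-- the bottom fibre below a -/
def dd (Y X : Lev) (a : ℕ) : ℕ := Y.h true (X.h false a)

/-- places where labels may change -/
def JJ (n : ℕ) (Y X : Lev) (a : ℕ) (w : Bool → ℕ) : Prop :=
  n = 0 ∨ (Y.lo (dd Y X a) < X.h false (w true) ∧ X.h false (w true) < Y.hi (dd Y X a))

def pick (x y : Fin 3) : Fin 3 := if x ≠ 0 ∧ y ≠ 0 then 0 else if x ≠ 1 ∧ y ≠ 1 then 1 else 2

/-- the other end of a base edge at a -/
def nb (X : Lev) (a : ℕ) : ℕ :=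
  if a < X.L ∧ X.ty true a + X.ty false a = 0 then a + 1
  else if 0 < a ∧ X.ty true (a-1) + X.ty false (a-1) = 0 then a - 1 else a

def jh (rs : Bool) (X : Lev) (t : Bool) (a : ℕ) : Fin 3 := if rs then pick (X.col t a) (X.col t (nb X a)) else 0
def kk (rs : Bool) (X : Lev) (t : Bool) (e : ℕ) : Fin 3 := if rs then pick (X.col t e) (X.col t (e+1)) else 0
def phi (rs : Bool) (X : Lev) (t : Bool) (a : ℕ) (i : Fin 3) : Fin 3 := if rs then jh rs X t a else i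
def dst (n : ℕ) (Y X : Lev) (a : ℕ) : ℕ := if n = 0 then Y.lo (dd Y X a) else Y.lo (dd Y X a) + 1

def hub (n : ℕ) (rs : Bool) (Y X : Lev) (a : ℕ) : Bool → ℕ :=
  fun t => X.R (!t) (jh rs X (!t) a) (X.h t a) (dst n Y X a)

/-- the section used by the end run over a next to a' -/
def rd (rs : Bool) (X : Lev) (a a' : ℕ) : ℕ → ℕ :=
  if X.ty (!(X.lab (min a a'))) (min a a') = 0 then
    X.R (X.lab (min a a')) (kk rs X (X.lab (min a a')) (min a a')) (X.h (!(X.lab (min a a'))) a)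
  else X.ER (X.h (!(X.lab (min a a'))) a) (X.h (!(X.lab (min a a'))) a')

/-- end vertex of the walk over a, next to a' -/
def sv (n : ℕ) (rs : Bool) (Y X : Lev) (a a' : ℕ) : Bool → ℕ :=
  if X.ty true (min a a') + X.ty false (min a a') = 0 then hub n rs Y X a
  else cv X (X.lab (min a a')) (rd rs X a a')
    (ex X (X.h (X.lab (min a a')) a) (X.h (X.lab (min a a')) a'))

/-- the local walk over a: vertices v 0 .. v ℓ, labels lb 0 .. lb (ℓ-1) -/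
structure Loc (n : ℕ) (rs : Bool) (Y X : Lev) (a : ℕ) (ℓ : ℕ) (v : ℕ → Bool → ℕ) (lb : ℕ → Bool)
    (ρ : Bool → Fin 3 → ℕ → ℕ) (ρE : ℕ → ℕ → ℕ) : Prop where
  two : 2 ≤ ℓ
  start : 0 < a → v 0 = sv n rs Y X a (a-1)
  fin : a < X.L → v ℓ = sv n rs Y X a (a+1)
  step : ∀ k, k < ℓ → St rs X a (lb k) (v k) (v (k+1))
  turn : ∀ k, k + 1 < ℓ → lb k = lb (k+1) ∨ JJ n Y X a (v (k+1))
  run : ∀ t i b, fib X (X.h t a) b → ρ t i b ≤ ℓ ∧
    v (ρ t i b) = cv X t (X.R t (phi rs X t a i) (X.h (!t) a)) b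
  runA : ∀ t i b, fib X (X.h t a) b → fib X (X.h t a) (b+1) →
    Ad (ρ t i b) (ρ t i (b+1)) ∧ lb (min (ρ t i b) (ρ t i (b+1))) = t
  disj : ∀ t i i' b b', i ≠ i' → fib X (X.h t a) b → fib X (X.h t a) b' → ρ t i b ≠ ρ t i' b'
  endr : ∀ a', a' ≤ X.L → Ad a a' → 1 ≤ X.ty true (min a a') + X.ty false (min a a') →
    ∀ t, t = X.lab (min a a') → ∀ b, fib X (X.h t a) b → ρE a' b ≤ ℓ ∧ v (ρE a' b) = cv X t (rd rs X a a') b
  endA : ∀ a', a' ≤ X.L → Ad a a' → 1 ≤ X.ty true (min a a') + X.ty false (min a a') →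
    ∀ t, t = X.lab (min a a') → ∀ b, fib X (X.h t a) b → fib X (X.h t a) (b+1) →
      Ad (ρE a' b) (ρE a' (b+1)) ∧ lb (min (ρE a' b) (ρE a' (b+1))) = t
  endx : ∀ a', a' ≤ X.L → Ad a a' → 1 ≤ X.ty true (min a a') + X.ty false (min a a') →
    ∀ t, t = X.lab (min a a') → ρE a' (ex X (X.h t a) (X.h t a')) = if a < a' then ℓ else 0

/-- extra condition at the bottom level -/
def Int0 (n : ℕ) (Y X : Lev) : Prop := n = 0 → ∀ t i y b, y ≤ Y.L → fib Y (Y.h t y) b →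
  X.lo y < X.R t i y b ∧ X.R t i y b < X.hi y

def los (ℓ : ℕ → ℕ) : ℕ → ℕ
  | 0 => 0
  | a+1 => los ℓ a + ℓ a + 1

open Classical in
/-- glueing the local walks: the next level -/
noncomputable def mkZ (rs : Bool) (Y X : Lev) (ℓ : ℕ → ℕ) (v : ℕ → ℕ → Bool → ℕ) (lb : ℕ → ℕ → Bool)
    (ρ : ℕ → Bool → Fin 3 → ℕ → ℕ) (ρE : ℕ → ℕ → ℕ → ℕ) : Lev :=
  let p : ℕ → ℕ := fun x => Nat.findGreatest (fun a => los ℓ a ≤ x) X.L
  let h : Bool → ℕ → ℕ := fun t x => v (p x) (x - los ℓ (p x)) t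
  let R : Bool → Fin 3 → ℕ → ℕ → ℕ := fun t i a b => los ℓ a + ρ a t i b
  let gr : Bool → ℕ → Fin 3 := fun t x =>
    if hx : ∃ i, ∃ b, fib X (X.h t (p x)) b ∧ x = R t i (p x) b then Classical.choose hx else 0
  { L := los ℓ X.L + ℓ X.L
    Lp := X.L
    p := p
    h := h
    ty := fun t k => if p k ≠ p (k+1) then X.ty t (p k) else
      if h t k = h t (k+1) then 0 else X.ty t (min (h t k) (h t (k+1))) + 1
    lab := fun k => if p k ≠ p (k+1) then X.lab (p k) else lb (p k) (k - los ℓ (p k))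
    lo := los ℓ
    hi := fun a => los ℓ a + ℓ a
    R := R
    ER := fun a a' b => los ℓ a + ρE a a' b
    S := fun t x => ∃ i, okc rs X t (p x) i ∧ ∃ d, fib Y (Y.h t (X.h (!t) (p x))) d ∧
      h (!t) x = X.R t i (X.h (!t) (p x)) d
    col := fun t x => if rs then gr t x else X.col t (p x)
    ga := fun t x => if rs then gr t x else X.ga t (h (!t) x) }

/-- w is a vertex of the pullback over a -/
def InG (X : Lev) (a : ℕ) (w : Bool → ℕ) : Prop :=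
  ∀ t, fib X (X.h t a) (w t) ∧ X.h (!t) (w t) = X.h t (w (!t))

structure Ctx (n : ℕ) (rs : Bool) (Y X : Lev) (ℓ : ℕ → ℕ) (v : ℕ → ℕ → Bool → ℕ) (lb : ℕ → ℕ → Bool)
    (ρ : ℕ → Bool → Fin 3 → ℕ → ℕ) (ρE : ℕ → ℕ → ℕ → ℕ) : Prop where
  inv : Inv n Y X
  hrs : rs = true → 1 ≤ n
  loc : ∀ a, a ≤ X.L → Loc n rs Y X a (ℓ a) (v a) (lb a) (ρ a) (ρE a)

/-- walk from x to y of length ℓ -/
structure Wk {W : Type} (S : Bool → W → W → Prop) (J : W → Prop) (x y : W) (ℓ : ℕ) (v : ℕ → W) (lb : ℕ → Bool) :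
    Prop where
  v0 : v 0 = x
  vl : v ℓ = y
  step : ∀ k, k < ℓ → S (lb k) (v k) (v (k+1))
  turn : ∀ k, k + 1 < ℓ → lb k = lb (k+1) ∨ J (v (k+1))

/-- the walk contains, at the positions ρ b, a full sweep along the t-curve of r -/
def Swp (X : Lev) (a : ℕ) (ℓ : ℕ) (v : ℕ → Bool → ℕ) (lb : ℕ → Bool) (t : Bool) (r : ℕ → ℕ) (ρ : ℕ → ℕ) : Prop :=
  (∀ b, fib X (X.h t a) b → ρ b ≤ ℓ ∧ v (ρ b) = cv X t r b) ∧
  ∀ b, fib X (X.h t a) b → fib X (X.h t a) (b+1) → Ad (ρ b) (ρ (b+1)) ∧ lb (min (ρ b) (ρ (b+1))) = t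

end CP
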