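import Pool.Agent.B595.Tow.KDefs

set_option autoImplicit false
namespace CP

theorem al_sec (n : ℕ) (rs : Bool) (Y X : Lev) (hI : Inv n Y X) (a : ℕ) (ha : a ≤ X.L) (t : Bool) (r : ℕ → ℕ)
    (hr : Al rs X a t r) : Sec Y X t (X.h (!t) a) r := by
  rcases hr with ⟨i, -, rfl⟩ | ⟨a', ha', had, ht, h1, h2, rfl⟩
  · exact (hI.runs t i _ (hI.hmemX _ _ ha)).1
  · have key : ∀ k, k < X.L → t = X.lab k → 1 ≤ X.ty true k → 1 ≤ X.ty false k →
        Ad (X.h (!t) k) (X.h (!t) (k+1)) ∧ t = Y.lab (min (X.h (!t) k) (X.h (!t) (k+1))) ∧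
        1 ≤ Y.ty true (min (X.h (!t) k) (X.h (!t) (k+1))) + Y.ty false (min (X.h (!t) k) (X.h (!t) (k+1))) := by
      intro k hkL ht h1 h2
      have hty : ∀ s, 1 ≤ X.ty s k := by
        intro s
        cases s
        · exact h2
        · exact h1
      have hne : X.h (!t) k ≠ X.h (!t) (k+1) := fun h => by
        have e1 := hI.mv0 _ _ hkL h
        have e2 := hty (!t)
        omega
      have hAd := (hI.hlip (!t) k hkL).resolve_left hne
      obtain ⟨m1, m2, m3⟩ := hI.mv1 (!t) k hkL hne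
      rw [Bool.not_not] at m2 m3
      refine ⟨hAd, (m3 ht.symm).symm, ?_⟩
      have e3 := hty t
      rw [m2] at e3
      cases t
      · omega
      · omega
    rcases had with h | h
    · subst h
      have hm : min a (a+1) = a := by omega
      rw [hm] at ht h1 h2
      obtain ⟨k1, k2, k3⟩ := key a (by omega) ht h1 h2
      exact (hI.ends _ _ (hI.hmemX _ _ ha) (hI.hmemX _ _ ha') k1 t k2 k3).1
    · subst h
      have hm : min (a'+1) a' = a' := by omega
      rw [hm] at ht h1 h2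
      obtain ⟨k1, k2, k3⟩ := key a' (by omega) ht h1 h2
      rw [min_comm] at k2 k3
      exact (hI.ends _ _ (hI.hmemX _ _ ha) (hI.hmemX _ _ ha') k1.symm t k2 k3).1

theorem h_fib (n : ℕ) (Y X : Lev) (hI : Inv n Y X) (a : ℕ) (ha : a ≤ X.L) (t : Bool) (b : ℕ)
    (hb : fib X (X.h t a) b) : fib Y (Y.h t (X.h (!t) a)) (X.h (!t) b) := by
  obtain ⟨hbL, hpb⟩ := hI.FX.fibp (X.h t a) (by rw [hI.hLp]; exact hI.hmemX t a ha) b hb
  have e1 : Y.p (X.h (!t) b) = Y.h t (X.h (!t) a) := by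
    rw [hI.com_p (!t) b hbL, hpb]
    exact (hI.com_h t a ha).symm
  have e2 := (hI.FY.pfib (X.h (!t) b) (hI.hmemX _ _ hbL)).2
  rwa [e1] at e2

theorem dd_eq (n : ℕ) (Y X : Lev) (hI : Inv n Y X) (a : ℕ) (ha : a ≤ X.L) (t : Bool) :
    Y.h t (X.h (!t) a) = dd Y X a := by
  cases t
  · exact (hI.com_h true a ha).symm
  · rfl

theorem cv_inG (n : ℕ) (Y X : Lev) (hI : Inv n Y X) (a : ℕ) (ha : a ≤ X.L) (t : Bool) (r : ℕ → ℕ)
    (hr : Sec Y X t (X.h (!t) a) r) (b : ℕ) (hb : fib X (X.h t a) b) : InG X a (cv X t r b) := by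
  have hd := h_fib n Y X hI a ha t b hb
  obtain ⟨hr1, hr2⟩ := hr.1 _ hd
  have w1 : cv X t r b t = b := by simp [cv]
  have w2 : cv X t r b (!t) = r (X.h (!t) b) := by simp [cv]
  intro t'
  by_cases htt : t' = t
  · subst htt
    rw [w1, w2]
    exact ⟨hb, hr2.symm⟩
  · have ht' : t' = !t := by
      cases t <;> cases t' <;> simp_all
    subst ht'
    rw [Bool.not_not, w1, w2]
    exact ⟨hr1, hr2⟩

/-- the lift of the edge {y,y'} of Y to X -/
theorem lift_edge (n : ℕ) (Y X : Lev) (hI : Inv n Y X) (y y' : ℕ) (hy : y ≤ Y.L) (hy' : y' ≤ Y.L) (h : Ad y y') :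
    fib X y (ex X y y') ∧ fib X y' (ex X y' y) ∧ Ad (ex X y y') (ex X y' y) ∧
    min (ex X y y') (ex X y' y) < X.L ∧ X.p (min (ex X y y') (ex X y' y)) = min y y' ∧
    (∀ t, X.ty t (min (ex X y y') (ex X y' y)) = Y.ty t (min y y')) ∧
    X.lab (min (ex X y y') (ex X y' y)) = Y.lab (min y y') := by
  have key : ∀ y, y + 1 ≤ Y.L → fib X y (X.hi y) ∧ fib X (y+1) (X.lo (y+1)) ∧ X.lo (y+1) = X.hi y + 1 ∧
      X.hi y < X.L ∧ X.p (X.hi y) = y ∧ (∀ t, X.ty t (X.hi y) = Y.ty t y) ∧ X.lab (X.hi y) = Y.lab y := by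
    intro y hy
    have hLp := hI.hLp
    have f1 : fib X y (X.hi y) := ⟨hI.FX.lohi y (by omega), le_rfl⟩
    have f2 : fib X (y+1) (X.lo (y+1)) := ⟨le_rfl, hI.FX.lohi (y+1) (by omega)⟩
    have f3 : X.lo (y+1) = X.hi y + 1 := hI.FX.next y (by omega)
    obtain ⟨g1, g2⟩ := hI.FX.fibp y (by omega) _ f1
    obtain ⟨g3, g4⟩ := hI.FX.fibp (y+1) (by omega) _ f2
    rw [f3] at g3 g4
    have hlt : X.hi y < X.L := by omega
    have ho := hI.old (X.hi y) hlt (by rw [g2, g4]; omega)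
    rw [g2] at ho
    exact ⟨f1, f2, f3, hlt, g2, ho.1, ho.2⟩
  rcases h with h | h
  · subst h
    obtain ⟨f1, f2, f3, f4, f5, f6, f7⟩ := key y hy'
    have x1 : ex X y (y+1) = X.hi y := by simp [ex]
    have x2 : ex X (y+1) y = X.lo (y+1) := by simp [ex]
    have m1 : min (X.hi y) (X.lo (y+1)) = X.hi y := by omega
    have m2 : min y (y+1) = y := by omega
    rw [x1, x2, m1, m2]
    exact ⟨f1, f2, Or.inl f3, f4, f5, f6, f7⟩
  · subst h
    obtain ⟨f1, f2, f3, f4, f5, f6, f7⟩ := key y' hy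
    have x1 : ex X y' (y'+1) = X.hi y' := by simp [ex]
    have x2 : ex X (y'+1) y' = X.lo (y'+1) := by simp [ex]
    have m1 : min (X.lo (y'+1)) (X.hi y') = X.hi y' := by omega
    have m2 : min (y'+1) y' = y' := by omega
    rw [x1, x2, m1, m2]
    exact ⟨f2, f1, Or.inr f3, f4, f5, f6, f7⟩

/-- at a place where labels may change, lying on a (!t)-curve, the t-steps move in both coordinates -/
theorem matched (n : ℕ) (rs : Bool) (Y X : Lev) (hI : Inv n Y X) (hn : 1 ≤ n) (a : ℕ) (ha : a ≤ X.L) (t : Bool)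
    (r : ℕ → ℕ) (hr : Sec Y X (!t) (X.h t a) r) (c : ℕ) (hc : fib X (X.h (!t) a) c)
    (hJ : JJ n Y X a (cv X (!t) r c)) (b' : ℕ) (hb' : Ad ((cv X (!t) r c) t) b') :
    fib X (X.h t a) b' ∧ X.h (!t) b' ≠ X.h (!t) ((cv X (!t) r c) t) := by
  have hG := cv_inG n Y X hI a ha (!t) r (by rw [Bool.not_not]; exact hr) c hc
  have w1 : cv X (!t) r c (!t) = c := by simp [cv]
  have w2 : cv X (!t) r c t = r (X.h t c) := by
    cases t <;> simp [cv]
  have hdd : Y.h (!t) (X.h t a) = dd Y X a := by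
    have e := dd_eq n Y X hI a ha (!t)
    rwa [Bool.not_not] at e
  have hmain : Y.lo (dd Y X a) < X.h t c ∧ X.h t c < Y.hi (dd Y X a) := by
    rcases hJ with h0 | hJ
    · omega
    · cases t
      · have g1 := (hG true).2
        have e1 : X.h false (cv X (!false) r c true) = X.h false c := by
          have : X.h (!true) (cv X (!false) r c true) = X.h false c := by
            simp [cv]
          exact this
        rw [e1] at hJ
        exact hJ
      · have g1 := (hG true).2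
        have e1 : X.h false (cv X (!true) r c true) = X.h true c := by
          have g2 : X.h (!true) (cv X (!true) r c true) = X.h true (cv X (!true) r c (!true)) := g1
          rw [w1] at g2
          exact g2
        rw [e1] at hJ
        exact hJ
  rw [w2] at hb' ⊢
  obtain ⟨s1, s2⟩ := hr
  rw [hdd] at s1 s2
  generalize X.h t c = d at *
  obtain ⟨l1, l2⟩ := hmain
  obtain ⟨d', rfl⟩ : ∃ d', d = d' + 1 := ⟨d - 1, by omega⟩
  have f0 : fib Y (dd Y X a) d' := ⟨by omega, by omega⟩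
  have f1 : fib Y (dd Y X a) (d'+1) := ⟨by omega, by omega⟩
  have f2 : fib Y (dd Y X a) (d'+1+1) := ⟨by omega, by omega⟩
  obtain ⟨p0, q0⟩ := s1 _ f0
  obtain ⟨p1, q1⟩ := s1 _ f1
  obtain ⟨p2, q2⟩ := s1 _ f2
  have a0 := (s2 _ f0 f1).1
  have a1 := (s2 _ f1 f2).1
  have hne : r d' ≠ r (d'+1+1) := fun h => by
    rw [h, q2] at q0
    omega
  have hb : b' = r d' ∨ b' = r (d'+1+1) := by
    unfold Ad at a0 a1 hb'
    omega
  rcases hb with rfl | rfl
  · refine ⟨p0, ?_⟩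
    rw [q0, q1]
    omega
  · refine ⟨p2, ?_⟩
    rw [q2, q1]
    omega

end CP
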