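import Pool.Agent.B595.Tow.F1
import Pool.Agent.B595.Tow.F2
import Pool.Agent.B595.Tow.F3
import Pool.Agent.B595.Tow.F4
import Pool.Agent.B595.Tow.F5
import Pool.Agent.B595.Tow.F6

set_option autoImplicit false
namespace CP

theorem f_inv (n : ℕ) (rs : Bool) (Y X : Lev) (ℓ : ℕ → ℕ) (v : ℕ → ℕ → Bool → ℕ) (lb : ℕ → ℕ → Bool)
    (ρ : ℕ → Bool → Fin 3 → ℕ → ℕ) (ρE : ℕ → ℕ → ℕ → ℕ) (hC : Ctx n rs Y X ℓ v lb ρ ρE) :
    Inv (n+1) X (mkZ rs Y X ℓ v lb ρ ρE) := by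
  obtain ⟨b1, b2, b3, b4, b5, b6⟩ := f_basic n rs Y X ℓ v lb ρ ρE hC
  obtain ⟨t1, t2, t3, t4⟩ := f_types n rs Y X ℓ v lb ρ ρE hC
  obtain ⟨a1, a2⟩ := f_adj n rs Y X ℓ v lb ρ ρE hC
  exact {
    hLp := b1
    FY := hC.inv.FX
    FX := g_fibs n rs Y X ℓ v lb ρ ρE hC
    thickX := b2
    thickY := fun _ y hy => hC.inv.thickX y (by rw [← hC.inv.hLp]; exact hy)
    hmemX := b3
    hmemY := fun t y hy => by rw [hC.inv.hLp]; exact hC.inv.hmemX t y hy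
    com_p := b4
    com_h := b5
    mv0Y := hC.inv.mv0
    hlipY := hC.inv.hlip
    hlip := b6
    old := by
      intro k hk hne
      rcases g_edge n rs Y X ℓ v lb ρ ρE hC k hk with
        ⟨a, j, _, _, _, h1, h2, _⟩ | ⟨a, _, _, _, h1, _, h3, h4, _⟩
      · exact absurd (h1.trans h2.symm) hne
      · rw [h1]
        exact ⟨h3, h4⟩
    new := t1
    mv0 := t2
    mv1 := t3
    lab1 := t4
    adjX := a1
    adjY := hC.inv.adjX
    turn := a2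
    oldnew := f_oldnew n rs Y X ℓ v lb ρ ρE hC
    runs := f_runs n rs Y X ℓ v lb ρ ρE hC
    ends := f_ends n rs Y X ℓ v lb ρ ρE hC }

end CP
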