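import Pool.Agent.B595.Tow.W6
import Pool.Agent.B595.Tow.F7
import Pool.Agent.B595.Tow.S1

set_option autoImplicit false
namespace CP

/-- the step of the construction -/
theorem tower_step (n : ℕ) (rs : Bool) (Y X : Lev) (hI : Inv n Y X) (hrs : rs = true → 1 ≤ n) (h0 : Int0 n Y X) :
    ∃ Z, Inv (n+1) X Z ∧ Rel rs Y X Z := by
  have H : ∀ a, ∃ ℓ v lb ρ ρE, a ≤ X.L → Loc n rs Y X a ℓ v lb ρ ρE := by
    intro a
    by_cases ha : a ≤ X.L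
    · obtain ⟨ℓ, v, lb, ρ, ρE, h⟩ := local_walk n rs Y X hI hrs h0 a ha
      exact ⟨ℓ, v, lb, ρ, ρE, fun _ => h⟩
    · exact ⟨0, fun _ _ => 0, fun _ => true, fun _ _ _ => 0, fun _ _ => 0, fun h => absurd h ha⟩
  choose ℓ v lb ρ ρE h using H
  have hC : Ctx n rs Y X ℓ v lb ρ ρE := ⟨hI, hrs, h⟩
  exact ⟨mkZ rs Y X ℓ v lb ρ ρE, f_inv n rs Y X ℓ v lb ρ ρE hC, f_rel n rs Y X ℓ v lb ρ ρE hC⟩

end CP
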