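import Pool.Agent.B595.Tow.Fin
import Pool.Agent.B595.Tow.W7
import Pool.Agent.B595.Tow.B0
import Pool.Agent.B595.Tow.E0

set_option autoImplicit false
namespace CP

/-- commuting continuous self-maps of [0,1] without a common periodic point -/
theorem interval_example :
    ∃ F G : C(Set.Icc (0:ℝ) 1, Set.Icc (0:ℝ) 1), (⇑F ∘ ⇑G = ⇑G ∘ ⇑F) ∧
      ¬ (Function.periodicPts ⇑F ∩ Function.periodicPts ⇑G).Nonempty := by
  obtain ⟨V, rs, hT, hL⟩ := exists_tower base_levels tower_step
  exact interval_of_tower V rs hT hL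

end CP
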