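import Pool.Agent.B595.Tow.TDefs

set_option autoImplicit false
namespace CP

theorem ext_nat (F : ℕ → ℕ) (k : ℕ) : ext F (k : ℝ) = F k := by
  unfold ext
  rw [Nat.floor_natCast]
  simp

theorem ext_nat_seg (F : ℕ → ℕ) (k : ℕ) (s : ℝ) (h0 : 0 ≤ s) (h1 : s ≤ 1) :
    ext F (k + s) = F k + s * ((F (k+1) : ℝ) - F k) := by
  rcases lt_or_eq_of_le h1 with h | h
  · have : ⌊(k:ℝ) + s⌋₊ = k := by
      rw [Nat.floor_eq_iff (by positivity)]
      constructor <;> linarith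
    unfold ext
    rw [this]
    ring
  · subst h
    have := ext_nat F (k+1)
    push_cast at this
    rw [this]
    ring

theorem ext_nat_dec (L : ℕ) (x : ℝ) (h0 : 0 ≤ x) (h1 : x ≤ L) :
    (∃ k : ℕ, k ≤ L ∧ x = k) ∨ (∃ (k : ℕ) (s : ℝ), k < L ∧ 0 ≤ s ∧ s ≤ 1 ∧ x = k + s) := by
  rcases lt_or_eq_of_le h1 with h | h
  · right
    refine ⟨⌊x⌋₊, x - ⌊x⌋₊, (Nat.floor_lt h0).2 h, ?_, ?_, by ring⟩
    · linarith [Nat.floor_le h0]
    · linarith [Nat.lt_floor_add_one x]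
  · left
    exact ⟨L, le_rfl, h⟩

theorem ext_mem (L M : ℕ) (F : ℕ → ℕ) (h : Lip L M F) (x : ℝ) (h0 : 0 ≤ x) (h1 : x ≤ L) :
    0 ≤ ext F x ∧ ext F x ≤ M := by
  rcases ext_nat_dec L x h0 h1 with ⟨k, hk, rfl⟩ | ⟨k, s, hk, hs0, hs1, rfl⟩
  · rw [ext_nat]
    exact ⟨Nat.cast_nonneg _, by exact_mod_cast h.1 k hk⟩
  · rw [ext_nat_seg F k s hs0 hs1]
    have a0 : (0:ℝ) ≤ F k := Nat.cast_nonneg _
    have a1 : (0:ℝ) ≤ F (k+1) := Nat.cast_nonneg _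
    have b0 : (F k : ℝ) ≤ M := by exact_mod_cast h.1 k hk.le
    have b1 : (F (k+1) : ℝ) ≤ M := by exact_mod_cast h.1 (k+1) hk
    constructor <;> nlinarith

theorem ext_comp (L M : ℕ) (F G : ℕ → ℕ) (h : Lip L M F) (x : ℝ) (h0 : 0 ≤ x) (h1 : x ≤ L) :
    ext G (ext F x) = ext (fun k => G (F k)) x := by
  rcases ext_nat_dec L x h0 h1 with ⟨k, hk, rfl⟩ | ⟨k, s, hk, hs0, hs1, rfl⟩
  · rw [ext_nat, ext_nat, ext_nat]
  · rw [ext_nat_seg F k s hs0 hs1, ext_nat_seg (fun k => G (F k)) k s hs0 hs1]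
    obtain ⟨h2, h3⟩ := h.2 k hk
    have hc : F (k+1) = F k ∨ F (k+1) = F k + 1 ∨ F k = F (k+1) + 1 := by omega
    rcases hc with hc | hc | hc
    · rw [hc]
      simp [ext_nat]
    · rw [hc]
      have e : (F k : ℝ) + s * (((F k + 1 : ℕ) : ℝ) - F k) = (F k : ℝ) + s := by push_cast; ring
      rw [e, ext_nat_seg G (F k) s hs0 hs1]
    · have e : (F k : ℝ) + s * ((F (k+1) : ℝ) - F k) = (F (k+1) : ℝ) + (1 - s) := by
        rw [hc]; push_cast; ring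
      rw [e, ext_nat_seg G (F (k+1)) (1 - s) (by linarith) (by linarith), hc]
      ring

theorem ext_congr (L : ℕ) (F G : ℕ → ℕ) (h : ∀ k, k ≤ L → F k = G k) (x : ℝ) (h0 : 0 ≤ x) (h1 : x ≤ L) :
    ext F x = ext G x := by
  rcases ext_nat_dec L x h0 h1 with ⟨k, hk, rfl⟩ | ⟨k, s, hk, hs0, hs1, rfl⟩
  · rw [ext_nat, ext_nat, h k hk]
  · rw [ext_nat_seg F k s hs0 hs1, ext_nat_seg G k s hs0 hs1, h k hk.le, h (k+1) hk]

theorem ext_mono (L : ℕ) (F : ℕ → ℕ) (h : ∀ k, k < L → F k ≤ F (k+1)) (x y : ℝ) (h0 : 0 ≤ x) (hxy : x ≤ y)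
    (h1 : y ≤ L) : ext F x ≤ ext F y := by
  have hm : ∀ i j : ℕ, i ≤ j → j ≤ L → F i ≤ F j := by
    intro i j hij
    induction hij with
    | refl => intro _; exact le_rfl
    | @step j hij ih => intro hj; exact (ih (by omega)).trans (h j (by omega))
  rcases ext_nat_dec L y (h0.trans hxy) h1 with ⟨m, hmL, rfl⟩ | ⟨m, t, hmL, ht0, ht1, rfl⟩
  · -- y = m
    rcases ext_nat_dec m x h0 hxy with ⟨k, hk, rfl⟩ | ⟨k, s, hk, hs0, hs1, rfl⟩
    · rw [ext_nat, ext_nat]; exact_mod_cast hm k m hk hmL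
    · rw [ext_nat, ext_nat_seg F k s hs0 hs1]
      have a1 : (F k : ℝ) ≤ F (k+1) := by exact_mod_cast h k (by omega)
      have a2 : (F (k+1) : ℝ) ≤ F m := by exact_mod_cast hm (k+1) m hk hmL
      nlinarith
  · rw [ext_nat_seg F m t ht0 ht1]
    have c1 : (F m : ℝ) ≤ F (m+1) := by exact_mod_cast h m hmL
    by_cases hx : x ≤ m
    · rcases ext_nat_dec m x h0 hx with ⟨k, hk, rfl⟩ | ⟨k, s, hk, hs0, hs1, rfl⟩
      · rw [ext_nat]
        have : (F k : ℝ) ≤ F m := by exact_mod_cast hm k m hk hmL.le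
        nlinarith
      · rw [ext_nat_seg F k s hs0 hs1]
        have a1 : (F k : ℝ) ≤ F (k+1) := by exact_mod_cast h k (by omega)
        have a2 : (F (k+1) : ℝ) ≤ F m := by exact_mod_cast hm (k+1) m hk hmL.le
        nlinarith
    · have hx' : (m:ℝ) < x := not_le.mp hx
      obtain ⟨s, rfl⟩ : ∃ s, x = m + s := ⟨x - m, by ring⟩
      rw [ext_nat_seg F m s (by linarith) (by linarith)]
      nlinarith

end CP
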