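import Mathlib

set_option autoImplicit false
namespace CP

/-- piecewise linear extension of a map of the integer points -/
noncomputable def ext (F : ℕ → ℕ) (x : ℝ) : ℝ :=
  (F ⌊x⌋₊ : ℝ) + (x - (⌊x⌋₊ : ℝ)) * ((F (⌊x⌋₊ + 1) : ℝ) - (F ⌊x⌋₊ : ℝ))

/-- 1-Lipschitz on {0..L} with values in {0..M} -/
def Lip (L M : ℕ) (F : ℕ → ℕ) : Prop :=
  (∀ k, k ≤ L → F k ≤ M) ∧ ∀ k, k < L → F (k+1) ≤ F k + 1 ∧ F k ≤ F (k+1) + 1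

/-- the inverse limit -/
def Lim (L : ℕ → ℕ) (p : ℕ → ℕ → ℕ) : Set (ℕ → ℝ) :=
  {x | ∀ n, 0 ≤ x n ∧ x n ≤ L n ∧ ext (p n) (x (n+1)) = x n}

/-- the shifted maps, on integer sequences and on real sequences -/
def sh (f : ℕ → ℕ → ℕ) (z : ℕ → ℕ) : ℕ → ℕ := fun n => f n (z (n+1))
noncomputable def shR (f : ℕ → ℕ → ℕ) (z : ℕ → ℝ) : ℕ → ℝ := fun n => ext (f n) (z (n+1))

end CP
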