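import Pool.Agent.B595.Tow.L0

set_option autoImplicit false
namespace CP

theorem hub_dd_le (n : ℕ) (Y X : Lev) (hI : Inv n Y X) (a : ℕ) (ha : a ≤ X.L) :
    dd Y X a ≤ Y.Lp := hI.hmemY true _ (hI.hmemX false a ha)

theorem hub_dst_fib (n : ℕ) (Y X : Lev) (hI : Inv n Y X) (a : ℕ) (ha : a ≤ X.L) :
    fib Y (dd Y X a) (dst n Y X a) := by
  have hd := hub_dd_le n Y X hI a ha
  unfold fib dst
  by_cases hn : n = 0
  · rw [if_pos hn]
    exact ⟨le_rfl, hI.FY.lohi _ hd⟩
  · rw [if_neg hn]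
    have := hI.thickY (by omega) _ hd
    omega

theorem hub_dd_eq' (n : ℕ) (Y X : Lev) (hI : Inv n Y X) (a : ℕ) (ha : a ≤ X.L) (t : Bool) :
    Y.h (!t) (X.h t a) = dd Y X a := by
  have := dd_eq n Y X hI a ha (!t)
  rwa [Bool.not_not] at this

theorem hub_sec (n : ℕ) (rs : Bool) (Y X : Lev) (hI : Inv n Y X) (a : ℕ) (ha : a ≤ X.L) (t : Bool) :
    Sec Y X (!t) (X.h t a) (X.R (!t) (jh rs X (!t) a) (X.h t a)) :=
  (hI.runs (!t) (jh rs X (!t) a) (X.h t a) (hI.hmemX t a ha)).1

theorem hub_fib (n : ℕ) (rs : Bool) (Y X : Lev) (hI : Inv n Y X) (hrs : rs = true → 1 ≤ n)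
    (h0 : Int0 n Y X) (a : ℕ) (ha : a ≤ X.L) (t : Bool) :
    X.lo (X.h t a) < hub n rs Y X a t ∧ hub n rs Y X a t < X.hi (X.h t a) := by
  have hy : X.h t a ≤ Y.L := hI.hmemX t a ha
  have hd := hub_dd_le n Y X hI a ha
  have he := hub_dd_eq' n Y X hI a ha t
  have hf := hub_dst_fib n Y X hI a ha
  show X.lo (X.h t a) < X.R (!t) (jh rs X (!t) a) (X.h t a) (dst n Y X a) ∧
    X.R (!t) (jh rs X (!t) a) (X.h t a) (dst n Y X a) < X.hi (X.h t a)
  by_cases hn : n = 0
  · exact h0 hn (!t) _ _ _ hy (by rw [he]; exact hf)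
  · have hth := hI.thickY (by omega) _ hd
    obtain ⟨s1, s2⟩ := hub_sec n rs Y X hI a ha t
    set r := X.R (!t) (jh rs X (!t) a) (X.h t a) with hr
    have hdst : dst n Y X a = Y.lo (dd Y X a) + 1 := by
      unfold dst; rw [if_neg hn]
    rw [hdst]
    set l := Y.lo (dd Y X a) with hl
    have f0 : fib Y (Y.h (!t) (X.h t a)) l := by
      rw [he]; unfold fib; omega
    have f1 : fib Y (Y.h (!t) (X.h t a)) (l + 1) := by
      rw [he]; unfold fib; omega
    have f2 : fib Y (Y.h (!t) (X.h t a)) (l + 1 + 1) := by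
      rw [he]; unfold fib; omega
    obtain ⟨g0, e0⟩ := s1 _ f0
    obtain ⟨g1, e1⟩ := s1 _ f1
    obtain ⟨g2, e2⟩ := s1 _ f2
    obtain ⟨a0, _⟩ := s2 _ f0 f1
    obtain ⟨a1, _⟩ := s2 _ f1 f2
    have hne : r l ≠ r (l + 1 + 1) := by
      intro h
      rw [h, e2] at e0
      omega
    unfold fib at g0 g1 g2
    unfold Ad at a0 a1
    omega

theorem hub_h (n : ℕ) (rs : Bool) (Y X : Lev) (hI : Inv n Y X) (hrs : rs = true → 1 ≤ n)
    (h0 : Int0 n Y X) (a : ℕ) (ha : a ≤ X.L) (t : Bool) :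
    X.h (!t) (hub n rs Y X a t) = dst n Y X a := by
  obtain ⟨s1, _⟩ := hub_sec n rs Y X hI a ha t
  exact (s1 _ (by rw [hub_dd_eq' n Y X hI a ha t]; exact hub_dst_fib n Y X hI a ha)).2

theorem hub_cv (n : ℕ) (rs : Bool) (Y X : Lev) (hI : Inv n Y X) (hrs : rs = true → 1 ≤ n)
    (h0 : Int0 n Y X) (a : ℕ) (ha : a ≤ X.L) (t : Bool) :
    hub n rs Y X a = cv X t (X.R t (jh rs X t a) (X.h (!t) a)) (hub n rs Y X a t) := by
  funext t'
  unfold cv
  by_cases h : t' = t
  · rw [if_pos h, h]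
  · rw [if_neg h, hub_h n rs Y X hI hrs h0 a ha t]
    have ht : t' = !t := by
      cases t <;> cases t' <;> simp_all
    subst ht
    show X.R (!(!t)) (jh rs X (!(!t)) a) (X.h (!t) a) (dst n Y X a) = _
    rw [Bool.not_not]

theorem pick_ne (x y : Fin 3) : pick x y ≠ x := by
  revert x y
  decide

theorem hub_al (rs : Bool) (X : Lev) (a : ℕ) (t : Bool) : Al rs X a t (X.R t (jh rs X t a) (X.h (!t) a)) := by
  left
  refine ⟨jh rs X t a, ?_, rfl⟩
  intro h
  unfold jh
  rw [if_pos h]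
  exact pick_ne _ _

theorem hub_J (n : ℕ) (rs : Bool) (Y X : Lev) (hI : Inv n Y X) (hrs : rs = true → 1 ≤ n)
    (h0 : Int0 n Y X) (a : ℕ) (ha : a ≤ X.L) :
    JJ n Y X a (hub n rs Y X a) := by
  unfold JJ
  by_cases hn : n = 0
  · exact Or.inl hn
  · right
    have hh : X.h false (hub n rs Y X a true) = dst n Y X a := hub_h n rs Y X hI hrs h0 a ha true
    have hth := hI.thickY (by omega) _ (hub_dd_le n Y X hI a ha)
    rw [hh]
    unfold dst
    rw [if_neg hn]
    omega

theorem junc_J (n : ℕ) (rs : Bool) (Y X : Lev) (hI : Inv n Y X) (hrs : rs = true → 1 ≤ n)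
    (h0 : Int0 n Y X) (a : ℕ) (ha : a ≤ X.L) (t : Bool) (r : ℕ → ℕ) :
    JJ n Y X a (cv X t r (hub n rs Y X a t)) ∨ ¬ Al rs X a t r := by
  by_cases hal : Al rs X a t r
  · left
    unfold JJ
    by_cases hn : n = 0
    · exact Or.inl hn
    · right
      have hth := hI.thickY (by omega) _ (hub_dd_le n Y X hI a ha)
      have hdst : dst n Y X a = Y.lo (dd Y X a) + 1 := by
        unfold dst; rw [if_neg hn]
      have hsec := al_sec n rs Y X hI a ha t r hal
      have hkey : X.h false ((cv X t r (hub n rs Y X a t)) true) = dst n Y X a := by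
        cases t with
        | true =>
          show X.h false (hub n rs Y X a true) = _
          exact hub_h n rs Y X hI hrs h0 a ha true
        | false =>
          have h1 : X.h true (hub n rs Y X a false) = dst n Y X a :=
            hub_h n rs Y X hI hrs h0 a ha false
          show X.h false (r (X.h true (hub n rs Y X a false))) = _
          rw [h1]
          exact (hsec.1 _ (by
            show fib Y (Y.h false (X.h true a)) (dst n Y X a)
            have := hub_dd_eq' n Y X hI a ha true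
            have h2 : Y.h false (X.h true a) = dd Y X a := this
            rw [h2]
            exact hub_dst_fib n Y X hI a ha)).2
      rw [hkey, hdst]
      omega
  · exact Or.inr hal

end CP
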