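import Pool.Agent.B595.Tow.KDefs

set_option autoImplicit false
namespace CP

theorem wk_concat {W : Type} (S : Bool → W → W → Prop) (J : W → Prop) (x y z : W) (ℓ1 ℓ2 : ℕ) (v1 v2 : ℕ → W)
    (lb1 lb2 : ℕ → Bool) (h1 : Wk S J x y ℓ1 v1 lb1) (h2 : Wk S J y z ℓ2 v2 lb2) (hy : J y) :
    ∃ v lb, Wk S J x z (ℓ1 + ℓ2) v lb ∧ (∀ k, k ≤ ℓ1 → v k = v1 k) ∧ (∀ k, k < ℓ1 → lb k = lb1 k) ∧
      (∀ k, k ≤ ℓ2 → v (ℓ1 + k) = v2 k) ∧ ∀ k, k < ℓ2 → lb (ℓ1 + k) = lb2 k := by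
  obtain ⟨v, hv⟩ : ∃ v : ℕ → W, v = fun k => if k ≤ ℓ1 then v1 k else v2 (k - ℓ1) := ⟨_, rfl⟩
  obtain ⟨lb, hlb⟩ : ∃ lb : ℕ → Bool, lb = fun k => if k < ℓ1 then lb1 k else lb2 (k - ℓ1) :=
    ⟨_, rfl⟩
  have hv1 : ∀ k, k ≤ ℓ1 → v k = v1 k := by
    intro k hk
    rw [hv]
    exact if_pos hk
  have hl1 : ∀ k, k < ℓ1 → lb k = lb1 k := by
    intro k hk
    rw [hlb]
    exact if_pos hk
  have hv2 : ∀ k, k ≤ ℓ2 → v (ℓ1 + k) = v2 k := by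
    intro k hk
    rcases Nat.eq_zero_or_pos k with h0 | h0
    · subst h0
      rw [Nat.add_zero, hv1 ℓ1 le_rfl, h1.vl, h2.v0]
    · rw [hv]
      have : ¬ (ℓ1 + k ≤ ℓ1) := by omega
      simp only [if_neg this, Nat.add_sub_cancel_left]
  have hl2 : ∀ k, k < ℓ2 → lb (ℓ1 + k) = lb2 k := by
    intro k hk
    rw [hlb]
    have : ¬ (ℓ1 + k < ℓ1) := by omega
    simp only [if_neg this, Nat.add_sub_cancel_left]
  refine ⟨v, lb, ⟨?_, ?_, ?_, ?_⟩, hv1, hl1, hv2, hl2⟩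
  · rw [hv1 0 (Nat.zero_le _), h1.v0]
  · rw [hv2 ℓ2 le_rfl, h2.vl]
  · intro k hk
    rcases Nat.lt_or_ge k ℓ1 with h | h
    · rw [hl1 k h, hv1 k h.le, hv1 (k+1) h]
      exact h1.step k h
    · obtain ⟨j, rfl⟩ := Nat.exists_eq_add_of_le h
      have hj : j < ℓ2 := by omega
      rw [hl2 j hj, hv2 j hj.le, add_assoc, hv2 (j+1) hj]
      exact h2.step j hj
  · intro k hk
    rcases Nat.lt_trichotomy (k+1) ℓ1 with h | h | h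
    · rw [hl1 k (by omega), hl1 (k+1) h, hv1 (k+1) h.le]
      exact h1.turn k h
    · right
      rw [h, hv1 ℓ1 le_rfl, h1.vl]
      exact hy
    · obtain ⟨j, rfl⟩ := Nat.exists_eq_add_of_le (show ℓ1 ≤ k by omega)
      have hj : j + 1 < ℓ2 := by omega
      rw [add_assoc, hl2 j (by omega), hl2 (j+1) hj, hv2 (j+1) hj.le]
      exact h2.turn j hj

theorem wk_rev {W : Type} (S : Bool → W → W → Prop) (J : W → Prop) (x y : W) (ℓ : ℕ) (v : ℕ → W)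
    (lb : ℕ → Bool) (h1 : Wk S J x y ℓ v lb) (hs : ∀ t w w', S t w w' → S t w' w) :
    Wk S J y x ℓ (fun k => v (ℓ - k)) (fun k => lb (ℓ - 1 - k)) := by
  refine ⟨?_, ?_, ?_, ?_⟩
  · simp only [Nat.sub_zero]
    exact h1.vl
  · simp only [Nat.sub_self]
    exact h1.v0
  · intro k hk
    have h := h1.step (ℓ - 1 - k) (by omega)
    have e : ℓ - 1 - k + 1 = ℓ - k := by omega
    have e' : ℓ - (k + 1) = ℓ - 1 - k := by omega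
    rw [e] at h
    simp only [e']
    exact hs _ _ _ h
  · intro k hk
    have h := h1.turn (ℓ - 1 - (k + 1)) (by omega)
    have e : ℓ - 1 - (k + 1) + 1 = ℓ - 1 - k := by omega
    have e' : ℓ - (k + 1) = ℓ - 1 - k := by omega
    rw [e] at h
    simp only [e']
    rcases h with h | h
    · left
      exact h.symm
    · right
      exact h

theorem st_symm (rs : Bool) (X : Lev) (a : ℕ) (t : Bool) (w w' : Bool → ℕ) (h : St rs X a t w w') :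
    St rs X a t w' w := by
  obtain ⟨r, hr, b, b', hb, hb', hA, e1, e2⟩ := h
  exact ⟨r, hr, b', b, hb', hb, hA.symm, e2, e1⟩

/-- moving along the t-curve of r following a walk β of the t-coordinate -/
theorem wk_curve (n : ℕ) (rs : Bool) (Y X : Lev) (a : ℕ) (t : Bool) (r : ℕ → ℕ) (hr : Al rs X a t r) (m : ℕ)
    (β : ℕ → ℕ) (h1 : ∀ k, k ≤ m → fib X (X.h t a) (β k)) (h2 : ∀ k, k < m → Ad (β k) (β (k+1))) :
    Wk (St rs X a) (JJ n Y X a) (cv X t r (β 0)) (cv X t r (β m)) m (fun k => cv X t r (β k)) (fun _ => t) := by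
  refine ⟨rfl, rfl, ?_, ?_⟩
  · intro k hk
    exact ⟨r, hr, β k, β (k+1), h1 k hk.le, h1 (k+1) hk, h2 k hk, rfl, rfl⟩
  · intro k _
    left
    rfl

/-- sweeps survive concatenation -/
theorem swp_left (X : Lev) (a ℓ1 ℓ2 : ℕ) (v v1 : ℕ → Bool → ℕ) (lb lb1 : ℕ → Bool) (t : Bool) (r ρ : ℕ → ℕ)
    (h : Swp X a ℓ1 v1 lb1 t r ρ) (hv : ∀ k, k ≤ ℓ1 → v k = v1 k) (hl : ∀ k, k < ℓ1 → lb k = lb1 k) :
    Swp X a (ℓ1 + ℓ2) v lb t r ρ := by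
  refine ⟨?_, ?_⟩
  · intro b hb
    obtain ⟨h1, h2⟩ := h.1 b hb
    exact ⟨by omega, by rw [hv _ h1, h2]⟩
  · intro b hb hb'
    obtain ⟨h1, _⟩ := h.1 b hb
    obtain ⟨h1', _⟩ := h.1 (b+1) hb'
    obtain ⟨h3, h4⟩ := h.2 b hb hb'
    refine ⟨h3, ?_⟩
    rw [hl _ (by rcases h3 with h3 | h3 <;> omega), h4]

theorem swp_right (X : Lev) (a ℓ1 ℓ2 : ℕ) (v v2 : ℕ → Bool → ℕ) (lb lb2 : ℕ → Bool) (t : Bool) (r ρ : ℕ → ℕ)
    (h : Swp X a ℓ2 v2 lb2 t r ρ) (hv : ∀ k, k ≤ ℓ2 → v (ℓ1 + k) = v2 k) (hl : ∀ k, k < ℓ2 → lb (ℓ1 + k) = lb2 k) :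
    Swp X a (ℓ1 + ℓ2) v lb t r (fun b => ℓ1 + ρ b) := by
  refine ⟨?_, ?_⟩
  · intro b hb
    obtain ⟨h1, h2⟩ := h.1 b hb
    refine ⟨?_, ?_⟩
    · show ℓ1 + ρ b ≤ ℓ1 + ℓ2
      omega
    · show v (ℓ1 + ρ b) = _
      rw [hv _ h1, h2]
  · intro b hb hb'
    obtain ⟨h1, _⟩ := h.1 b hb
    obtain ⟨h1', _⟩ := h.1 (b+1) hb'
    obtain ⟨h3, h4⟩ := h.2 b hb hb'
    refine ⟨?_, ?_⟩
    · show Ad (ℓ1 + ρ b) (ℓ1 + ρ (b+1))
      rcases h3 with h3 | h3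
      · left; omega
      · right; omega
    · show lb (min (ℓ1 + ρ b) (ℓ1 + ρ (b+1))) = t
      have hm : min (ℓ1 + ρ b) (ℓ1 + ρ (b+1)) = ℓ1 + min (ρ b) (ρ (b+1)) := by omega
      rw [hm, hl _ (by rcases h3 with h3 | h3 <;> omega), h4]

end CP
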