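import Pool.Agent.B595.Tow.W0
import Pool.Agent.B595.Tow.W1

set_option autoImplicit false
namespace CP

/-- connection from the junction point of the t-curve of r to the hub -/
theorem conn (n : ℕ) (rs : Bool) (Y X : Lev) (hI : Inv n Y X) (hrs : rs = true → 1 ≤ n)
    (h0 : Int0 n Y X) (a : ℕ) (ha : a ≤ X.L) (t : Bool) (r : ℕ → ℕ) (hr : Al rs X a t r) :
    ∃ ℓ v lb, Wk (St rs X a) (JJ n Y X a) (cv X t r (hub n rs Y X a t)) (hub n rs Y X a) ℓ v lb := by
  have hfibt : fib X (X.h t a) (hub n rs Y X a t) := by
    have h := hub_fib n rs Y X hI hrs h0 a ha t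
    exact ⟨h.1.le, h.2.le⟩
  have hfibn : fib X (X.h (!t) a) (hub n rs Y X a (!t)) := by
    have h := hub_fib n rs Y X hI hrs h0 a ha (!t)
    exact ⟨h.1.le, h.2.le⟩
  have hdst := h_fib n Y X hI a ha t _ hfibt
  rw [hub_h n rs Y X hI hrs h0 a ha t] at hdst
  have hsec := al_sec n rs Y X hI a ha t r hr
  obtain ⟨hfr, hhr⟩ := hsec.1 _ hdst
  have hal := hub_al rs X a (!t)
  have hcv := hub_cv n rs Y X hI hrs h0 a ha (!t)
  have hstart : cv X t r (hub n rs Y X a t) =
      cv X (!t) (X.R (!t) (jh rs X (!t) a) (X.h (!(!t)) a)) (r (dst n Y X a)) := by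
    funext t'
    unfold cv
    have hh := hub_h n rs Y X hI hrs h0 a ha t
    by_cases htt : t' = t
    · subst htt
      have h1 : ¬ (t' = !t') := by cases t' <;> simp
      rw [if_pos rfl, if_neg h1, Bool.not_not, hhr]
      rfl
    · have h1 : t' = !t := (show ∀ x y : Bool, x ≠ y → x = !y by decide) t' t htt
      rw [if_neg htt, if_pos h1, hh]
  rw [hstart]
  rcases le_total (r (dst n Y X a)) (hub n rs Y X a (!t)) with hle | hle
  · have hw := wk_curve n rs Y X a (!t) _ hal (hub n rs Y X a (!t) - r (dst n Y X a))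
      (fun k => r (dst n Y X a) + k)
      (by
        intro k hk
        unfold fib at hfr hfibn ⊢
        omega)
      (by
        intro k hk
        left
        omega)
    have e : r (dst n Y X a) + (hub n rs Y X a (!t) - r (dst n Y X a)) = hub n rs Y X a (!t) := by
      omega
    simp only [e, Nat.add_zero] at hw
    rw [← hcv] at hw
    exact ⟨_, _, _, hw⟩
  · have hw := wk_curve n rs Y X a (!t) _ hal (r (dst n Y X a) - hub n rs Y X a (!t))
      (fun k => r (dst n Y X a) - k)
      (by
        intro k hk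
        unfold fib at hfr hfibn ⊢
        omega)
      (by
        intro k hk
        right
        omega)
    have e : r (dst n Y X a) - (r (dst n Y X a) - hub n rs Y X a (!t)) = hub n rs Y X a (!t) := by
      omega
    simp only [e, Nat.sub_zero] at hw
    rw [← hcv] at hw
    exact ⟨_, _, _, hw⟩

end CP
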