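import Pool.Agent.B595.Tow.W2

set_option autoImplicit false
namespace CP

/-- loop at the hub containing a full sweep of the t-curve of r -/
theorem loop1 (n : ℕ) (rs : Bool) (Y X : Lev) (hI : Inv n Y X) (hrs : rs = true → 1 ≤ n)
    (h0 : Int0 n Y X) (a : ℕ) (ha : a ≤ X.L) (t : Bool) (r : ℕ → ℕ) (hr : Al rs X a t r) :
    ∃ ℓ v lb ρ, Wk (St rs X a) (JJ n Y X a) (hub n rs Y X a) (hub n rs Y X a) ℓ v lb ∧ Swp X a ℓ v lb t r ρ ∧
      ∀ b, fib X (X.h t a) b → 0 < ρ b ∧ ρ b < ℓ := by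
  obtain ⟨hlo, hhi⟩ := hub_fib n rs Y X hI hrs h0 a ha t
  obtain ⟨ℓ0, v0, lb0, W0⟩ := conn n rs Y X hI hrs h0 a ha t r hr
  have W0r := wk_rev _ _ _ _ _ _ _ W0 (fun t w w' h => st_symm rs X a t w w' h)
  have hJ : JJ n Y X a (cv X t r (hub n rs Y X a t)) := by
    rcases junc_J n rs Y X hI hrs h0 a ha t r with h | h
    · exact h
    · exact absurd hr h
  obtain ⟨c, hc⟩ : ∃ c, c = hub n rs Y X a t := ⟨_, rfl⟩
  obtain ⟨lo, hlo'⟩ : ∃ lo, lo = X.lo (X.h t a) := ⟨_, rfl⟩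
  obtain ⟨hi, hhi'⟩ : ∃ hi, hi = X.hi (X.h t a) := ⟨_, rfl⟩
  rw [← hc, ← hlo'] at hlo
  rw [← hc, ← hhi'] at hhi
  rw [← hc] at hJ W0 W0r
  obtain ⟨β, hβ⟩ : ∃ β : ℕ → ℕ, ∀ k, β k = if k ≤ c - lo then c - k else
      if k ≤ (c - lo) + (hi - lo) then lo + (k - (c - lo)) else
        hi - (k - (c - lo) - (hi - lo)) := ⟨_, fun k => rfl⟩
  obtain ⟨m, hm⟩ : ∃ m, m = (c - lo) + (hi - lo) + (hi - c) := ⟨_, rfl⟩
  have hfib : ∀ b, fib X (X.h t a) b ↔ lo ≤ b ∧ b ≤ hi := by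
    intro b
    unfold fib
    rw [← hlo', ← hhi']
  have h1 : ∀ k, k ≤ m → fib X (X.h t a) (β k) := by
    intro k hk
    rw [hfib, hβ]
    split_ifs <;> omega
  have h2 : ∀ k, k < m → Ad (β k) (β (k+1)) := by
    intro k hk
    unfold Ad
    rw [hβ, hβ]
    split_ifs <;> omega
  have hβ0 : β 0 = c := by
    rw [hβ, if_pos (Nat.zero_le _)]; rfl
  have hβm : β m = c := by
    rw [hβ, if_neg (by omega), if_neg (by omega)]
    omega
  have M := wk_curve n rs Y X a t r hr m β h1 h2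
  rw [hβ0, hβm] at M
  have hS : Swp X a m (fun k => cv X t r (β k)) (fun _ => t) t r
      (fun b => (c - lo) + (b - lo)) := by
    constructor
    · intro b hb
      rw [hfib] at hb
      refine ⟨by show (c - lo) + (b - lo) ≤ m; omega, ?_⟩
      show cv X t r (β ((c - lo) + (b - lo))) = cv X t r b
      congr 1
      rw [hβ]
      split_ifs <;> omega
    · intro b hb hb'
      rw [hfib] at hb hb'
      refine ⟨?_, rfl⟩
      left
      show (c - lo) + (b + 1 - lo) = (c - lo) + (b - lo) + 1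
      omega
  obtain ⟨v1, lb1, W1, _, _, W1c, W1d⟩ := wk_concat _ _ _ _ _ _ _ _ _ _ _ W0r M hJ
  have hS1 := swp_right X a ℓ0 m v1 _ lb1 _ t r _ hS W1c W1d
  obtain ⟨v2, lb2, W2, W2a, W2b, _, _⟩ := wk_concat _ _ _ _ _ _ _ _ _ _ _ W1 W0 hJ
  have hS2 := swp_left X a (ℓ0 + m) ℓ0 v2 v1 lb2 lb1 t r _ hS1 W2a W2b
  refine ⟨_, v2, lb2, _, W2, hS2, ?_⟩
  intro b hb
  rw [hfib] at hb
  show 0 < ℓ0 + ((c - lo) + (b - lo)) ∧ ℓ0 + ((c - lo) + (b - lo)) < ℓ0 + m + ℓ0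
  omega

end CP
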