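import Pool.Agent.B595.Tow.W2

set_option autoImplicit false
namespace CP

/-- walk from the extreme point of the t-curve of r to the hub, starting with a full sweep -/
theorem endleft (n : ℕ) (rs : Bool) (Y X : Lev) (hI : Inv n Y X) (hrs : rs = true → 1 ≤ n)
    (h0 : Int0 n Y X) (a : ℕ) (ha : a ≤ X.L) (t : Bool) (r : ℕ → ℕ) (hr : Al rs X a t r)
    (e : ℕ) (he : e = X.lo (X.h t a) ∨ e = X.hi (X.h t a)) :
    ∃ ℓ v lb ρ, Wk (St rs X a) (JJ n Y X a) (cv X t r e) (hub n rs Y X a) ℓ v lb ∧ Swp X a ℓ v lb t r ρ ∧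
      ρ e = 0 := by
  obtain ⟨ℓc, vc, lbc, hc⟩ := conn n rs Y X hI hrs h0 a ha t r hr
  obtain ⟨h1, h2⟩ := hub_fib n rs Y X hI hrs h0 a ha t
  have hJ : JJ n Y X a (cv X t r (hub n rs Y X a t)) := by
    rcases junc_J n rs Y X hI hrs h0 a ha t r with h | h
    · exact h
    · exact absurd hr h
  generalize hub n rs Y X a t = c at *
  generalize hlo : X.lo (X.h t a) = lo at *
  generalize hhi : X.hi (X.h t a) = hi at *
  rcases he with rfl | rfl
  · have hw := wk_curve n rs Y X a t r hr ((hi - e) + (hi - c))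
      (fun k => if k ≤ hi - e then e + k else hi - (k - (hi - e)))
      (by
        intro k hk
        unfold fib
        rw [hlo, hhi]
        try dsimp only
        split_ifs <;> omega)
      (by
        intro k hk
        unfold Ad
        try dsimp only
        split_ifs <;> omega)
    have e0 : (if (0:ℕ) ≤ hi - e then e + 0 else hi - (0 - (hi - e))) = e := by simp
    have em : (if (hi - e) + (hi - c) ≤ hi - e then e + ((hi - e) + (hi - c)) else
        hi - ((hi - e) + (hi - c) - (hi - e))) = c := by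
      split_ifs <;> omega
    simp only [e0, em] at hw
    obtain ⟨v, lb, hW, e1, e2, e3, e4⟩ := wk_concat _ _ _ _ _ _ _ _ _ _ _ hw hc hJ
    refine ⟨_, v, lb, fun b => b - e, hW, ?_, by simp⟩
    refine swp_left X a _ _ v _ lb _ t r (fun b => b - e) ?_ e1 e2
    constructor
    · intro b hb
      unfold fib at hb
      rw [hlo, hhi] at hb
      refine ⟨by dsimp only; omega, ?_⟩
      have : (if b - e ≤ hi - e then e + (b - e) else hi - (b - e - (hi - e))) = b := by
        split_ifs <;> omega
      simp only [this]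
    · intro b hb hb'
      unfold fib at hb hb'
      rw [hlo, hhi] at hb hb'
      refine ⟨?_, rfl⟩
      unfold Ad
      dsimp only
      omega
  · have hw := wk_curve n rs Y X a t r hr ((e - lo) + (c - lo))
      (fun k => if k ≤ e - lo then e - k else lo + (k - (e - lo)))
      (by
        intro k hk
        unfold fib
        rw [hlo, hhi]
        try dsimp only
        split_ifs <;> omega)
      (by
        intro k hk
        unfold Ad
        try dsimp only
        split_ifs <;> omega)
    have e0 : (if (0:ℕ) ≤ e - lo then e - 0 else lo + (0 - (e - lo))) = e := by simp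
    have em : (if (e - lo) + (c - lo) ≤ e - lo then e - ((e - lo) + (c - lo)) else
        lo + ((e - lo) + (c - lo) - (e - lo))) = c := by
      split_ifs <;> omega
    simp only [e0, em] at hw
    obtain ⟨v, lb, hW, e1, e2, e3, e4⟩ := wk_concat _ _ _ _ _ _ _ _ _ _ _ hw hc hJ
    refine ⟨_, v, lb, fun b => e - b, hW, ?_, by simp⟩
    refine swp_left X a _ _ v _ lb _ t r (fun b => e - b) ?_ e1 e2
    constructor
    · intro b hb
      unfold fib at hb
      rw [hlo, hhi] at hb
      refine ⟨by dsimp only; omega, ?_⟩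
      have : (if e - b ≤ e - lo then e - (e - b) else lo + (e - b - (e - lo))) = b := by
        split_ifs <;> omega
      simp only [this]
    · intro b hb hb'
      unfold fib at hb hb'
      rw [hlo, hhi] at hb hb'
      refine ⟨?_, rfl⟩
      unfold Ad
      dsimp only
      omega

theorem endright (n : ℕ) (rs : Bool) (Y X : Lev) (hI : Inv n Y X) (hrs : rs = true → 1 ≤ n)
    (h0 : Int0 n Y X) (a : ℕ) (ha : a ≤ X.L) (t : Bool) (r : ℕ → ℕ) (hr : Al rs X a t r)
    (e : ℕ) (he : e = X.lo (X.h t a) ∨ e = X.hi (X.h t a)) :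
    ∃ ℓ v lb ρ, Wk (St rs X a) (JJ n Y X a) (hub n rs Y X a) (cv X t r e) ℓ v lb ∧ Swp X a ℓ v lb t r ρ ∧
      ρ e = ℓ := by
  obtain ⟨ℓ, v, lb, ρ, hW, hS, hρ⟩ := endleft n rs Y X hI hrs h0 a ha t r hr e he
  refine ⟨ℓ, fun k => v (ℓ - k), fun k => lb (ℓ - 1 - k), fun b => ℓ - ρ b,
    wk_rev _ _ _ _ _ _ _ hW (fun t w w' h => st_symm rs X a t w w' h), ?_, by dsimp only; rw [hρ]; omega⟩
  constructor
  · intro b hb
    obtain ⟨g1, g2⟩ := hS.1 b hb
    refine ⟨Nat.sub_le _ _, ?_⟩
    dsimp only
    rw [show ℓ - (ℓ - ρ b) = ρ b by omega]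
    exact g2
  · intro b hb hb'
    obtain ⟨g1, g2⟩ := hS.2 b hb hb'
    have g3 := (hS.1 b hb).1
    have g4 := (hS.1 (b+1) hb').1
    unfold Ad at g1 ⊢
    dsimp only
    refine ⟨by omega, ?_⟩
    rw [show ℓ - 1 - min (ℓ - ρ b) (ℓ - ρ (b+1)) = min (ρ b) (ρ (b+1)) by omega]
    exact g2

end CP
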