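import Pool.Agent.B595.Tow.W3

set_option autoImplicit false
namespace CP

theorem loops_pick : ∀ x y : Fin 3, pick x y ≠ x := by decide

theorem loops_al (rs : Bool) (X : Lev) (a : ℕ) (t : Bool) (i : Fin 3) :
    Al rs X a t (X.R t (phi rs X t a i) (X.h (!t) a)) := by
  refine Or.inl ⟨phi rs X t a i, ?_, rfl⟩
  intro hrs
  subst hrs
  exact loops_pick _ _

theorem loops_list (n : ℕ) (rs : Bool) (Y X : Lev) (hI : Inv n Y X) (hrs : rs = true → 1 ≤ n)
    (h0 : Int0 n Y X) (a : ℕ) (ha : a ≤ X.L) (l : List (Bool × Fin 3)) (hl : l.Nodup) :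
    ∃ (ℓ : ℕ) (v : ℕ → Bool → ℕ) (lb : ℕ → Bool) (ρ : Bool × Fin 3 → ℕ → ℕ),
      Wk (St rs X a) (JJ n Y X a) (hub n rs Y X a) (hub n rs Y X a) ℓ v lb ∧
      (∀ p ∈ l, Swp X a ℓ v lb p.1 (X.R p.1 (phi rs X p.1 a p.2) (X.h (!p.1) a)) (ρ p)) ∧
      (∀ p ∈ l, ∀ b, fib X (X.h p.1 a) b → 0 < ρ p b ∧ ρ p b < ℓ) ∧
      ∀ p ∈ l, ∀ q ∈ l, p ≠ q → ∀ b b', fib X (X.h p.1 a) b → fib X (X.h q.1 a) b' →
        ρ p b ≠ ρ q b' := by
  induction l with
  | nil =>
    refine ⟨0, fun _ => hub n rs Y X a, fun _ => true, fun _ _ => 0, ⟨rfl, rfl, ?_, ?_⟩, ?_, ?_, ?_⟩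
    · intro k hk
      exact absurd hk (Nat.not_lt_zero k)
    · intro k hk
      exact absurd hk (Nat.not_lt_zero _)
    · intro p hp
      exact absurd hp (List.not_mem_nil)
    · intro p hp
      exact absurd hp (List.not_mem_nil)
    · intro p hp
      exact absurd hp (List.not_mem_nil)
  | cons p l ih =>
    obtain ⟨hpl, hl'⟩ := List.nodup_cons.1 hl
    obtain ⟨ℓ2, v2, lb2, ρ2, h1, h2, h3, h4⟩ := ih hl'
    obtain ⟨ℓ1, v1, lb1, ρ1, g1, g2, g3⟩ := loop1 n rs Y X hI hrs h0 a ha p.1 _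
      (loops_al rs X a p.1 p.2)
    obtain ⟨v, lb, k1, k2, k3, k4, k5⟩ := wk_concat _ _ _ _ _ ℓ1 ℓ2 v1 v2 lb1 lb2 g1 h1
      (hub_J n rs Y X hI hrs h0 a ha)
    have hne : ∀ q ∈ l, q ≠ p := fun q hq h => hpl (h ▸ hq)
    refine ⟨ℓ1 + ℓ2, v, lb, fun q => if q = p then ρ1 else fun b => ℓ1 + ρ2 q b, k1, ?_, ?_, ?_⟩
    · intro q hq
      rcases List.mem_cons.1 hq with rfl | hq
      · simp only [if_pos]
        exact swp_left X a ℓ1 ℓ2 v v1 lb lb1 _ _ _ g2 k2 k3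
      · simp only [if_neg (hne q hq)]
        exact swp_right X a ℓ1 ℓ2 v v2 lb lb2 _ _ _ (h2 q hq) k4 k5
    · intro q hq b hb
      rcases List.mem_cons.1 hq with rfl | hq
      · simp only [if_pos]
        have := g3 b hb
        omega
      · simp only [if_neg (hne q hq)]
        have := h3 q hq b hb
        omega
    · intro q hq q' hq' hqq b b' hb hb'
      rcases List.mem_cons.1 hq with hq1 | hq1 <;> rcases List.mem_cons.1 hq' with hq2 | hq2
      · exact absurd (hq1.trans hq2.symm) hqq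
      · subst hq1
        simp only [if_pos, if_neg (hne q' hq2)]
        have := g3 b hb
        omega
      · subst hq2
        simp only [if_pos, if_neg (hne q hq1)]
        have := g3 b' hb'
        omega
      · simp only [if_neg (hne q hq1), if_neg (hne q' hq2)]
        have := h4 q hq1 q' hq2 hqq b b' hb hb'
        omega

/-- one loop at the hub containing all designated sweeps, at disjoint places -/
theorem loops (n : ℕ) (rs : Bool) (Y X : Lev) (hI : Inv n Y X) (hrs : rs = true → 1 ≤ n)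
    (h0 : Int0 n Y X) (a : ℕ) (ha : a ≤ X.L) :
    ∃ ℓ v lb, ∃ ρ : Bool → Fin 3 → ℕ → ℕ, 2 ≤ ℓ ∧ Wk (St rs X a) (JJ n Y X a) (hub n rs Y X a) (hub n rs Y X a) ℓ v lb ∧
      (∀ t i, Swp X a ℓ v lb t (X.R t (phi rs X t a i) (X.h (!t) a)) (ρ t i)) ∧
      ∀ t i i' b b', i ≠ i' → fib X (X.h t a) b → fib X (X.h t a) b' → ρ t i b ≠ ρ t i' b' := by
  obtain ⟨ℓ, v, lb, ρ, h1, h2, h3, h4⟩ := loops_list n rs Y X hI hrs h0 a ha
    (Finset.univ : Finset (Bool × Fin 3)).toList (Finset.nodup_toList _)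
  have hmem : ∀ p : Bool × Fin 3, p ∈ (Finset.univ : Finset (Bool × Fin 3)).toList := fun p =>
    Finset.mem_toList.2 (Finset.mem_univ p)
  refine ⟨ℓ, v, lb, fun t i => ρ (t, i), ?_, h1, fun t i => h2 (t, i) (hmem _), ?_⟩
  · have h5 := hI.hmemX true a ha
    have h6 := hI.thickX _ h5
    have h7 := h3 (true, 0) (hmem _) (X.lo (X.h true a)) ⟨le_rfl, by
      show X.lo (X.h true a) ≤ X.hi (X.h true a)
      omega⟩
    omega
  · intro t i i' b b' hii hb hb'
    exact h4 (t, i) (hmem _) (t, i') (hmem _) (fun h => hii (Prod.ext_iff.1 h).2) b b' hb hb'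

end CP
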