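import Pool.Agent.B595.Tow.W4
import Pool.Agent.B595.Tow.W5

set_option autoImplicit false
namespace CP

theorem rd_al (rs : Bool) (X : Lev) (n : ℕ) (Y : Lev) (hI : Inv n Y X) (a a' : ℕ) (ha : a ≤ X.L) (ha' : a' ≤ X.L)
    (h : Ad a a') (hty : 1 ≤ X.ty true (min a a') + X.ty false (min a a')) (t : Bool) (ht : t = X.lab (min a a')) :
    Al rs X a t (rd rs X a a') := by
  have hpick : ∀ x y : Fin 3, pick x y ≠ x ∧ pick x y ≠ y := by
    unfold pick
    decide
  have hk : min a a' < X.L := by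
    rcases h with h | h
    · rw [min_eq_left (by omega)]; omega
    · rw [min_eq_right (by omega)]; omega
  have hlab := hI.lab1 _ hk hty
  subst ht
  unfold rd
  by_cases h0 : X.ty (!(X.lab (min a a'))) (min a a') = 0
  · rw [if_pos h0]
    left
    refine ⟨kk rs X (X.lab (min a a')) (min a a'), ?_, rfl⟩
    intro hrs
    unfold kk
    rw [if_pos hrs]
    rcases h with h | h
    · rw [min_eq_left (by omega : a ≤ a')]
      exact (hpick _ _).1
    · have e1 : a = a' + 1 := h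
      rw [min_eq_right (by omega : a' ≤ a), e1]
      exact (hpick _ _).2
  · rw [if_neg h0]
    right
    refine ⟨a', ha', h, rfl, ?_, ?_, rfl⟩
    · cases hl : X.lab (min a a')
      · rw [hl] at h0
        simp only [Bool.not_false] at h0
        omega
      · rw [hl] at hlab
        exact hlab
    · cases hl : X.lab (min a a')
      · rw [hl] at hlab
        exact hlab
      · rw [hl] at h0
        simp only [Bool.not_true] at h0
        omega

theorem local_walk_ex (X : Lev) (y y' : ℕ) : ex X y y' = X.lo y ∨ ex X y y' = X.hi y := by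
  unfold ex
  split_ifs
  · exact Or.inr rfl
  · exact Or.inl rfl

theorem local_walk_left (n : ℕ) (rs : Bool) (Y X : Lev) (hI : Inv n Y X) (hrs : rs = true → 1 ≤ n)
    (h0 : Int0 n Y X) (a : ℕ) (ha : a ≤ X.L) :
    ∃ (ℓ : ℕ) (v : ℕ → Bool → ℕ) (lb : ℕ → Bool) (ρ : ℕ → ℕ),
      Wk (St rs X a) (JJ n Y X a) (v 0) (hub n rs Y X a) ℓ v lb ∧
      (0 < a → v 0 = sv n rs Y X a (a-1)) ∧
      (0 < a → 1 ≤ X.ty true (a-1) + X.ty false (a-1) → ∀ t, t = X.lab (a-1) →
        Swp X a ℓ v lb t (rd rs X a (a-1)) ρ ∧ ρ (ex X (X.h t a) (X.h t (a-1))) = 0) := by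
  by_cases h : 0 < a ∧ 1 ≤ X.ty true (a-1) + X.ty false (a-1)
  · obtain ⟨h1, h2⟩ := h
    have hmin : min a (a-1) = a-1 := by omega
    have hal := rd_al rs X n Y hI a (a-1) ha (by omega) (Or.inr (by omega)) (by rw [hmin]; exact h2)
      (X.lab (a-1)) (by rw [hmin])
    obtain ⟨ℓ, v, lb, ρ, hW, hS, hρ⟩ := endleft n rs Y X hI hrs h0 a ha (X.lab (a-1))
      (rd rs X a (a-1)) hal (ex X (X.h (X.lab (a-1)) a) (X.h (X.lab (a-1)) (a-1)))
      (local_walk_ex X _ _)
    refine ⟨ℓ, v, lb, ρ, ?_, ?_, ?_⟩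
    · rw [hW.v0]; exact hW
    · intro _
      rw [hW.v0]
      unfold sv
      rw [hmin, if_neg (by omega)]
    · intro _ _ t ht
      subst ht
      exact ⟨hS, hρ⟩
  · refine ⟨0, fun _ => hub n rs Y X a, fun _ => true, fun _ => 0, ?_, ?_, ?_⟩
    · exact ⟨rfl, rfl, fun k hk => absurd hk (by omega), fun k hk => absurd hk (by omega)⟩
    · intro h1
      have hmin : min a (a-1) = a-1 := by omega
      show hub n rs Y X a = _
      unfold sv
      rw [hmin, if_pos (by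
        by_contra hc
        exact h ⟨h1, by omega⟩)]
    · intro h1 h2
      exact absurd ⟨h1, h2⟩ h

theorem local_walk_right (n : ℕ) (rs : Bool) (Y X : Lev) (hI : Inv n Y X) (hrs : rs = true → 1 ≤ n)
    (h0 : Int0 n Y X) (a : ℕ) (ha : a ≤ X.L) :
    ∃ (ℓ : ℕ) (v : ℕ → Bool → ℕ) (lb : ℕ → Bool) (ρ : ℕ → ℕ),
      Wk (St rs X a) (JJ n Y X a) (hub n rs Y X a) (v ℓ) ℓ v lb ∧
      (a < X.L → v ℓ = sv n rs Y X a (a+1)) ∧
      (a < X.L → 1 ≤ X.ty true a + X.ty false a → ∀ t, t = X.lab a →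
        Swp X a ℓ v lb t (rd rs X a (a+1)) ρ ∧ ρ (ex X (X.h t a) (X.h t (a+1))) = ℓ) := by
  by_cases h : a < X.L ∧ 1 ≤ X.ty true a + X.ty false a
  · obtain ⟨h1, h2⟩ := h
    have hmin : min a (a+1) = a := by omega
    have hal := rd_al rs X n Y hI a (a+1) ha (by omega) (Or.inl rfl) (by rw [hmin]; exact h2)
      (X.lab a) (by rw [hmin])
    obtain ⟨ℓ, v, lb, ρ, hW, hS, hρ⟩ := endright n rs Y X hI hrs h0 a ha (X.lab a)
      (rd rs X a (a+1)) hal (ex X (X.h (X.lab a) a) (X.h (X.lab a) (a+1)))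
      (local_walk_ex X _ _)
    refine ⟨ℓ, v, lb, ρ, ?_, ?_, ?_⟩
    · rw [hW.vl]; exact hW
    · intro _
      rw [hW.vl]
      unfold sv
      rw [hmin, if_neg (by omega)]
    · intro _ _ t ht
      subst ht
      exact ⟨hS, hρ⟩
  · refine ⟨0, fun _ => hub n rs Y X a, fun _ => true, fun _ => 0, ?_, ?_, ?_⟩
    · exact ⟨rfl, rfl, fun k hk => absurd hk (by omega), fun k hk => absurd hk (by omega)⟩
    · intro h1
      have hmin : min a (a+1) = a := by omega
      show hub n rs Y X a = _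
      unfold sv
      rw [hmin, if_pos (by
        by_contra hc
        exact h ⟨h1, by omega⟩)]
    · intro h1 h2
      exact absurd ⟨h1, h2⟩ h

/-- the local walk exists -/
theorem local_walk (n : ℕ) (rs : Bool) (Y X : Lev) (hI : Inv n Y X) (hrs : rs = true → 1 ≤ n)
    (h0 : Int0 n Y X) (a : ℕ) (ha : a ≤ X.L) :
    ∃ ℓ v lb ρ ρE, Loc n rs Y X a ℓ v lb ρ ρE := by
  obtain ⟨ℓ1, v1, lb1, ρ1, hW1, hs1, hS1⟩ := local_walk_left n rs Y X hI hrs h0 a ha
  obtain ⟨ℓ3, v3, lb3, ρ3, hW3, hs3, hS3⟩ := local_walk_right n rs Y X hI hrs h0 a ha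
  obtain ⟨ℓ2, v2, lb2, ρ2, h2, hW2, hS2, hd2⟩ := loops n rs Y X hI hrs h0 a ha
  have hJ := hub_J n rs Y X hI hrs h0 a ha
  obtain ⟨v12, lb12, hW12, p1, p2, p3, p4⟩ := wk_concat _ _ _ _ _ ℓ1 ℓ2 v1 v2 lb1 lb2 hW1 hW2 hJ
  obtain ⟨v, lb, hW, q1, q2, q3, q4⟩ := wk_concat _ _ _ _ _ (ℓ1 + ℓ2) ℓ3 v12 v3 lb12 lb3 hW12 hW3 hJ
  have hL : 0 < a → 1 ≤ X.ty true (a-1) + X.ty false (a-1) → ∀ t, t = X.lab (a-1) →
      Swp X a (ℓ1 + ℓ2 + ℓ3) v lb t (rd rs X a (a-1)) ρ1 := by
    intro g1 g2 t ht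
    have := swp_left X a ℓ1 ℓ2 v12 v1 lb12 lb1 t _ ρ1 (hS1 g1 g2 t ht).1 p1 p2
    exact swp_left X a (ℓ1 + ℓ2) ℓ3 v v12 lb lb12 t _ ρ1 this q1 q2
  have hR : a < X.L → 1 ≤ X.ty true a + X.ty false a → ∀ t, t = X.lab a →
      Swp X a (ℓ1 + ℓ2 + ℓ3) v lb t (rd rs X a (a+1)) (fun b => ℓ1 + ℓ2 + ρ3 b) := by
    intro g1 g2 t ht
    exact swp_right X a (ℓ1 + ℓ2) ℓ3 v v3 lb lb3 t _ ρ3 (hS3 g1 g2 t ht).1 q3 q4
  have hM : ∀ t i, Swp X a (ℓ1 + ℓ2 + ℓ3) v lb t (X.R t (phi rs X t a i) (X.h (!t) a))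
      (fun b => ℓ1 + ρ2 t i b) := by
    intro t i
    have := swp_right X a ℓ1 ℓ2 v12 v2 lb12 lb2 t _ (ρ2 t i) (hS2 t i) p3 p4
    exact swp_left X a (ℓ1 + ℓ2) ℓ3 v v12 lb lb12 t _ _ this q1 q2
  refine ⟨ℓ1 + ℓ2 + ℓ3, v, lb, fun t i b => ℓ1 + ρ2 t i b,
    fun a2 b => if a < a2 then ℓ1 + ℓ2 + ρ3 b else ρ1 b, ?_⟩
  refine ⟨by omega, ?_, ?_, hW.step, hW.turn, ?_, ?_, ?_, ?_, ?_, ?_⟩
  · intro g
    rw [q1 0 (by omega), p1 0 (by omega)]
    exact hs1 g
  · intro g
    rw [q3 ℓ3 le_rfl]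
    exact hs3 g
  · intro t i b hb
    exact (hM t i).1 b hb
  · intro t i b hb hb'
    exact (hM t i).2 b hb hb'
  · intro t i i' b b' hi hb hb'
    have := hd2 t i i' b b' hi hb hb'
    show ℓ1 + ρ2 t i b ≠ ℓ1 + ρ2 t i' b'
    omega
  · intro a' ha' had hty t ht b hb
    rcases had with had | had
    · subst had
      have hmin : min a (a+1) = a := by omega
      rw [hmin] at hty ht
      have hlt : a < a + 1 := by omega
      simp only [if_pos hlt]
      exact (hR (by omega) hty t ht).1 b hb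
    · have e1 : a' = a - 1 := by omega
      subst e1
      have hmin : min a (a-1) = a-1 := by omega
      rw [hmin] at hty ht
      have hlt : ¬ a < a - 1 := by omega
      simp only [if_neg hlt]
      exact (hL (by omega) hty t ht).1 b hb
  · intro a' ha' had hty t ht b hb hb'
    rcases had with had | had
    · subst had
      have hmin : min a (a+1) = a := by omega
      rw [hmin] at hty ht
      have hlt : a < a + 1 := by omega
      simp only [if_pos hlt]
      exact (hR (by omega) hty t ht).2 b hb hb'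
    · have e1 : a' = a - 1 := by omega
      subst e1
      have hmin : min a (a-1) = a-1 := by omega
      rw [hmin] at hty ht
      have hlt : ¬ a < a - 1 := by omega
      simp only [if_neg hlt]
      exact (hL (by omega) hty t ht).2 b hb hb'
  · intro a' ha' had hty t ht
    rcases had with had | had
    · subst had
      have hmin : min a (a+1) = a := by omega
      rw [hmin] at hty ht
      have hlt : a < a + 1 := by omega
      simp only [if_pos hlt]
      rw [(hS3 (by omega) hty t ht).2]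
    · have e1 : a' = a - 1 := by omega
      subst e1
      have hmin : min a (a-1) = a-1 := by omega
      rw [hmin] at hty ht
      have hlt : ¬ a < a - 1 := by omega
      simp only [if_neg hlt]
      exact (hS1 (by omega) hty t ht).2

end CP
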